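import Pool.Agent.Lib.H30P.Two
import Pool.Agent.Lib.H98L.L1
import Pool.Agent.Lib.H98Z.S2

/-!
# H30P, file Asm: statement TWO from (A1min), (A2), (B'min)

`Br T a b p m i j`: the edge `a i b j` is a bridging edge. `A1`, `A2`, `BM`: the three geometric
statements, in terms of positions. `L`: `v` is in the small triangle at the lower ends.
-/

set_option autoImplicit false
set_option linter.unusedSectionVars false

namespace H30P

open H53P Finset

variable {V : Type*} [DecidableEq V] {T : Table V} {a b : ℕ → V} {p m : ℕ}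

/-- `a i b j` is a bridging edge -/
def Br (T : Table V) (a b : ℕ → V) (p m i j : ℕ) : Prop :=
  1 ≤ i ∧ i ≤ p ∧ 1 ≤ j ∧ j ≤ m ∧ Brd T a b (a i) (b j)

/-- `a 1` and `b 1` are at the same corner of `v` -/
def Crn (T : Table V) (a b : ℕ → V) (p m : ℕ) : Prop := T.alt (a 0) (a 1) (b 1) (a p) (b m) = false

/-- the two cycles do not cross at `v` -/
theorem Two.alt0 (h : Two T a p b m) : T.alt (a 0) (a 1) (a p) (b 1) (b m) = false := by
  have hA := h.pa.toPer
  have hB := h.pb.toPer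
  have p3 := hA.three
  have m3 := hB.three
  have hC := hA.clo
  have ob : ∀ k, 1 ≤ k → k ≤ m → Off (pe a (p + 1)) (b k) := by
    intro k h1 h2
    apply hA.off
    intro t ht
    exact h.symm.dis k t h1 h2 ht.symm
  have eb : ∀ k, pc T (pe a (p + 1)) (b k) (b (k + 1)) = 0 := fun k => pc_unc hA (h.brd_b k).1
  have nb := hA.nb 0
  rw [show 0 + (p + 1) - 1 = p by omega, show 0 + 1 = 1 by rfl] at nb
  have s2 : pc T (pe a (p + 1)) (b 1) (b m) = pc T (pe a (p + 1)) (b m) (b m) :=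
    arc_side hC (ob m (by omega) le_rfl) (by omega) (fun k h1 h2 => ob k h1 h2) (fun k _ _ => eb k)
  have hv := pc_one (T := T) (y := b 1) (z := b m) hC nb (h.dis0 (by omega) (by omega) (by omega))
    (h.dis0 (by omega) (by omega) le_rfl) (hB.ne_of (by omega) (by omega)) (ob 1 (by omega) (by omega))
    (ob m (by omega) le_rfl) hA.lpl
  have e1 := eb 0
  rw [h.v0] at e1
  have e2 := eb m
  rw [hB.top, h.v0] at e2
  rw [e1, s2, pc_self, e2, add_zero, add_zero] at hv
  apply z2_inj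
  change al T _ _ _ _ _ = 0
  rw [← hv]

theorem Two.alt1 (h : Two T a p b m) (hc : Crn T a b p m) : T.alt (a 0) (a 1) (b m) (a p) (b 1) = true := by
  have hA := h.pa.toPer
  have hB := h.pb.toPer
  have p3 := hA.three
  have m3 := hB.three
  have h1 := T.rot3 (u := a 0) (a := a 1) (b := a p) (c := b 1) (d := b m)
    (hA.ne_of (by omega) (by omega)).symm (hA.ne_of (by omega) (by omega)).symm
    (h.dis0 (by omega) (by omega) (by omega)).symm (h.dis0 (by omega) (by omega) (by omega)).symm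
    (hA.ne_of (by omega) (by omega)) (h.dis0 (by omega) (by omega) (by omega))
    (h.dis0 (by omega) (by omega) (by omega)) (h.dis0 (by omega) (by omega) (by omega))
    (h.dis0 (by omega) (by omega) (by omega)) (hB.ne_of (by omega) (by omega))
  have h2 := h.alt0
  unfold Crn at hc
  have h3 := h1.1
  change ((T.alt (a 0) (a 1) (a p) (b 1) (b m) ^^ T.alt (a 0) (a 1) (b 1) (a p) (b m)) ^^
    T.alt (a 0) (a 1) (b m) (a p) (b 1)) = true at h3
  rw [h2, hc] at h3
  simpa using h3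

theorem Br.rvb (h : Two T a p b m) {i j : ℕ} (hb : Br T a b p m i j) :
    Br T a (rv b (m + 1)) p m i (m + 1 - j) := by
  obtain ⟨h1, h2, h3, h4, h5⟩ := hb
  refine ⟨h1, h2, by omega, by omega, ?_⟩
  rw [rv_of (by omega), show m + 1 - (m + 1 - j) = j by omega]
  exact h5.rvb h

/-- crossing of bridging edges and positions -/
theorem cr_iff (h : Two T a p b m) (hc : Crn T a b p m) {i j i' j' : ℕ} (hb : Br T a b p m i j)
    (hb' : Br T a b p m i' j') : T.X (a i) (b j) (a i') (b j') = true ↔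
      (i < i' ∧ j' < j) ∨ (i' < i ∧ j < j') := by
  have key : ∀ i j i' j', Br T a b p m i j → Br T a b p m i' j' → i < i' →
      (T.X (a i) (b j) (a i') (b j') = true ↔ j' < j) := by
    intro i j i' j' hb hb' hi
    rcases Nat.lt_trichotomy j j' with h1 | h1 | h1
    · have h2 := jn_cross h hb.1 hi hb'.2.1 hb.2.2.1 h1 hb'.2.2.2.1 hb.2.2.2.2 hb'.2.2.2.2
      unfold Crn at hc
      rw [T.xs4, h2, hc]
      simp only [Bool.false_eq_true, false_iff]
      omega
    · subst h1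
      rw [show T.X (a i) (b j) (a i') (b j) = false from ?_]
      · simp
      · cases h4 : T.X (a i) (b j) (a i') (b j) with
        | false => rfl
        | true => exact absurd rfl (T.ne _ _ _ _ h4).2.2.2.2.2
    · have r := hb.rvb h
      have r' := hb'.rvb h
      have h2 := jn_cross h.rvb r.1 hi r'.2.1 r.2.2.1 (by have := hb.2.2.2.1; omega) r'.2.2.2.1 r.2.2.2.2 r'.2.2.2.2
      have e1 : rv b (m + 1) (m + 1 - j) = b j := by
        rw [rv_of (by have := hb.2.2.1; omega), show m + 1 - (m + 1 - j) = j by have := hb.2.2.2.1; omega]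
      have e2 : rv b (m + 1) (m + 1 - j') = b j' := by
        rw [rv_of (by have := hb'.2.2.1; omega), show m + 1 - (m + 1 - j') = j' by have := hb'.2.2.2.1; omega]
      have m3 := h.pb.three
      have e3 : rv b (m + 1) 1 = b m := by rw [rv_of (by omega), show m + 1 - 1 = m by omega]
      have e4 : rv b (m + 1) m = b 1 := by rw [rv_of (by omega), show m + 1 - m = 1 by omega]
      rw [e1, e2, e3, e4] at h2
      rw [T.xs4, h2, h.alt1 hc]
      simp [h1]
  rcases Nat.lt_trichotomy i i' with h1 | h1 | h1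
  · rw [key i j i' j' hb hb' h1]
    omega
  · subst h1
    have h2 : T.X (a i) (b j) (a i) (b j') = false := by
      cases h4 : T.X (a i) (b j) (a i) (b j') with
      | false => rfl
      | true => exact absurd rfl (T.ne _ _ _ _ h4).2.2.1
    rw [h2]
    simp
  · rw [T.xs4, key i' j' i j hb' hb h1]
    omega

/-- (A1min), for consecutive minimal elements -/
def A1 (T : Table V) (a b : ℕ → V) (p m : ℕ) : Prop :=
  ∀ i k l j, i < k → j < l → Br T a b p m i l → Br T a b p m k j →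
    (∀ x y, Br T a b p m x y → x ≤ i → y ≤ l → x = i ∧ y = l) →
    (∀ x y, Br T a b p m x y → x ≤ k → y ≤ j → x = k ∧ y = j) →
    (∀ x y, Br T a b p m x y → x < k → l ≤ y) →
    inn T (a i) (b l) (b j) (a k) (a 0) = true

/-- (A2) -/
def A2 (T : Table V) (a b : ℕ → V) (p m : ℕ) : Prop :=
  ∀ i k l j, i < k → j < l → Br T a b p m i l → Br T a b p m k j →
    inn T (a i) (b l) (b j) (a k) (a 0) = true → ∃ x y, Br T a b p m x y ∧ k ≤ x ∧ l ≤ y

/-- (B'min), for consecutive minimal elements above a crossing pair of type `L` -/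
def BM (T : Table V) (a b : ℕ → V) (p m : ℕ) : Prop :=
  ∀ i k l j, i < k → j < l → Br T a b p m i l → Br T a b p m k j →
    inn T (a i) (b l) (b j) (a k) (a 0) = true →
  ∀ i' k' l' j', k ≤ i' → l ≤ j' → i' < k' → j' < l' → Br T a b p m i' l' → Br T a b p m k' j' →
    (∀ x y, Br T a b p m x y → k ≤ x → l ≤ y → x ≤ i' → y ≤ l' → x = i' ∧ y = l') →
    (∀ x y, Br T a b p m x y → k ≤ x → l ≤ y → x ≤ k' → y ≤ j' → x = k' ∧ y = j') →
    (∀ x y, Br T a b p m x y → k ≤ x → l ≤ y → x < k' → l' ≤ y) →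
    inn T (a i') (b l') (b j') (a k') (a 0) = true

/-- the position of an edge on a cycle -/
def pos (c : ℕ → V) (n : ℕ) (e : Sym2 V) : ℕ := ((range (n + 1)).filter fun i => c i ∈ e).sup id

theorem pos_a (h : Two T a p b m) {i j : ℕ} (i1 : 1 ≤ i) (ip : i ≤ p) (j1 : 1 ≤ j) (jm : j ≤ m) :
    pos a p s(a i, b j) = i := by
  unfold pos
  rw [show ((range (p + 1)).filter fun t => a t ∈ s(a i, b j)) = {i} from ?_, sup_singleton]
  · rfl
  ext t
  rw [mem_filter, mem_range, mem_singleton, Sym2.mem_iff]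
  constructor
  · rintro ⟨h1, h2 | h2⟩
    · exact h.pa.toPer.inj _ h1 _ (by omega) h2
    · exact absurd h2 (h.dis0 (by omega) j1 jm)
  · rintro rfl
    exact ⟨by omega, Or.inl rfl⟩

theorem pos_b (h : Two T a p b m) {i j : ℕ} (i1 : 1 ≤ i) (ip : i ≤ p) (j1 : 1 ≤ j) (jm : j ≤ m) :
    pos b m s(a i, b j) = j := by
  rw [Sym2.eq_swap]
  exact pos_a h.symm j1 jm i1 ip


section

variable [Fintype V] {cross : Sym2 V → Sym2 V → Prop}

/-- the bridging edges -/
noncomputable def BE (cross : Sym2 V → Sym2 V → Prop) (a b : ℕ → V) (p m : ℕ) : Finset (Sym2 V) :=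
  H98Z.Miss cross (H98Z.br ((Icc 1 p).image a) ((Icc 1 m).image b)) (pe a (p + 1) ∪ pe b (m + 1))

theorem mem_be (h : Two T a p b m) (hS : Sees T cross) {e : Sym2 V} :
    e ∈ BE cross a b p m ↔ ∃ i j, Br T a b p m i j ∧ e = s(a i, b j) := by
  unfold BE
  rw [H98Z.mem_miss, H98Z.mem_br]
  constructor
  · rintro ⟨⟨x, hx, y, hy, rfl⟩, h2⟩
    rw [mem_image] at hx hy
    obtain ⟨i, hi, rfl⟩ := hx
    obtain ⟨j, hj, rfl⟩ := hy
    rw [mem_Icc] at hi hj
    refine ⟨i, j, ⟨hi.1, hi.2, hj.1, hj.2, fun k => ?_, fun k => ?_⟩, rfl⟩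
    · have h3 := h2 _ (mem_union_left _ (h.pa.toPer.mem_pe.2 ⟨k, rfl⟩))
      rw [hS.iff] at h3
      simpa using h3
    · have h3 := h2 _ (mem_union_right _ (h.pb.toPer.mem_pe.2 ⟨k, rfl⟩))
      rw [hS.iff] at h3
      simpa using h3
  · rintro ⟨i, j, ⟨h1, h2, h3, h4, h5⟩, rfl⟩
    refine ⟨⟨a i, mem_image.2 ⟨i, mem_Icc.2 ⟨h1, h2⟩, rfl⟩, b j, mem_image.2 ⟨j, mem_Icc.2 ⟨h3, h4⟩, rfl⟩, rfl⟩, ?_⟩
    intro f hf
    rw [mem_union] at hf
    rcases hf with hf | hf
    · obtain ⟨k, rfl⟩ := h.pa.toPer.mem_pe.1 hf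
      rw [hS.iff, h5.1]
      simp
    · obtain ⟨k, rfl⟩ := h.pb.toPer.mem_pe.1 hf
      rw [hS.iff, h5.2]
      simp

theorem be_pos (h : Two T a p b m) {i j : ℕ} (hb : Br T a b p m i j) :
    pos a p s(a i, b j) = i ∧ pos b m s(a i, b j) = j :=
  ⟨pos_a h hb.1 hb.2.1 hb.2.2.1 hb.2.2.2.1, pos_b h hb.1 hb.2.1 hb.2.2.1 hb.2.2.2.1⟩

theorem be_grid (h : Two T a p b m) (hc : Crn T a b p m) (hS : Sees T cross) :
    H98L.Grid cross (pos a p) (pos b m) (BE cross a b p m) where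
  inj e he f hf h1 h2 := by
    obtain ⟨i, j, hb, rfl⟩ := (mem_be h hS).1 he
    obtain ⟨i', j', hb', rfl⟩ := (mem_be h hS).1 hf
    rw [(be_pos h hb).1, (be_pos h hb').1] at h1
    rw [(be_pos h hb).2, (be_pos h hb').2] at h2
    rw [h1, h2]
  cr e he f hf := by
    obtain ⟨i, j, hb, rfl⟩ := (mem_be h hS).1 he
    obtain ⟨i', j', hb', rfl⟩ := (mem_be h hS).1 hf
    unfold H98L.Le
    rw [hS.iff, cr_iff h hc hb hb', (be_pos h hb).1, (be_pos h hb').1, (be_pos h hb).2, (be_pos h hb').2]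
    omega

/-- STATEMENT TWO from the three geometric statements -/
theorem two_of (h : Two T a p b m) (hc : Crn T a b p m) (hS : Sees T cross)
    (h0 : ∃ i j, Br T a b p m i j) (h1 : A1 T a b p m) (h2 : A2 T a b p m) (h3 : BM T a b p m) : H98Z.Acy cross (BE cross a b p m) := by
  have hM : ∀ k l, ∀ X : Finset (Sym2 V), (∀ e ∈ X, e ∈ BE cross a b p m) →
      H98L.Mn (pos a p) (pos b m) X s(a k, b l) → Br T a b p m k l →
      ∀ x y, Br T a b p m x y → s(a x, b y) ∈ X → x ≤ k → y ≤ l → x = k ∧ y = l := by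
    intro k l X _ hm hb x y hxy hX hx hy
    have e1 := be_pos h hxy
    have e2 := be_pos h hb
    have h4 := hm.2 _ hX ⟨by rw [e1.1, e2.1]; exact hx, by rw [e1.2, e2.2]; exact hy⟩
    rw [h4] at e1
    exact ⟨e1.1.symm.trans e2.1, e1.2.symm.trans e2.2⟩
  -- consecutive minimal elements
  have hcons : ∀ X : Finset (Sym2 V), (∀ e ∈ X, e ∈ BE cross a b p m) → ∀ i l k j,
      Br T a b p m i l → Br T a b p m k j → H98L.Cons (pos a p) (pos b m) X s(a i, b l) s(a k, b j) →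
      i < k ∧ j < l ∧ ∀ x y, Br T a b p m x y → s(a x, b y) ∈ X → x < k → l ≤ y := by
    intro X hX i l k j hb hb' hcd
    obtain ⟨m1, m2, lt, con⟩ := hcd
    have e1 := be_pos h hb
    have e2 := be_pos h hb'
    rw [e1.1, e2.1] at lt
    have hjl : j < l := by
      have h5 := H98L.mn_y m1 m2 (by rw [e1.1, e2.1]; omega)
      rw [e1.2, e2.2] at h5
      rcases Nat.lt_or_ge j l with h6 | h6
      · exact h6
      · have h7 := m2.2 _ m1.1 ⟨by rw [e1.1, e2.1]; omega, by rw [e1.2, e2.2]; omega⟩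
        rw [← e1.1, h7, e2.1] at lt
        exact absurd lt (lt_irrefl _)
    refine ⟨lt, hjl, fun x y hxy hX' hx => ?_⟩
    by_contra hly
    obtain ⟨z, hz1, hz2⟩ := H98L.exists_mn ((be_grid h hc hS).mono hX) hX'
    obtain ⟨x', y', hb'', rfl⟩ := (mem_be h hS).1 (hX _ hz1.1)
    have e3 := be_pos h hb''
    have e4 := be_pos h hxy
    obtain ⟨hz2, hz3⟩ := hz2
    rw [e3.1, e4.1] at hz2
    rw [e3.2, e4.2] at hz3
    have h8 := con _ hz1
    rw [e1.1, e2.1, e3.1] at h8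
    rcases Nat.lt_or_ge i x' with h9 | h9
    · exact h8 h9 (by omega)
    · have h10 := hM i l X hX m1 hb x' y' hb'' hz1.1 h9 (by omega)
      omega
  refine H98L.acy_of_type hS.symm (be_grid h hc hS)
    (by obtain ⟨i, j, hb⟩ := h0; exact ⟨_, (mem_be h hS).2 ⟨i, j, hb, rfl⟩⟩)
    (fun e f => ∀ i l k j, Br T a b p m i l → Br T a b p m k j → e = s(a i, b l) → f = s(a k, b j) →
      inn T (a i) (b l) (b j) (a k) (a 0) = true) ?_ ?_ ?_
  · intro e f hcd i l k j hb hb' he hf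
    subst he hf
    obtain ⟨g1, g2, g3⟩ := hcons _ (fun e he => he) i l k j hb hb' hcd
    refine h1 i k l j g1 g2 hb hb' ?_ ?_ ?_
    · intro x y hxy
      exact hM i l _ (fun e he => he) hcd.1 hb x y hxy ((mem_be h hS).2 ⟨x, y, hxy, rfl⟩)
    · intro x y hxy
      exact hM k j _ (fun e he => he) hcd.2.1 hb' x y hxy ((mem_be h hS).2 ⟨x, y, hxy, rfl⟩)
    · intro x y hxy
      exact g3 x y hxy ((mem_be h hS).2 ⟨x, y, hxy, rfl⟩)
  · intro e he f hf hcr hlt hL
    obtain ⟨i, l, hb, rfl⟩ := (mem_be h hS).1 he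
    obtain ⟨k, j, hb', rfl⟩ := (mem_be h hS).1 hf
    have e1 := be_pos h hb
    have e2 := be_pos h hb'
    rw [hS.iff, cr_iff h hc hb hb'] at hcr
    rw [e1.1, e2.1] at hlt
    obtain ⟨x, y, hxy, hx, hy⟩ := h2 i k l j hlt (by omega) hb hb' (hL i l k j hb hb' rfl rfl)
    have e3 := be_pos h hxy
    refine ⟨s(a x, b y), (mem_be h hS).2 ⟨x, y, hxy, rfl⟩, ⟨?_, ?_⟩, ⟨?_, ?_⟩⟩
    · rw [e1.1, e3.1]; omega
    · rw [e1.2, e3.2]; omega
    · rw [e2.1, e3.1]; omega
    · rw [e2.2, e3.2]; omega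
  · intro e he f hf hcr hlt hL c d hcd i' l' k' j' hb2 hb2' hc' hd'
    subst hc' hd'
    obtain ⟨i, l, hb, rfl⟩ := (mem_be h hS).1 he
    obtain ⟨k, j, hb', rfl⟩ := (mem_be h hS).1 hf
    have e1 := be_pos h hb
    have e2 := be_pos h hb'
    rw [hS.iff, cr_iff h hc hb hb'] at hcr
    rw [e1.1, e2.1] at hlt
    have hU : ∀ g ∈ H98L.U (pos a p) (pos b m) (BE cross a b p m) s(a i, b l) s(a k, b j), g ∈ BE cross a b p m :=
      fun g hg => (H98L.mem_U.1 hg).1
    have hUm : ∀ x y, Br T a b p m x y → k ≤ x → l ≤ y →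
        s(a x, b y) ∈ H98L.U (pos a p) (pos b m) (BE cross a b p m) s(a i, b l) s(a k, b j) := by
      intro x y hxy hx hy
      have e3 := be_pos h hxy
      refine H98L.mem_U.2 ⟨(mem_be h hS).2 ⟨x, y, hxy, rfl⟩, ⟨?_, ?_⟩, ⟨?_, ?_⟩⟩
      · rw [e1.1, e3.1]; omega
      · rw [e1.2, e3.2]; omega
      · rw [e2.1, e3.1]; omega
      · rw [e2.2, e3.2]; omega
    have f1 := be_pos h hb2
    have f2 := be_pos h hb2'
    obtain ⟨g1, g2, g3⟩ := hcons _ hU i' l' k' j' hb2 hb2' hcd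
    have u1 := H98L.mem_U.1 hcd.1.1
    have u2 := H98L.mem_U.1 hcd.2.1.1
    have w1 := u1.2.2.1
    have w2 := u2.2.1.2
    rw [e2.1, f1.1] at w1
    rw [e1.2, f2.2] at w2
    refine h3 i k l j hlt (by omega) hb hb' (hL i l k j hb hb' rfl rfl) i' k' l' j' w1 w2 g1 g2 hb2 hb2' ?_ ?_ ?_
    · intro x y hxy hx hy
      exact hM i' l' _ hU hcd.1 hb2 x y hxy (hUm x y hxy hx hy)
    · intro x y hxy hx hy
      exact hM k' j' _ hU hcd.2.1 hb2' x y hxy (hUm x y hxy hx hy)
    · intro x y hxy hx hy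
      exact g3 x y hxy (hUm x y hxy hx hy)

end

end H30P
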