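import Pool.Agent.Lib.H30P.K5

/-!
# H30P, file Chk: the checker for facts about few points of a crossing table

`check_sound`: if `check .. = true` then no table satisfies the hypotheses `hl` (literals).
-/

set_option autoImplicit false
set_option linter.unusedTactic false
set_option linter.unreachableTactic false

namespace H30P

open H53P

variable {V : Type*}

/-- tables given by the conditions on five points and the triangle parities -/
structure PT (V : Type*) where
  /-- `X a b c d`: the edges `ab` and `cd` cross -/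
  X : V → V → V → V → Bool
  symm1 : ∀ a b c d, X a b c d = X b a c d
  symm2 : ∀ a b c d, X a b c d = X c d a b
  ne : ∀ a b c d, X a b c d = true → a ≠ b ∧ c ≠ d ∧ a ≠ c ∧ a ≠ d ∧ b ≠ c ∧ b ≠ d
  /-- the conditions on five points -/
  five : ∀ a b c d e, a ≠ b → a ≠ c → a ≠ d → a ≠ e → b ≠ c → b ≠ d → b ≠ e → c ≠ d → c ≠ e → d ≠ e →
    ok5 (X a b c d) (X a c b d) (X a d b c) (X a b c e) (X a c b e) (X a e b c) (X a b d e) (X a d b e)
      (X a e b d) (X a c d e) (X a d c e) (X a e c d) (X b c d e) (X b d c e) (X b e c d) = true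
  /-- the sides of a triangle -/
  tri : ∀ a b c, a ≠ b → b ≠ c → c ≠ a → ∀ x y z, x ≠ a → x ≠ b → x ≠ c → y ≠ a → y ≠ b →
    y ≠ c → z ≠ a → z ≠ b → z ≠ c →
    ((crTX X a b c x y ^^ crTX X a b c y z) ^^ crTX X a b c z x) = false

/-- tables satisfy these conditions -/
def toPT (T : Table V) : PT V where
  X := T.X
  symm1 := T.symm1
  symm2 := T.symm2
  ne := T.ne
  five := fun _ _ _ _ _ h1 h2 h3 h4 h5 h6 h7 h8 h9 h10 => T.ok5 h1 h2 h3 h4 h5 h6 h7 h8 h9 h10
  tri := T.tri

namespace PT

theorem xs1 (T : PT V) (a b c d : V) : T.X a b c d = T.X b a c d := T.symm1 a b c d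

theorem xs4 (T : PT V) (a b c d : V) : T.X a b c d = T.X c d a b := T.symm2 a b c d

theorem xs2 (T : PT V) (a b c d : V) : T.X a b c d = T.X a b d c := by
  rw [T.symm2 a b c d, T.symm1 c d a b, T.symm2 d c a b]

theorem xs3 (T : PT V) (a b c d : V) : T.X a b c d = T.X b a d c := by
  rw [T.xs1 a b c d, T.xs2 b a c d]

theorem xs5 (T : PT V) (a b c d : V) : T.X a b c d = T.X d c a b := by
  rw [T.xs4 a b c d, T.xs1 c d a b]

theorem xs6 (T : PT V) (a b c d : V) : T.X a b c d = T.X c d b a := by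
  rw [T.xs4 a b c d, T.xs2 c d a b]

theorem xs7 (T : PT V) (a b c d : V) : T.X a b c d = T.X d c b a := by
  rw [T.xs4 a b c d, T.xs3 c d a b]

end PT

/-- the crossing with code `c` (four point numbers, base 16) -/
def cX (T : PT V) (p : ℕ → V) (c : ℕ) : Bool :=
  T.X (p (c % 16)) (p (c / 16 % 16)) (p (c / 256 % 16)) (p (c / 4096 % 16))

/-- the code of four point numbers -/
def cd (a b c d : ℕ) : ℕ := a + 16 * b + 256 * c + 4096 * d

theorem cX_cd (T : PT V) (p : ℕ → V) {a b c d : ℕ} (ha : a < 16) (hb : b < 16) (hc : c < 16)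
    (hd : d < 16) : cX T p (cd a b c d) = T.X (p a) (p b) (p c) (p d) := by
  unfold cX cd
  have e1 : (a + 16 * b + 256 * c + 4096 * d) % 16 = a := by omega
  have e2 : (a + 16 * b + 256 * c + 4096 * d) / 16 % 16 = b := by omega
  have e3 : (a + 16 * b + 256 * c + 4096 * d) / 256 % 16 = c := by omega
  have e4 : (a + 16 * b + 256 * c + 4096 * d) / 4096 % 16 = d := by omega
  rw [e1, e2, e3, e4]

/-- gates: `0` exclusive or, `1` and, otherwise or -/
def op (o : ℕ) (x y : Bool) : Bool :=
  bif Nat.beq o 0 then x ^^ y else bif Nat.beq o 1 then x && y else x || y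

/-- adding gates to a valuation -/
def ext : List (ℕ × ℕ × ℕ) → (ℕ → Bool) → ℕ → ℕ → Bool
  | [], u, _ => u
  | g :: gs, u, N => ext gs
    (fun i => bif Nat.beq i N then op g.1 (lit u g.2.1) (lit u g.2.2) else u i) (N + 1)

theorem ext_lt : ∀ (gs : List (ℕ × ℕ × ℕ)) (u : ℕ → Bool) (N i : ℕ), i < N → ext gs u N i = u i := by
  intro gs
  induction gs with
  | nil => intro u N i _; rfl
  | cons g gs ih =>
    intro u N i h
    unfold ext
    rw [ih _ _ _ (by omega)]
    have h1 : Nat.beq i N = false := by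
      cases h2 : Nat.beq i N with
      | false => rfl
      | true => exact absurd (Nat.eq_of_beq_eq_true h2) (by omega)
    rw [h1]
    rfl

theorem ext_get : ∀ (gs : List (ℕ × ℕ × ℕ)) (u : ℕ → Bool) (N k : ℕ) (g : ℕ × ℕ × ℕ),
    gs[k]? = some g → g.2.1 / 2 < N + k → g.2.2 / 2 < N + k →
    ext gs u N (N + k) = op g.1 (lit (ext gs u N) g.2.1) (lit (ext gs u N) g.2.2) := by
  intro gs
  induction gs with
  | nil => intro u N k g h; simp at h
  | cons g' gs ih =>
    intro u N k g h h1 h2
    cases k with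
    | zero =>
      simp only [List.getElem?_cons_zero, Option.some.injEq] at h
      subst h
      have e1 : ext (g' :: gs) u N N = op g'.1 (lit u g'.2.1) (lit u g'.2.2) := by
        unfold ext
        rw [ext_lt gs _ (N + 1) N (Nat.lt_succ_self N), Nat.beq_refl]
        rfl
      have e2 : ∀ i < N, ext (g' :: gs) u N i = u i := fun i hi => ext_lt _ _ _ _ hi
      rw [Nat.add_zero, e1]
      unfold lit
      rw [e2 _ (by omega), e2 _ (by omega)]
    | succ k =>
      simp only [List.getElem?_cons_succ] at h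
      have h3 := ih (fun i => bif Nat.beq i N then op g'.1 (lit u g'.2.1) (lit u g'.2.2) else u i) (N + 1)
        k g h (by omega) (by omega)
      have h4 : N + 1 + k = N + (k + 1) := by omega
      rw [h4] at h3
      exact h3

/-- the valuation of a table -/
noncomputable def val (T : PT V) (p : ℕ → V) (q : Tr) (N : ℕ) (gs : List (ℕ × ℕ × ℕ)) : ℕ → Bool :=
  ext gs (fun i => cX T p (q.get i)) N

theorem val_lt {T : PT V} {p : ℕ → V} {q : Tr} {N : ℕ} {gs : List (ℕ × ℕ × ℕ)} {i : ℕ} (h : i < N) :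
    val T p q N gs i = cX T p (q.get i) := ext_lt _ _ _ _ h

/-- the clauses of five points -/
noncomputable def PI : Tr := (.br 260 (.br 130 (.br 65 (.br 32 (.br 16 (.br 8 (.br 4 (.br 2 (.br 1 (.lf 10) (.lf 34)) (.br 3 (.lf 40) (.lf
    640))) (.br 6 (.br 5 (.lf 2176) (.lf 2560)) (.br 7 (.lf 40960) (.lf 139264)))) (.br 12 (.br 10 (.br 9 (.lf
    163840) (.lf 2621440)) (.br 11 (.lf 8912896) (.lf 10485760))) (.br 14 (.br 13 (.lf 167772160) (.lf
    570425344)) (.br 15 (.lf 671088640) (.lf 34824))))) (.br 24 (.br 20 (.br 18 (.br 17 (.lf 131616) (.lf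
    557184)) (.br 19 (.lf 655362) (.lf 2099202))) (.br 22 (.br 21 (.lf 2105856) (.lf 8388768)) (.br 23 (.lf
    8396808) (.lf 33587202)))) (.br 28 (.br 26 (.br 25 (.lf 33685632) (.lf 35651592)) (.br 27 (.lf 41943552)
    (.lf 134218242))) (.br 30 (.br 29 (.lf 134227968) (.lf 134742048)) (.br 31 (.lf 142639104) (.lf
    536871048)))))) (.br 48 (.br 40 (.br 36 (.br 34 (.br 33 (.lf 536879136) (.lf 537397248)) (.br 35 (.lf
    539099136) (.lf 534560))) (.br 38 (.br 37 (.lf 528514) (.lf 528544)) (.br 39 (.lf 530434) (.lf 557314))))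
    (.br 44 (.br 42 (.br 41 (.lf 557320) (.lf 559106)) (.br 43 (.lf 559120) (.lf 655492))) (.br 46 (.br 45
    (.lf 655520) (.lf 655876)) (.br 47 (.lf 656416) (.lf 270856))))) (.br 56 (.br 52 (.br 50 (.br 49 (.lf
    270880) (.lf 272392)) (.br 51 (.lf 2105410) (.lf 2105416))) (.br 54 (.br 53 (.lf 2107400) (.lf 2107408))
    (.br 55 (.lf 2131984) (.lf 2114050)))) (.br 60 (.br 58 (.br 57 (.lf 2114080) (.lf 2228360)) (.br 59 (.lf
    2228290) (.lf 2228738))) (.br 62 (.br 61 (.lf 2228740) (.lf 2164744)) (.br 63 (.lf 1081480) (.br 64 (.lf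
    1081504) (.lf 1179808)))))))) (.br 97 (.br 81 (.br 73 (.br 69 (.br 67 (.br 66 (.lf 8396929) (.lf 8397313))
    (.br 68 (.lf 8397344) (.lf 8397856))) (.br 71 (.br 70 (.lf 8421505) (.lf 8421512)) (.br 72 (.lf 8421890)
    (.lf 8421640)))) (.br 77 (.br 75 (.br 74 (.lf 8405536) (.lf 8520736)) (.br 76 (.lf 8454280) (.lf
    8456200))) (.br 79 (.br 78 (.lf 4229122) (.lf 4325890)) (.br 80 (.lf 4327426) (.lf 33563144))))) (.br 89
    (.br 85 (.br 83 (.br 82 (.lf 33558658) (.lf 33558664)) (.br 84 (.lf 33559042) (.lf 33587336))) (.br 87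
    (.br 86 (.lf 33587344) (.lf 33587464)) (.br 88 (.lf 33589264) (.lf 33686018)))) (.br 93 (.br 91 (.br 90
    (.lf 33686020) (.lf 33686530)) (.br 92 (.lf 33686560) (.lf 34078850))) (.br 95 (.br 94 (.lf 34082818) (.lf
    34082944)) (.br 96 (.lf 33816712) (.lf 33817090)))))) (.br 113 (.br 105 (.br 101 (.br 99 (.br 98 (.lf
    33817096) (.lf 33824776)) (.br 100 (.lf 33825280) (.lf 33849352))) (.br 103 (.br 102 (.lf 33948160) (.lf
    35651650)) (.br 104 (.lf 35652098) (.lf 35652112)))) (.br 109 (.br 107 (.br 106 (.lf 35653648) (.lf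
    35655682)) (.br 108 (.lf 35684368) (.lf 35686400))) (.br 111 (.br 110 (.lf 35668480) (.lf 35782658)) (.br
    112 (.lf 35782672) (.lf 35783168))))) (.br 121 (.br 117 (.br 115 (.br 114 (.lf 35783680) (.lf 34635904))
    (.br 116 (.lf 41943169) (.lf 41943176))) (.br 119 (.br 118 (.lf 41944072) (.lf 41944096)) (.br 120 (.lf
    41947264) (.lf 41975816)))) (.br 125 (.br 123 (.br 122 (.lf 41975824) (.lf 41975936)) (.br 124 (.lf
    41976832) (.lf 42074144))) (.br 127 (.br 126 (.lf 42075136) (.lf 42008584)) (.br 128 (.lf 37879810) (.br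
    129 (.lf 16785952) (.lf 16787464))))))))) (.br 195 (.br 162 (.br 146 (.br 138 (.br 134 (.br 132 (.br 131
    (.lf 16787488) (.lf 17301664)) (.br 133 (.lf 17303554) (.lf 17303584))) (.br 136 (.br 135 (.lf 17309728)
    (.lf 17311744)) (.br 137 (.lf 17336320) (.lf 17432608)))) (.br 142 (.br 140 (.br 139 (.lf 18884608) (.lf
    25174048)) (.br 141 (.lf 134225986) (.lf 134226016))) (.br 144 (.br 143 (.lf 134226436) (.lf 134226464))
    (.br 145 (.lf 134250656) (.lf 134250562))))) (.br 154 (.br 150 (.br 148 (.br 147 (.lf 134252546) (.lf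
    134252560)) (.br 149 (.lf 134234656) (.lf 134349316))) (.br 152 (.br 151 (.lf 134285314) (.lf 134285320))
    (.br 153 (.lf 134742082) (.lf 134742532)))) (.br 158 (.br 156 (.br 155 (.lf 134744066) (.lf 134744068))
    (.br 157 (.lf 134746114) (.lf 134774786))) (.br 160 (.br 159 (.lf 134774788) (.lf 134775040)) (.br 161
    (.lf 134776832) (.lf 134873092)))))) (.br 178 (.br 170 (.br 166 (.br 164 (.br 163 (.lf 134873600) (.lf
    134809600)) (.br 165 (.lf 134488576) (.lf 136314946))) (.br 168 (.br 167 (.lf 136323074) (.lf 136323136))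
    (.br 169 (.lf 135266464) (.lf 135266848)))) (.br 174 (.br 172 (.br 171 (.lf 135274528) (.lf 135299074))
    (.br 173 (.lf 135299104) (.lf 135299200))) (.br 176 (.br 175 (.lf 135301120) (.lf 142606852)) (.br 177
    (.lf 142606880) (.lf 142608392))))) (.br 186 (.br 182 (.br 180 (.br 179 (.lf 142607392) (.lf 142614529))
    (.br 181 (.lf 142614560) (.lf 142614592))) (.br 184 (.br 183 (.lf 142615040) (.lf 142671880)) (.br 185
    (.lf 142671904) (.lf 142672384)))) (.br 190 (.br 188 (.br 187 (.lf 142673920) (.lf 138414082)) (.br 189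
    (.lf 67141768) (.lf 67240072))) (.br 192 (.br 191 (.lf 67240096) (.lf 67764352)) (.br 193 (.lf 69206152)
    (.br 194 (.lf 69208072) (.lf 69214216)))))))) (.br 227 (.br 211 (.br 203 (.br 199 (.br 197 (.br 196 (.lf
    69337090) (.lf 69337096)) (.br 198 (.lf 69337216) (.lf 69337600))) (.br 201 (.br 200 (.lf 75497608) (.lf
    536879233)) (.br 202 (.lf 536879368) (.lf 536881153)))) (.br 207 (.br 205 (.br 204 (.lf 536881160) (.lf
    536903944)) (.br 206 (.lf 536887456) (.lf 536887840))) (.br 209 (.br 208 (.lf 537002113) (.lf 537002144))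
    (.br 210 (.lf 537004034) (.lf 537003040))))) (.br 219 (.br 215 (.br 213 (.br 212 (.lf 536938504) (.lf
    537395329)) (.br 214 (.lf 537395360) (.lf 537395464))) (.br 217 (.br 216 (.lf 537395488) (.lf 537399424))
    (.br 218 (.lf 537427976) (.lf 537428224)))) (.br 223 (.br 221 (.br 220 (.lf 537411616) (.lf 537526276))
    (.br 222 (.lf 537526304) (.lf 537526400))) (.br 225 (.br 224 (.lf 537526528) (.lf 537141256)) (.br 226
    (.lf 538968608) (.lf 538968328)))))) (.br 243 (.br 235 (.br 231 (.br 229 (.br 228 (.lf 538970120) (.lf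
    538970128)) (.br 230 (.lf 538976257) (.lf 538976264))) (.br 233 (.br 232 (.lf 538976320) (.lf 538978304))
    (.br 234 (.lf 538984456) (.lf 538984480)))) (.br 239 (.br 237 (.br 236 (.lf 538984960) (.lf 538986496))
    (.br 238 (.lf 537919648) (.lf 545259649))) (.br 241 (.br 240 (.lf 545267713) (.lf 545267840)) (.br 242
    (.lf 541067266) (.lf 541067272))))) (.br 251 (.br 247 (.br 245 (.br 244 (.lf 541075456) (.lf 541196290))
    (.br 246 (.lf 541196320) (.lf 541196416))) (.br 249 (.br 248 (.lf 541198336) (.lf 268468738)) (.br 250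
    (.lf 268470274) (.lf 268567042)))) (.br 255 (.br 253 (.br 252 (.lf 268992514) (.lf 270533122)) (.br 254
    (.lf 276824578) (.lf 276824608))) (.br 257 (.br 256 (.lf 276832768) (.lf 276856834)) (.br 258 (.lf
    276856840) (.br 259 (.lf 276856960) (.lf 276857344)))))))))) (.br 390 (.br 325 (.br 292 (.br 276 (.br 268
    (.br 264 (.br 262 (.br 261 (.lf 532832) (.lf 534533)) (.br 263 (.lf 608288) (.lf 2117768))) (.br 266 (.br
    265 (.lf 2228369) (.lf 2229512)) (.br 267 (.lf 1344002) (.lf 8421908)))) (.br 272 (.br 270 (.br 269 (.lf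
    8422466) (.lf 8458754)) (.br 271 (.lf 4587656) (.lf 5253152))) (.br 274 (.br 273 (.lf 33563153) (.lf
    33563720)) (.br 275 (.lf 33636872) (.lf 34078868))))) (.br 284 (.br 280 (.br 278 (.br 277 (.lf 34080002)
    (.lf 33849616)) (.br 279 (.lf 33833488) (.lf 33948676))) (.br 282 (.br 281 (.lf 33883144) (.lf 35655760))
    (.br 283 (.lf 35684672) (.lf 35723264)))) (.br 288 (.br 286 (.br 285 (.lf 34607248) (.lf 34996256)) (.br
    287 (.lf 41948161) (.lf 41963552))) (.br 290 (.br 289 (.lf 42074117) (.lf 37753858)) (.br 291 (.lf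
    38045696) (.lf 38797442)))))) (.br 308 (.br 300 (.br 296 (.br 294 (.br 293 (.lf 17334544) (.lf 17318176))
    (.br 295 (.lf 17433604) (.lf 17369092))) (.br 298 (.br 297 (.lf 17056288) (.lf 17106952)) (.br 299 (.lf
    18882640) (.lf 17834080)))) (.br 304 (.br 302 (.br 301 (.lf 17830048) (.lf 25175041)) (.br 303 (.lf
    20981761) (.lf 20977666))) (.br 306 (.br 305 (.lf 134250629) (.lf 134251808)) (.br 307 (.lf 134287520)
    (.lf 134746180))))) (.br 316 (.br 312 (.br 310 (.br 309 (.lf 134763008) (.lf 134874176)) (.br 311 (.lf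
    134488132) (.lf 136323092))) (.br 314 (.br 313 (.lf 136396802) (.lf 135299332)) (.br 315 (.lf 135283204)
    (.lf 135333904)))) (.br 320 (.br 318 (.br 317 (.lf 135332896) (.lf 135530504)) (.br 319 (.lf 142606664)
    (.lf 142608401))) (.br 322 (.br 321 (.lf 142671937) (.lf 138477634)) (.br 323 (.lf 138682370) (.br 324
    (.lf 139592192) (.lf 67637380)))))))) (.br 357 (.br 341 (.br 333 (.br 329 (.br 327 (.br 326 (.lf 67379272)
    (.lf 67375240)) (.br 328 (.lf 69222916) (.lf 69222664))) (.br 331 (.br 330 (.lf 69338128) (.lf 69273616))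
    (.br 332 (.lf 68190472) (.lf 68289568)))) (.br 337 (.br 335 (.br 334 (.lf 75563137) (.lf 71434369)) (.br
    336 (.lf 71434306) (.lf 84019202))) (.br 339 (.br 338 (.lf 84443144) (.lf 85983776)) (.br 340 (.lf
    92283008) (.lf 536893442))))) (.br 349 (.br 345 (.br 343 (.br 342 (.lf 537002306) (.lf 537004052)) (.br
    344 (.lf 537399553) (.lf 537427985))) (.br 347 (.br 346 (.lf 537464840) (.lf 537141505)) (.br 348 (.lf
    538968581) (.lf 538969184)))) (.br 353 (.br 351 (.br 350 (.lf 538984513) (.lf 537936001)) (.br 352 (.lf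
    538189952) (.lf 545268992))) (.br 355 (.br 354 (.lf 545341568) (.lf 541083664)) (.br 356 (.lf 541082656)
    (.lf 541196548)))))) (.br 373 (.br 365 (.br 361 (.br 359 (.br 358 (.lf 541131016) (.lf 541327904)) (.br
    360 (.lf 542146568) (.lf 268964098))) (.br 363 (.br 362 (.lf 268706305) (.lf 268702210)) (.br 364 (.lf
    270549058) (.lf 269516929)))) (.br 369 (.br 367 (.br 366 (.lf 269516866) (.lf 276857872)) (.br 368 (.lf
    276841504) (.lf 276890116))) (.br 371 (.br 370 (.lf 276889864) (.lf 272664592)) (.br 372 (.lf 272761348)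
    (.lf 285245600))))) (.br 381 (.br 377 (.br 375 (.br 374 (.lf 285868544) (.lf 287318018)) (.br 376 (.lf
    293603336) (.lf 335553032))) (.br 379 (.br 378 (.lf 336068738) (.lf 337676288)) (.br 380 (.lf 344064032)
    (.lf 610824)))) (.br 385 (.br 383 (.br 382 (.lf 2131296) (.lf 8521749)) (.br 384 (.lf 5513346) (.lf
    33642528))) (.br 387 (.br 386 (.lf 34086933) (.lf 34088256)) (.br 388 (.lf 34112020) (.br 389 (.lf
    34112800) (.lf 34099744))))))))) (.br 455 (.br 422 (.br 406 (.br 398 (.br 394 (.br 392 (.br 391 (.lf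
    34211860) (.lf 34211080)) (.br 393 (.lf 34150408) (.lf 35659921))) (.br 396 (.br 395 (.lf 35660896) (.lf
    35672224)) (.br 397 (.lf 34873504) (.lf 34898464)))) (.br 402 (.br 400 (.br 399 (.lf 41953297) (.lf
    41952322)) (.br 401 (.lf 42014722) (.lf 38021122))) (.br 404 (.br 403 (.lf 38144008) (.lf 39061536)) (.br
    405 (.lf 134350152) (.lf 134750341))))) (.br 414 (.br 410 (.br 408 (.br 407 (.lf 134750536) (.lf
    134811784)) (.br 409 (.lf 136315029) (.lf 136348180))) (.br 412 (.br 411 (.lf 136347976) (.lf 136448020))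
    (.br 413 (.lf 136447072) (.lf 136397320)))) (.br 418 (.br 416 (.br 415 (.lf 136398880) (.lf 136401024))
    (.br 417 (.lf 135536776) (.lf 135561736))) (.br 420 (.br 419 (.lf 142737541) (.lf 142738498)) (.br 421
    (.lf 142676098) (.lf 139591810)))))) (.br 438 (.br 430 (.br 426 (.br 424 (.br 423 (.lf 139593760) (.lf
    139853832)) (.br 425 (.lf 84418696) (.lf 84543496))) (.br 428 (.br 427 (.lf 85991584) (.lf 86116384)) (.br
    429 (.lf 536904213) (.lf 537403909)))) (.br 434 (.br 432 (.br 431 (.lf 537403714) (.lf 537416194)) (.br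
    433 (.lf 539000977) (.lf 539001154))) (.br 436 (.br 435 (.lf 538988674) (.lf 545260866)) (.br 437 (.lf
    545294353) (.lf 545293600))))) (.br 446 (.br 442 (.br 440 (.br 439 (.lf 545391109) (.lf 545391880)) (.br
    441 (.lf 545341960) (.lf 545343520))) (.br 444 (.br 443 (.lf 545345538) (.lf 541336066)) (.br 445 (.lf
    541458952) (.lf 542146690)))) (.br 450 (.br 448 (.br 447 (.lf 542148640) (.lf 542409216)) (.br 449 (.lf
    285745666) (.lf 285770272))) (.br 452 (.br 451 (.lf 293611522) (.lf 293636128)) (.br 453 (.lf 337674370)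
    (.br 454 (.lf 337674760) (.lf 344064130)))))))) (.br 488 (.br 471 (.br 463 (.br 459 (.br 457 (.br 456 (.lf
    344064520) (.lf 352329858)) (.br 458 (.lf 352846344) (.lf 354451488))) (.br 461 (.br 460 (.lf 360843264)
    (.lf 34087237)) (.br 462 (.lf 34088017) (.lf 34088212)))) (.br 467 (.br 465 (.br 464 (.lf 34887712) (.lf
    38082592)) (.br 466 (.lf 38881312) (.lf 136335505))) (.br 469 (.br 468 (.lf 136384645) (.lf 136396948))
    (.br 470 (.lf 135659848) (.lf 138806536))))) (.br 479 (.br 475 (.br 473 (.br 472 (.lf 139592776) (.lf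
    84480520)) (.br 474 (.lf 86017120) (.lf 85205122))) (.br 477 (.br 476 (.lf 92407828) (.lf 538214932)) (.br
    478 (.lf 545280322) (.lf 545330242)))) (.br 483 (.br 481 (.br 480 (.lf 545342722) (.lf 541360645)) (.br
    482 (.lf 542147089) (.lf 285757960))) (.br 485 (.br 484 (.lf 287343904) (.lf 293734417)) (.br 486 (.lf
    289677442) (.br 487 (.lf 336151048) (.lf 337674592))))))) (.br 504 (.br 496 (.br 492 (.br 490 (.br 489
    (.lf 344066053) (.lf 340795522)) (.br 491 (.lf 34161940) (.lf 34885984))) (.br 494 (.br 493 (.lf 38082565)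
    (.lf 38806609)) (.br 495 (.lf 136398100) (.lf 135549256)))) (.br 500 (.br 498 (.br 497 (.lf 138743941)
    (.lf 139592785)) (.br 499 (.lf 84481096) (.lf 86053984))) (.br 502 (.br 501 (.lf 85205140) (.lf 85230100))
    (.br 503 (.lf 85329940) (.lf 92345410))))) (.br 512 (.br 508 (.br 506 (.br 505 (.lf 538202434) (.lf
    545342740)) (.br 507 (.lf 541397509) (.lf 542147665))) (.br 510 (.br 509 (.lf 285757969) (.lf 287330449))
    (.br 511 (.lf 293623825) (.lf 289678594)))) (.br 516 (.br 514 (.br 513 (.lf 289703200) (.lf 289801480))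
    (.br 515 (.lf 336077125) (.lf 337674565))) (.br 518 (.br 517 (.lf 344064325) (.lf 340869250)) (.br 519
    (.lf 340869640) (.br 520 (.lf 340871200) (.lf 357913941)))))))))))

theorem pi_ok : ∀ i < 521, val5 (PI.get i) = true := by
  decide +kernel

/-- the kinds of clauses -/
inductive Ax
  | k5 (r0 r1 r2 r3 r4 a b c d e x : ℕ)
  | gt (k x : ℕ)
  | al (i j : ℕ)
  | hy (l : ℕ)
  | t6 (a b c x y z l1 l2 l3 l4 l5 l6 l7 l8 l9 : ℕ)

/-- the three matchings of the quadruple with number `r` -/
noncomputable def ckq (q : Tr) (N r a b c d : ℕ) : Bool :=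
  Nat.blt (3 * r + 2) N && (Nat.beq (q.get (3 * r)) (cd a b c d) &&
    (Nat.beq (q.get (3 * r + 1)) (cd a c b d) && Nat.beq (q.get (3 * r + 2)) (cd a d b c)))

/-- the global clause -/
def glo (c r0 r1 r2 r3 r4 : ℕ) : ℕ :=
  ((c &&& 63) <<< (6 * r0)) ||| ((((c >>> 6) &&& 63) <<< (6 * r1)) |||
    ((((c >>> 12) &&& 63) <<< (6 * r2)) ||| ((((c >>> 18) &&& 63) <<< (6 * r3)) |||
      (((c >>> 24) &&& 63) <<< (6 * r4)))))

/-- two codes of the same crossing -/
def same (c c' : ℕ) : Bool :=
  let a := c % 16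
  let b := c / 16 % 16
  let x := c / 256 % 16
  let d := c / 4096 % 16
  Nat.beq c' (cd a b x d) || (Nat.beq c' (cd b a x d) || (Nat.beq c' (cd a b d x) ||
    (Nat.beq c' (cd b a d x) || (Nat.beq c' (cd x d a b) || (Nat.beq c' (cd d x a b) ||
      (Nat.beq c' (cd x d b a) || Nat.beq c' (cd d x b a)))))))

/-- the clauses of a gate with output `o` and inputs `a`, `b` -/
def gcl (t o a b x : ℕ) : ℕ :=
  bif Nat.beq t 0 then
    bif Nat.beq x 0 then (1 <<< (o ^^^ 1)) ||| ((1 <<< a) ||| (1 <<< b)) else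
    bif Nat.beq x 1 then (1 <<< (o ^^^ 1)) ||| ((1 <<< (a ^^^ 1)) ||| (1 <<< (b ^^^ 1))) else
    bif Nat.beq x 2 then (1 <<< o) ||| ((1 <<< (a ^^^ 1)) ||| (1 <<< b)) else
    (1 <<< o) ||| ((1 <<< a) ||| (1 <<< (b ^^^ 1)))
  else bif Nat.beq t 1 then
    bif Nat.beq x 0 then (1 <<< (o ^^^ 1)) ||| (1 <<< a) else
    bif Nat.beq x 1 then (1 <<< (o ^^^ 1)) ||| (1 <<< b) else
    (1 <<< o) ||| ((1 <<< (a ^^^ 1)) ||| (1 <<< (b ^^^ 1)))
  else
    bif Nat.beq x 0 then (1 <<< o) ||| (1 <<< (a ^^^ 1)) else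
    bif Nat.beq x 1 then (1 <<< o) ||| (1 <<< (b ^^^ 1)) else
    (1 <<< (o ^^^ 1)) ||| ((1 <<< a) ||| (1 <<< b))

/-- the literal `l` belongs to the crossing `ab`, `cd` -/
noncomputable def ckl (q : Tr) (N l a b c d : ℕ) : Bool :=
  Nat.blt (l / 2) N && same (q.get (l / 2)) (cd a b c d)

/-- mask of a list of literals -/
def orm : List ℕ → ℕ
  | [] => 0
  | l :: ls => (1 <<< l) ||| orm ls

/-- parity of the number of negative literals -/
def par : List ℕ → Bool
  | [] => false
  | l :: ls => Nat.beq (l % 2) 1 ^^ par ls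

/-- the points are different and less than `n` -/
def ck6 (n a b c x y z : ℕ) : Bool :=
  (Nat.blt a b && (Nat.blt b c && (Nat.blt x y && (Nat.blt y z && (Nat.blt c n && Nat.blt z n))))) &&
  ((!Nat.beq a x && (!Nat.beq a y && !Nat.beq a z)) && ((!Nat.beq b x && (!Nat.beq b y && !Nat.beq b z)) &&
    (!Nat.beq c x && (!Nat.beq c y && !Nat.beq c z))))

/-- check of one axiom clause `m` -/
noncomputable def ckax (q : Tr) (N n : ℕ) (gs : List (ℕ × ℕ × ℕ)) (hl : List ℕ) (A : Ax) (m : ℕ) : Bool :=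
  Ax.rec
    (fun r0 r1 r2 r3 r4 a b c d e x =>
      (Nat.blt a b && (Nat.blt b c && (Nat.blt c d && (Nat.blt d e && (Nat.blt e n && Nat.blt x 521))))) &&
      ((ckq q N r0 a b c d && (ckq q N r1 a b c e && (ckq q N r2 a b d e && (ckq q N r3 a c d e &&
        ckq q N r4 b c d e)))) && Nat.beq m (glo (PI.get x) r0 r1 r2 r3 r4)))
    (fun k x => match gs[k]? with
      | none => false
      | some g => Nat.blt (g.2.1 / 2) (N + k) && (Nat.blt (g.2.2 / 2) (N + k) &&
        Nat.beq m (gcl g.1 (2 * (N + k)) g.2.1 g.2.2 x)))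
    (fun i j => Nat.blt i N && (Nat.blt j N && (same (q.get i) (q.get j) &&
      Nat.beq m ((1 <<< (2 * i + 1)) ||| (1 <<< (2 * j))))))
    (fun l => hl.contains l && Nat.beq m (1 <<< l))
    (fun a b c x y z l1 l2 l3 l4 l5 l6 l7 l8 l9 =>
      ck6 n a b c x y z && (((ckl q N l1 x y a b && (ckl q N l2 x y b c && ckl q N l3 x y c a)) &&
      ((ckl q N l4 y z a b && (ckl q N l5 y z b c && ckl q N l6 y z c a)) &&
      (ckl q N l7 z x a b && (ckl q N l8 z x b c && ckl q N l9 z x c a)))) &&
      (par [l1, l2, l3, l4, l5, l6, l7, l8, l9] && Nat.beq m (orm [l1, l2, l3, l4, l5, l6, l7, l8, l9])))) A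

/-- check of all axiom clauses -/
noncomputable def ckaxs (q : Tr) (N n : ℕ) (gs : List (ℕ × ℕ × ℕ)) (hl : List ℕ) (t : Tr) (As : List Ax) :
    ℕ → Bool :=
  List.rec (fun _ => true) (fun A _ ih i =>
    Bool.rec false (fo (i + 1) ih) (fo (t.get i) fun m => ckax q N n gs hl A m)) As

/-- the complete check -/
noncomputable def check (q : Tr) (N n : ℕ) (gs : List (ℕ × ℕ × ℕ)) (hl : List ℕ) (t : Tr) (As : List Ax)
    (pf : List (List ℕ)) (last : List ℕ) : Bool :=
  Nat.ble n 16 && (ckaxs q N n gs hl t As 0 && (run t pf As.length &&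
    rup t (As.length + pf.length) last 0))

/-- pieces of the global clause -/
theorem glo_test {c r0 r1 r2 r3 r4 l : ℕ} (hl : l < 30) (h : c.testBit l = true) :
    (glo c r0 r1 r2 r3 r4).testBit
      (6 * (if l < 6 then r0 else if l < 12 then r1 else if l < 18 then r2 else if l < 24 then r3 else r4) +
        l % 6) = true := by
  have key : ∀ s r : ℕ, s ≤ l → l < s + 6 → l % 6 = l - s →
      (((c >>> s) &&& 63) <<< (6 * r)).testBit (6 * r + l % 6) = true := by
    intro s r h1 h2 h3
    rw [Nat.testBit_shiftLeft, Nat.testBit_and, Nat.testBit_shiftRight]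
    have e1 : 6 * r + l % 6 - 6 * r = l % 6 := by omega
    have e2 : s + l % 6 = l := by omega
    have e3 : Nat.testBit 63 (l % 6) = true := by
      have h4 : l % 6 < 6 := Nat.mod_lt _ (by omega)
      generalize l % 6 = k at h4
      interval_cases k <;> rfl
    rw [e1, e2, h, e3]
    simp
  unfold glo
  simp only [Nat.testBit_or, Bool.or_eq_true]
  split_ifs with h1 h2 h3 h4
  · left
    have := key 0 r0 (by omega) (by omega) (by omega)
    simpa using this
  · right; left
    exact key 6 r1 (by omega) (by omega) (by omega)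
  · right; right; left
    exact key 12 r2 (by omega) (by omega) (by omega)
  · right; right; right; left
    exact key 18 r3 (by omega) (by omega) (by omega)
  · right; right; right; right
    exact key 24 r4 (by omega) (by omega) (by omega)

theorem ckq_sound {T : PT V} {p : ℕ → V} {q : Tr} {N : ℕ} {gs : List (ℕ × ℕ × ℕ)} {r a b c d : ℕ}
    (h : ckq q N r a b c d = true) (ha : a < 16) (hb : b < 16) (hc : c < 16) (hd : d < 16) :
    val T p q N gs (3 * r) = T.X (p a) (p b) (p c) (p d) ∧
    val T p q N gs (3 * r + 1) = T.X (p a) (p c) (p b) (p d) ∧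
    val T p q N gs (3 * r + 2) = T.X (p a) (p d) (p b) (p c) := by
  unfold ckq at h
  rw [Bool.and_eq_true, Bool.and_eq_true, Bool.and_eq_true, Nat.blt_eq] at h
  obtain ⟨h1, h2, h3, h4⟩ := h
  rw [val_lt (by omega), val_lt (by omega), val_lt h1, Nat.eq_of_beq_eq_true h2,
    Nat.eq_of_beq_eq_true h3, Nat.eq_of_beq_eq_true h4]
  exact ⟨cX_cd T p ha hb hc hd, cX_cd T p ha hc hb hd, cX_cd T p ha hd hb hc⟩

theorem same_sound {T : PT V} {p : ℕ → V} {c c' : ℕ} (h : same c c' = true) :
    cX T p c = cX T p c' := by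
  unfold same at h
  have ha : c % 16 < 16 := Nat.mod_lt _ (by omega)
  have hb : c / 16 % 16 < 16 := Nat.mod_lt _ (by omega)
  have hx : c / 256 % 16 < 16 := Nat.mod_lt _ (by omega)
  have hd : c / 4096 % 16 < 16 := Nat.mod_lt _ (by omega)
  have e : cX T p c = T.X (p (c % 16)) (p (c / 16 % 16)) (p (c / 256 % 16)) (p (c / 4096 % 16)) := rfl
  rw [e]
  generalize c % 16 = a at *
  generalize c / 16 % 16 = b at *
  generalize c / 256 % 16 = x at *
  generalize c / 4096 % 16 = d at *
  simp only [Bool.or_eq_true] at h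
  rcases h with h | h | h | h | h | h | h | h <;> rw [Nat.eq_of_beq_eq_true h]
  · rw [cX_cd T p ha hb hx hd]
  · rw [cX_cd T p hb ha hx hd]; exact T.xs1 _ _ _ _
  · rw [cX_cd T p ha hb hd hx]; exact T.xs2 _ _ _ _
  · rw [cX_cd T p hb ha hd hx]; exact T.xs3 _ _ _ _
  · rw [cX_cd T p hx hd ha hb]; exact T.xs4 _ _ _ _
  · rw [cX_cd T p hd hx ha hb]; exact T.xs5 _ _ _ _
  · rw [cX_cd T p hx hd hb ha]; exact T.xs6 _ _ _ _
  · rw [cX_cd T p hd hx hb ha]; exact T.xs7 _ _ _ _

theorem sat_or {v : ℕ → Bool} {c d : ℕ} (h : Sat v c ∨ Sat v d) : Sat v (c ||| d) := by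
  rcases h with ⟨l, h1, h2⟩ | ⟨l, h1, h2⟩
  · exact ⟨l, by rw [Nat.testBit_or, h1, Bool.true_or], h2⟩
  · exact ⟨l, by rw [Nat.testBit_or, h1, Bool.or_true], h2⟩

theorem sat_one {v : ℕ → Bool} {l : ℕ} (h : lit v l = true) : Sat v (1 <<< l) :=
  ⟨l, by rw [Nat.one_shiftLeft, Nat.testBit_two_pow]; simp, h⟩

theorem gcl_sound {v : ℕ → Bool} {t o a b : ℕ} (h : lit v o = op t (lit v a) (lit v b)) (x : ℕ) :
    Sat v (gcl t o a b x) := by
  have na := lit_neg v a
  have nb := lit_neg v b
  have no := lit_neg v o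
  unfold gcl
  unfold op at h
  cases ht : Nat.beq t 0 with
  | true =>
    rw [ht] at h
    simp only [cond_true] at h ⊢
    cases hx0 : Nat.beq x 0 <;> cases hx1 : Nat.beq x 1 <;> cases hx2 : Nat.beq x 2 <;>
    cases ha : lit v a <;> cases hb : lit v b <;>
    (rw [ha, hb] at h
     rw [h] at no
     rw [ha] at na
     rw [hb] at nb
     simp only [cond_true, cond_false]
     first
     | exact sat_or (Or.inl (sat_one (by first | exact no | exact h)))
     | exact sat_or (Or.inr (sat_or (Or.inl (sat_one (by first | exact na | exact ha)))))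
     | exact sat_or (Or.inr (sat_or (Or.inr (sat_one (by first | exact nb | exact hb))))))
  | false =>
    rw [ht] at h
    simp only [cond_false] at h ⊢
    cases ht1 : Nat.beq t 1
    · rw [ht1] at h
      simp only [cond_false] at h ⊢
      cases hx0 : Nat.beq x 0 <;> cases hx1 : Nat.beq x 1 <;>
      cases ha : lit v a <;> cases hb : lit v b <;>
      (rw [ha, hb] at h
       rw [h] at no
       rw [ha] at na
       rw [hb] at nb
       simp only [cond_true, cond_false]
       first
       | exact sat_or (Or.inl (sat_one (by first | exact no | exact h)))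
       | exact sat_or (Or.inr (sat_one (by first | exact ha | exact hb | exact na | exact nb)))
       | exact sat_or (Or.inr (sat_or (Or.inl (sat_one (by first | exact na | exact ha)))))
       | exact sat_or (Or.inr (sat_or (Or.inr (sat_one (by first | exact nb | exact hb))))))
    · rw [ht1] at h
      simp only [cond_true] at h ⊢
      cases hx0 : Nat.beq x 0 <;> cases hx1 : Nat.beq x 1 <;>
      cases ha : lit v a <;> cases hb : lit v b <;>
      (rw [ha, hb] at h
       rw [h] at no
       rw [ha] at na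
       rw [hb] at nb
       simp only [cond_true, cond_false]
       first
       | exact sat_or (Or.inl (sat_one (by first | exact no | exact h)))
       | exact sat_or (Or.inr (sat_one (by first | exact ha | exact hb | exact na | exact nb)))
       | exact sat_or (Or.inr (sat_or (Or.inl (sat_one (by first | exact na | exact ha)))))
       | exact sat_or (Or.inr (sat_or (Or.inr (sat_one (by first | exact nb | exact hb))))))

end H30P
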