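import Pool.Agent.Lib.H30P.Il
import Pool.Agent.Lib.H36L.L2

/-!
# H30P, file Cor: polygons with an empty side, (COR)

`Sees T`: two free rays (V2), stated for tables.
-/

set_option autoImplicit false

namespace H30P

open H53P Finset

variable {V : Type*} [Fintype V] [DecidableEq V] {T : Table V} {c : ℕ → V} {n : ℕ}

/-- two free rays at every vertex of every vertex set, `cross` describes the crossings of `T` -/
structure Sees (T : Table V) (cross : Sym2 V → Sym2 V → Prop) : Prop where
  iff : ∀ a b c d, cross s(a, b) s(c, d) ↔ T.X a b c d = true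
  v2 : ∀ W : Finset V, 3 ≤ W.card → ∀ p ∈ W, H98Z.V2 cross W p

theorem Sees.symm {cross : Sym2 V → Sym2 V → Prop} (h : Sees T cross) (e f : Sym2 V) (h1 : cross e f) :
    cross f e := by
  induction e with
  | _ a b =>
    induction f with
    | _ c d =>
      rw [h.iff] at h1 ⊢
      rw [T.xs4]
      exact h1

theorem Sees.adj {cross : Sym2 V → Sym2 V → Prop} (h : Sees T cross) (a b c : V) :
    ¬ cross s(a, b) s(a, c) := by
  rw [h.iff]
  intro h1
  exact (T.ne _ _ _ _ h1).2.2.1 rfl

theorem Sees.irr {cross : Sym2 V → Sym2 V → Prop} (h : Sees T cross) (e : Sym2 V) : ¬ cross e e := by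
  induction e with
  | _ a b => exact h.adj a b b

theorem X_adj1 (T : Table V) (a b d : V) : T.X a b a d = false := by
  cases h : T.X a b a d with
  | false => rfl
  | true => exact absurd rfl (T.ne _ _ _ _ h).2.2.1

theorem X_adj2 (T : Table V) (a b d : V) : T.X a b d a = false := by
  rw [T.xs2, X_adj1]

theorem X_adj3 (T : Table V) (a b d : V) : T.X a b b d = false := by
  rw [T.xs1, X_adj1]

theorem X_adj4 (T : Table V) (a b d : V) : T.X a b d b = false := by
  rw [T.xs1, X_adj2]

theorem x4_one {a b d e : V} (h : x4 T a b d e = 1) : T.X a b d e = true := by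
  unfold x4 at h
  cases h1 : T.X a b d e with
  | true => rfl
  | false =>
    rw [h1] at h
    exact absurd h (by decide)

theorem z2_ne {a b : ZMod 2} (h : a ≠ b) : a = b + 1 := by
  revert a b
  decide

/-- the vertex set -/
def vs (c : ℕ → V) (n : ℕ) : Finset V := (range n).image c

theorem mem_vs (h : Per c n) {x : V} : x ∈ vs c n ↔ ∃ k, x = c k := by
  have hn := h.three
  unfold vs
  rw [mem_image]
  constructor
  · rintro ⟨k, _, rfl⟩
    exact ⟨k, rfl⟩
  · rintro ⟨k, rfl⟩
    exact ⟨k % n, mem_range.2 (Nat.mod_lt _ (by omega)), h.mod k⟩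

theorem card_vs (h : Per c n) : (vs c n).card = n := by
  unfold vs
  rw [card_image_of_injOn, card_range]
  intro i hi j hj
  exact h.inj i (mem_range.1 hi) j (mem_range.1 hj)

theorem Unc.symm {x y : V} (h : Unc T c x y) : Unc T c y x := fun k => by rw [T.xs1]; exact h k

/-- two uncrossed interleaving chords on the same side cross -/
theorem inter (h : Pg T c n) {w : V} {q : ZMod 2} (hw : ∀ k, c k ≠ w) (hQ : Emp T c n w q) {i j k l : ℕ}
    (ij : i < j) (jk : j < k) (kl : k < l) (li : l < i + n) (h1 : Unc T c (c i) (c k))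
    (h2 : Unc T c (c j) (c l)) : T.X (c i) (c k) (c j) (c l) = true := by
  have a1 := hQ i k (by omega) (by omega) h1
  have a2 := hQ j l (by omega) (by omega) h2
  have a3 := il h hw (i := i) (m := k - i + 1) (k := j) (l := l) (by omega) (by omega)
    (by rw [show i + (k - i + 1) - 1 = k by omega]; exact h1) ij (by omega) (by omega) li
    (fun t _ _ => h2 t)
  rw [show i + (k - i + 1) - 1 = k by omega, z2_ne a1, z2_ne a2] at a3
  have a4 : x4 T (c j) (c l) (c k) (c i) = 1 := by
    rw [a3]
    have := two_z (q + 1)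
    linear_combination this
  rw [T.xs6]
  exact x4_one a4

/-- the edge set of a plane polygon is plane -/
theorem pe_plane (h : Pg T c n) {cross : Sym2 V → Sym2 V → Prop} (hS : Sees T cross) :
    H98P.Plane cross (pe c n) := by
  intro e he f hf
  obtain ⟨i, rfl⟩ := h.toPer.mem_pe.1 he
  obtain ⟨j, rfl⟩ := h.toPer.mem_pe.1 hf
  rw [hS.iff, h.plane]
  simp

theorem pe_sub (h : Per c n) : pe c n ⊆ H98P.LW (vs c n) := by
  intro e he
  obtain ⟨i, rfl⟩ := h.mem_pe.1 he
  rw [H98Z.mem_LW]
  exact ⟨(mem_vs h).2 ⟨_, rfl⟩, (mem_vs h).2 ⟨_, rfl⟩, h.ne_succ i⟩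

/-- every vertex as `c t` with `t` in a given period -/
theorem rep (h : Per c n) {x : V} (hx : x ∈ vs c n) (s : ℕ) : ∃ t, s ≤ t ∧ t < s + n ∧ x = c t := by
  have hn := h.three
  obtain ⟨k, rfl⟩ := (mem_vs h).1 hx
  have h1 : (k + n * s - s) % n < n := Nat.mod_lt _ (by omega)
  have h2 : s ≤ k + n * s := by nlinarith
  refine ⟨s + (k + n * s - s) % n, by omega, by omega, ?_⟩
  rw [h.eq_iff]
  have h3 : (s + (k + n * s - s) % n) % n = (s + (k + n * s - s)) % n := (Nat.mod_modEq _ n).add_left s
  rw [h3, show s + (k + n * s - s) = k + n * s by omega, Nat.add_mul_mod_self_left]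

/-- (EX) a polygon with an empty side has a short diagonal -/
theorem short (h : Pg T c n) {cross : Sym2 V → Sym2 V → Prop} (hS : Sees T cross) {w : V} {q : ZMod 2}
    (hw : ∀ k, c k ≠ w) (hQ : Emp T c n w q) (h4 : 4 ≤ n) : ∃ j, Unc T c (c j) (c (j + 2)) := by
  classical
  have hP := h.toPer
  obtain ⟨R, hR1, hR2⟩ := H36L.exists_maxP hS.symm hS.irr (pe_sub hP) (pe_plane h hS)
  have two := fun (x y u v : V) => H36L.two_two (x := x) (y := y) (u := u) (v := v) hS.symm hS.adj hR2
    (by rw [card_vs hP]; exact h4) (fun W' _ h3 p hp => hS.v2 W' h3 p hp)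
  -- chords of `R` are uncrossed
  have unc : ∀ a b : V, s(a, b) ∈ R → Unc T c a b := by
    intro a b hab k
    have h5 := hR2.2.1 _ hab _ (hR1 (hP.mem_pe.2 ⟨k, rfl⟩))
    rw [hS.iff] at h5
    simpa using h5
  have vsR : ∀ a b : V, s(a, b) ∈ R → a ≠ b ∧ b ∈ vs c n := by
    intro a b hab
    have := H98Z.mem_LW.1 (hR2.1 hab)
    exact ⟨this.2.2, this.2.1⟩
  have edge : ∀ k, s(c k, c (k + 1)) ∈ R := fun k => hR1 (hP.mem_pe.2 ⟨k, rfl⟩)
  by_contra hno
  push Not at hno
  -- a chord with smallest gap
  have hex : ∃ g, ∃ i, 2 ≤ g ∧ g + 2 ≤ n ∧ s(c i, c (i + g)) ∈ R := by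
    by_contra hn
    push Not at hn
    refine two (c 0) (c 1) (c (n - 1)) (c 2) (edge 0) ?_ ?_
    · intro z hz
      obtain ⟨t, t1, t2, rfl⟩ := rep hP (vsR _ _ hz).2 1
      by_cases ht : t = 1
      · left; rw [ht]
      · by_cases ht2 : t = n - 1
        · right; rw [ht2]
        · by_cases ht3 : t = n
          · rw [ht3] at hz
            have := hP.per 0
            rw [Nat.zero_add] at this
            exact absurd this.symm (vsR _ _ hz).1
          · exact absurd (by rw [Nat.zero_add]; exact hz) (hn t 0 (by omega) (by omega))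
    · intro z hz
      obtain ⟨t, t1, t2, rfl⟩ := rep hP (vsR _ _ hz).2 2
      by_cases ht : t = n
      · left
        rw [ht]
        have := hP.per 0
        rw [Nat.zero_add] at this
        exact this
      · by_cases ht2 : t = 2
        · right; rw [ht2]
        · by_cases ht3 : t = n + 1
          · rw [ht3] at hz
            have := hP.per 1
            rw [Nat.add_comm] at this
            exact absurd this.symm (vsR _ _ hz).1
          · exact absurd (by rw [show 1 + (t - 1) = t by omega]; exact hz) (hn (t - 1) 1 (by omega) (by omega))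
  have hmin := Nat.find_spec hex
  obtain ⟨i, g2, gn, hi⟩ := hmin
  have hless : ∀ g' i', g' < Nat.find hex → 2 ≤ g' → g' + 2 ≤ n → s(c i', c (i' + g')) ∉ R := by
    intro g' i' h5 h6 h7 h8
    exact Nat.find_min hex h5 ⟨i', h6, h7, h8⟩
  generalize Nat.find hex = g at *
  have g3 : 3 ≤ g := by
    rcases Nat.lt_or_ge g 3 with h5 | h5
    · have h6 : g = 2 := by omega
      rw [h6] at hi
      exact absurd (unc _ _ hi) (hno i)
    · exact h5
  have pl : ∀ a b x y : V, s(a, b) ∈ R → s(x, y) ∈ R → T.X a b x y = true → False := by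
    intro a b x y h5 h6 h7
    have h8 := hR2.2.1 _ h5 _ h6
    rw [hS.iff] at h8
    exact h8 h7
  refine two (c (i + 1)) (c (i + 2)) (c i) (c (i + 3)) (edge (i + 1)) ?_ ?_
  · intro z hz
    obtain ⟨t, t1, t2, rfl⟩ := rep hP (vsR _ _ hz).2 (i + 2)
    by_cases ht : t = i + 2
    · left; rw [ht]
    by_cases ht2 : t = i + n
    · right; rw [ht2, hP.per]
    by_cases ht3 : t = i + 1 + n
    · rw [ht3, hP.per] at hz
      exact absurd rfl (vsR _ _ hz).1
    exfalso
    rcases Nat.lt_or_ge (i + g) t with h5 | h5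
    · exact pl _ _ _ _ hi hz (inter h hw hQ (by omega : i < i + 1) (by omega) h5 (by omega)
        (unc _ _ hi) (unc _ _ hz))
    · exact hless (t - (i + 1)) (i + 1) (by omega) (by omega) (by omega)
        (by rw [show i + 1 + (t - (i + 1)) = t by omega]; exact hz)
  · intro z hz
    obtain ⟨t, t1, t2, rfl⟩ := rep hP (vsR _ _ hz).2 (i + 3)
    by_cases ht : t = i + 1 + n
    · left; rw [ht, hP.per]
    by_cases ht2 : t = i + 3
    · right; rw [ht2]
    by_cases ht3 : t = i + 2 + n
    · rw [ht3, hP.per] at hz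
      exact absurd rfl (vsR _ _ hz).1
    exfalso
    by_cases ht4 : t = i + n
    · rw [ht4, hP.per, Sym2.eq_swap] at hz
      exact hno i (unc _ _ hz)
    rcases Nat.lt_or_ge (i + g) t with h5 | h5
    · exact pl _ _ _ _ hi hz (inter h hw hQ (by omega : i < i + 2) (by omega) h5 (by omega)
        (unc _ _ hi) (unc _ _ hz))
    · exact hless (t - (i + 2)) (i + 2) (by omega) (by omega) (by omega)
        (by rw [show i + 2 + (t - (i + 2)) = t by omega]; exact hz)

end H30P
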