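import Pool.Agent.Lib.H30P.Cor

/-!
# H30P, file Cor2: (COR) cutting off a short diagonal leaves an empty side
-/

set_option autoImplicit false

namespace H30P

open H53P Finset

variable {V : Type*} [Fintype V] [DecidableEq V] {T : Table V} {c : ℕ → V} {n : ℕ}

theorem cor0 (h : Pg T c n) {cross : Sym2 V → Sym2 V → Prop} (hS : Sees T cross) {w : V} {q : ZMod 2}
    (hw : ∀ k, c k ≠ w) (hQ : Emp T c n w q) (h5 : 5 ≤ n) (hh : Unc T c (c 1) (c (n - 1))) {k l : ℕ}
    (k2 : 2 ≤ k) (kn : k + 2 ≤ n) (l1 : 1 ≤ l) (ln : l + 1 ≤ n) (hkl : l + 2 ≤ k ∨ k + 2 ≤ l)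
    (hf : ∀ t, 1 ≤ t → t + 1 < n → T.X (c k) (c l) (c t) (c (t + 1)) = false)
    (hfh : T.X (c k) (c l) (c 1) (c (n - 1)) = false) : pfl T c n w k (c l) ≠ q := by
  classical
  intro hq
  have hP := h.toPer
  have c0n : c n = c 0 := by
    have := hP.per 0
    rwa [Nat.zero_add] at this
  -- `f` is crossed by an edge at `c 0`
  have hcr : T.X (c k) (c l) (c 0) (c 1) = true ∨ T.X (c k) (c l) (c (n - 1)) (c 0) = true := by
    by_contra hno
    rw [not_or, Bool.not_eq_true, Bool.not_eq_true] at hno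
    have hu : Unc T c (c k) (c l) := by
      intro t
      obtain ⟨s, hs, e1⟩ : ∃ s, s < n ∧ s % n = t % n := ⟨t % n, Nat.mod_lt _ (by omega), Nat.mod_mod _ _⟩
      have e2 : c t = c s := (hP.eq_iff.2 e1).symm
      have e3 : c (t + 1) = c (s + 1) := hP.eq_iff.2 (Nat.ModEq.add_right 1 e1.symm)
      rw [e2, e3]
      by_cases s0 : s = 0
      · rw [s0]; exact hno.1
      · by_cases s1 : s = n - 1
        · rw [s1, show n - 1 + 1 = n by omega, c0n]; exact hno.2
        · exact hf s (by omega) (by omega)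
    rcases hkl with h6 | h6
    · have := hQ k (l + n) (by omega) (by omega) (by rw [hP.per]; exact hu)
      rw [hP.per] at this
      exact this hq
    · exact hQ k l (by omega) (by omega) hu hq
  -- the plane set
  obtain ⟨F, hF⟩ : ∃ F : Finset (Sym2 V), F = ((Ico 1 (n - 1)).image fun t => s(c t, c (t + 1))) ∪
    {s(c 1, c (n - 1)), s(c k, c l)} := ⟨_, rfl⟩
  have memF : ∀ e, e ∈ F ↔ (∃ t, 1 ≤ t ∧ t < n - 1 ∧ e = s(c t, c (t + 1))) ∨ e = s(c 1, c (n - 1)) ∨
      e = s(c k, c l) := by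
    intro e
    rw [hF, mem_union, mem_image, mem_insert, mem_singleton]
    constructor
    · rintro (⟨t, ht, rfl⟩ | h6)
      · rw [mem_Ico] at ht
        exact Or.inl ⟨t, ht.1, ht.2, rfl⟩
      · exact Or.inr h6
    · rintro (⟨t, h7, h8, rfl⟩ | h6)
      · exact Or.inl ⟨t, mem_Ico.2 ⟨h7, h8⟩, rfl⟩
      · exact Or.inr h6
  have in_er : ∀ t, 1 ≤ t → t < n → c t ∈ (vs c n).erase (c 0) := by
    intro t t1 t2
    rw [mem_erase]
    exact ⟨(hP.ne_of (by omega) (by omega)).symm, (mem_vs hP).2 ⟨t, rfl⟩⟩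
  have nkl : c k ≠ c l := by
    rcases hkl with h6 | h6
    · exact (hP.ne_of (by omega) (by omega)).symm
    · exact hP.ne_of (by omega) (by omega)
  have sub : F ⊆ H98P.LW ((vs c n).erase (c 0)) := by
    intro e he
    rcases (memF e).1 he with ⟨t, t1, t2, rfl⟩ | rfl | rfl
    · rw [H98Z.mem_LW]
      exact ⟨in_er t t1 (by omega), in_er (t + 1) (by omega) (by omega), hP.ne_succ t⟩
    · rw [H98Z.mem_LW]
      exact ⟨in_er 1 le_rfl (by omega), in_er (n - 1) (by omega) (by omega),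
        hP.ne_of (by omega) (by omega)⟩
    · rw [H98Z.mem_LW]
      exact ⟨in_er k (by omega) (by omega), in_er l (by omega) (by omega), nkl⟩
  have plane : H98P.Plane cross F := by
    have pp : ∀ t s, ¬ cross s(c t, c (t + 1)) s(c s, c (s + 1)) := by
      intro t s
      rw [hS.iff, h.plane]
      simp
    have ph : ∀ t, ¬ cross s(c 1, c (n - 1)) s(c t, c (t + 1)) := by
      intro t
      rw [hS.iff, hh t]
      simp
    have pf : ∀ t, 1 ≤ t → t < n - 1 → ¬ cross s(c k, c l) s(c t, c (t + 1)) := by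
      intro t t1 t2
      rw [hS.iff, hf t t1 (by omega)]
      simp
    have fh : ¬ cross s(c k, c l) s(c 1, c (n - 1)) := by
      rw [hS.iff, hfh]
      simp
    intro e he f hf'
    rcases (memF e).1 he with ⟨t, t1, t2, rfl⟩ | rfl | rfl <;>
    rcases (memF f).1 hf' with ⟨s, s1, s2, rfl⟩ | rfl | rfl
    · exact pp t s
    · exact fun h6 => ph t (hS.symm _ _ h6)
    · exact fun h6 => pf t t1 t2 (hS.symm _ _ h6)
    · exact ph s
    · exact hS.irr _
    · exact fun h6 => fh (hS.symm _ _ h6)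
    · exact pf s s1 s2
    · exact fh
    · exact hS.irr _
  obtain ⟨z, hz, z', hz', hne, v1, v2⟩ := hS.v2 (vs c n) (by rw [card_vs hP]; omega) (c 0)
    ((mem_vs hP).2 ⟨0, rfl⟩) F sub plane
  have key : ∀ z ∈ (vs c n).erase (c 0), (∀ f ∈ F, ¬ cross s(c 0, z) f) → z = c 1 ∨ z = c (n - 1) := by
    intro z hz hv
    rw [mem_erase] at hz
    obtain ⟨s, s1, s2, rfl⟩ := rep hP hz.2 1
    by_cases e1 : s = 1
    · left; rw [e1]
    by_cases e2 : s = n - 1
    · right; rw [e2]
    by_cases e3 : s = n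
    · rw [e3, c0n] at hz
      exact absurd rfl hz.1
    exfalso
    have hu : Unc T c (c 0) (c s) := by
      intro t
      obtain ⟨r, hr, e4⟩ : ∃ r, r < n ∧ r % n = t % n := ⟨t % n, Nat.mod_lt _ (by omega), Nat.mod_mod _ _⟩
      have e5 : c t = c r := (hP.eq_iff.2 e4).symm
      have e6 : c (t + 1) = c (r + 1) := hP.eq_iff.2 (Nat.ModEq.add_right 1 e4.symm)
      rw [e5, e6]
      by_cases r0 : r = 0
      · rw [r0]; exact X_adj1 T _ _ _
      · by_cases r1 : r = n - 1
        · rw [r1, show n - 1 + 1 = n by omega, c0n]; exact X_adj2 T _ _ _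
        · have := hv _ ((memF _).2 (Or.inl ⟨r, by omega, by omega, rfl⟩))
          rw [hS.iff] at this
          simpa using this
    have h6 := inter h hw hQ (i := 1) (j := s) (k := n - 1) (l := n) (by omega) (by omega) (by omega)
      (by omega) hh (by rw [c0n]; exact hu.symm)
    have h7 := hv _ ((memF _).2 (Or.inr (Or.inl rfl)))
    rw [hS.iff] at h7
    rw [c0n, T.xs5] at h6
    exact h7 h6
  have g1 : ∀ z, (∀ f ∈ F, ¬ cross s(c 0, z) f) → T.X (c k) (c l) (c 0) z = false := by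
    intro z hv
    have := hv _ ((memF _).2 (Or.inr (Or.inr rfl)))
    rw [hS.iff, T.xs4] at this
    simpa using this
  have k1 := key z hz v1
  have k3 := key z' hz' v2
  have both : T.X (c k) (c l) (c 0) (c 1) = false ∧ T.X (c k) (c l) (c 0) (c (n - 1)) = false := by
    rcases k1 with rfl | rfl <;> rcases k3 with h6 | h6
    · exact absurd h6.symm hne
    · subst h6
      exact ⟨g1 _ v1, g1 _ v2⟩
    · subst h6
      exact ⟨g1 _ v2, g1 _ v1⟩
    · exact absurd h6.symm hne
  rcases hcr with h6 | h6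
  · rw [both.1] at h6
    cases h6
  · rw [T.xs2, both.2] at h6
    cases h6

/-- the polygon without `c 0` -/
theorem sub_pg (h : Pg T c n) (h5 : 4 ≤ n) (hh : Unc T c (c 1) (c (n - 1))) :
    Pg T (sub c 1 (n - 1)) (n - 1) := by
  have hP := h.toPer
  have hS := sub_per hP (by omega : 3 ≤ n - 1) (by omega : n - 1 ≤ n) (i := 1)
  refine ⟨hS, ?_⟩
  -- every edge is a path edge or the chord
  have key : ∀ i, (∃ t, sub c 1 (n - 1) i = c t ∧ sub c 1 (n - 1) (i + 1) = c (t + 1)) ∨
      (sub c 1 (n - 1) i = c (n - 1) ∧ sub c 1 (n - 1) (i + 1) = c 1) := by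
    intro i
    have e1 : i % (n - 1) < n - 1 := Nat.mod_lt _ (by omega)
    have e2 : (i + 1) % (n - 1) = (i % (n - 1) + 1) % (n - 1) := ((Nat.mod_modEq i (n - 1)).add_right 1).symm
    unfold sub
    rw [e2]
    by_cases e3 : i % (n - 1) + 1 = n - 1
    · right
      rw [e3, Nat.mod_self]
      exact ⟨by rw [show 1 + i % (n - 1) = n - 1 by omega], rfl⟩
    · left
      rw [Nat.mod_eq_of_lt (by omega : i % (n - 1) + 1 < n - 1)]
      exact ⟨1 + i % (n - 1), rfl, by rw [show 1 + (i % (n - 1) + 1) = 1 + i % (n - 1) + 1 by ring]⟩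
  intro i j
  rcases key i with ⟨t, a1, a2⟩ | ⟨a1, a2⟩ <;> rcases key j with ⟨s, b1, b2⟩ | ⟨b1, b2⟩ <;>
    rw [a1, a2, b1, b2]
  · exact h.plane t s
  · rw [T.xs5]; exact hh t
  · rw [T.xs1]; exact hh s
  · exact X_adj1 T _ _ _

/-- (COR) the polygon without `c 0` has an empty side -/
theorem cor (h : Pg T c n) {cross : Sym2 V → Sym2 V → Prop} (hS : Sees T cross) {w : V} {q : ZMod 2}
    (hw : ∀ k, c k ≠ w) (hQ : Emp T c n w q) (h5 : 5 ≤ n) (hh : Unc T c (c 1) (c (n - 1))) :
    Emp T (sub c 1 (n - 1)) (n - 1) w (pc T (pe (sub c 1 (n - 1)) (n - 1)) (c 0) w) := by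
  have hP := h.toPer
  have hd := sub_pg h (by omega) hh
  have hD := hd.toPer
  have c0n : c n = c 0 := by
    have := hP.per 0
    rwa [Nat.zero_add] at this
  obtain ⟨d, hde⟩ : ∃ d, d = sub c 1 (n - 1) := ⟨_, rfl⟩
  have hdw : ∀ k, d k ≠ w := by rw [hde]; exact sub_ne hw _ _
  rw [← hde] at hd hD ⊢
  -- flags of inner vertices
  have inner : ∀ i j, 1 ≤ i → i + 2 < n → Unc T d (d i) (d j) → (i + 2 ≤ j ∨ j + 2 ≤ i) → j + 1 < n →
      pfl T d (n - 1) w i (d j) ≠ pc T (pe d (n - 1)) (c 0) w := by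
    intro i j i1 i2 hu hij hj
    have e1 : ∀ s, s + 1 < n → d s = c (s + 1) := by
      intro s hs
      rw [hde]
      unfold sub
      rw [Nat.mod_eq_of_lt (by omega : s < n - 1), Nat.add_comm]
    have e0 : d (n - 1) = c 1 := by
      rw [hde]
      unfold sub
      rw [Nat.mod_self]
    rw [e1 i (by omega), e1 j hj] at hu
    have hf : ∀ t, 1 ≤ t → t + 1 < n → T.X (c (i + 1)) (c (j + 1)) (c t) (c (t + 1)) = false := by
      intro t t1 t2
      have := hu (t - 1)
      rw [e1 (t - 1) (by omega), show t - 1 + 1 = t by omega, e1 t (by omega)] at this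
      exact this
    have hfh : T.X (c (i + 1)) (c (j + 1)) (c 1) (c (n - 1)) = false := by
      have := hu (n - 2)
      rw [e1 (n - 2) (by omega), show n - 2 + 1 = n - 1 by omega, e0, T.xs2] at this
      exact this
    have h6 := cor0 h hS hw hQ h5 hh (k := i + 1) (l := j + 1) (by omega) (by omega) (by omega) (by omega)
      (by omega) hf hfh
    -- relation of the flags
    have h7 : pfl T d (n - 1) w i (d j) = pc T (pe d (n - 1)) (c (i + 1)) w +
        al T (c (i + 1)) (c (i + 2)) (c i) (c (j + 1)) w := by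
      unfold pfl
      rw [e1 i (by omega), e1 (i + 1) (by omega), e1 j hj]
      have e2 : d (i + (n - 1) - 1) = c i := by
        rw [show i + (n - 1) - 1 = (i - 1) + (n - 1) by omega, hD.per, e1 (i - 1) (by omega),
          show i - 1 + 1 = i by omega]
      rw [e2]
    have h8 : pfl T c n w (i + 1) (c (j + 1)) = pc T (pe c n) (c (i + 1)) w +
        al T (c (i + 1)) (c (i + 2)) (c i) (c (j + 1)) w := by
      unfold pfl
      rw [show i + 1 + n - 1 = i + n by omega, hP.per]
    have h9 := pc_chord hP (by omega : 3 ≤ n - 1) (by omega) (c (i + 1)) w (T := T) (i := 1)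
    have h10 := chord_side h hw (i := 1) (m := n - 1) (k := i + 1) (l := n) (by omega) (by omega)
      (by rw [show 1 + (n - 1) - 1 = n - 1 by omega]; exact hh) (by omega) (by omega) (by omega) (by omega)
    have h11 := hQ 1 (n - 1) (by omega) (by omega) hh
    rw [show 1 + (n - 1) - 1 = n - 1 by omega] at h9 h10
    rw [z2_ne h11, c0n] at h10
    rw [← hde] at h9 h10
    intro h12
    apply h6
    rw [h8, h9]
    rw [h7] at h12
    have h14 := two_z (1 : ZMod 2)
    linear_combination h12 + h10 + h14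
  -- general chords: one end is inner
  have sw : ∀ i j, i + 2 ≤ j → j + 2 ≤ i + (n - 1) → Unc T d (d i) (d j) →
      pfl T d (n - 1) w i (d j) = pfl T d (n - 1) w j (d i) := by
    intro i j h1 h2 hu
    have h3 := pfl_two hD hdw h1 h2 (T := T)
    rw [pc_unc hD hu] at h3
    have h4 := two_z (pfl T d (n - 1) w j (d i))
    linear_combination h3 - h4
  have pm : ∀ i z, pfl T d (n - 1) w i z = pfl T d (n - 1) w (i % (n - 1)) z := by
    intro i z
    have e1 : d i = d (i % (n - 1)) := (hD.mod i).symm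
    have e2 : d (i + 1) = d (i % (n - 1) + 1) := hD.eq_iff.2 (Nat.ModEq.add_right 1 (Nat.mod_modEq i _).symm)
    have e3 : d (i + (n - 1) - 1) = d (i % (n - 1) + (n - 1) - 1) := by
      rw [hD.eq_iff, show i + (n - 1) - 1 = i + (n - 2) by omega,
        show i % (n - 1) + (n - 1) - 1 = i % (n - 1) + (n - 2) by omega]
      exact Nat.ModEq.add_right _ (Nat.mod_modEq i _).symm
    unfold pfl
    rw [e1, e2, e3]
  intro i j h1 h2 hu
  have m1 : i % (n - 1) < n - 1 := Nat.mod_lt _ (by omega)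
  have m2 : j % (n - 1) < n - 1 := Nat.mod_lt _ (by omega)
  -- the residues are not adjacent
  have hres : (i % (n - 1) + 2 ≤ j % (n - 1) ∨ j % (n - 1) + 2 ≤ i % (n - 1)) ∧
      ¬ (i % (n - 1) = 0 ∧ j % (n - 1) = n - 2) ∧ ¬ (j % (n - 1) = 0 ∧ i % (n - 1) = n - 2) := by
    obtain ⟨a, ha⟩ : ∃ a, i = i % (n - 1) + (n - 1) * a := ⟨_, (Nat.mod_add_div i (n - 1)).symm⟩
    obtain ⟨b, hb⟩ : ∃ b, j = j % (n - 1) + (n - 1) * b := ⟨_, (Nat.mod_add_div j (n - 1)).symm⟩
    have hab : b = a ∨ b = a + 1 := by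
      rcases Nat.lt_trichotomy a b with h3 | h3 | h3
      · right
        by_contra h4
        have h5 : a + 2 ≤ b := by omega
        have h6 : (n - 1) * (a + 2) ≤ (n - 1) * b := Nat.mul_le_mul_left _ h5
        rw [Nat.mul_add] at h6
        omega
      · exact Or.inl h3.symm
      · exfalso
        have h6 : (n - 1) * (b + 1) ≤ (n - 1) * a := Nat.mul_le_mul_left _ h3
        rw [Nat.mul_add] at h6
        omega
    rcases hab with h3 | h3
    · subst h3
      omega
    · subst h3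
      rw [Nat.mul_add] at hb
      omega
  obtain ⟨r1, r2, r3⟩ := hres
  have hu2 : Unc T d (d (i % (n - 1))) (d (j % (n - 1))) := by
    rw [hD.mod, hD.mod]
    exact hu
  by_cases h3 : 1 ≤ i % (n - 1) ∧ i % (n - 1) + 2 < n
  · rw [pm, ← hD.mod j]
    exact inner _ _ h3.1 h3.2 hu2 r1 (by omega)
  · have h4 : 1 ≤ j % (n - 1) ∧ j % (n - 1) + 2 < n := by omega
    rw [sw i j h1 h2 hu, pm, ← hD.mod i]
    exact inner _ _ h4.1 h4.2 hu2.symm (by omega) (by omega)

end H30P
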