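import Pool.Agent.Lib.H30P.Cor2
import Pool.Agent.Lib.H40FS.FS

/-!
# H30P, file E: a plane polygon with an empty side is convex
-/

set_option autoImplicit false

namespace H30P

open H53P Finset

variable {V : Type*} [Fintype V] [DecidableEq V] {T : Table V} {c : ℕ → V} {n : ℕ}

theorem cvx_of (h : Per c n)
    (h1 : ∀ i j k l, i < j → j < k → k < l → l < n → T.X (c i) (c k) (c j) (c l) = true) : Cvx T c n := by
  have hn := h.three
  -- first `i < n`
  have key : ∀ i j k l, i < n → i < j → j < k → k < l → l < i + n → T.X (c i) (c k) (c j) (c l) = true := by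
    intro i j k l hi ij jk kl li
    have r : ∀ t, n ≤ t → c t = c (t - n) := by
      intro t ht
      have := h.per (t - n)
      rwa [show t - n + n = t by omega] at this
    by_cases a1 : l < n
    · exact h1 i j k l ij jk kl a1
    · by_cases a2 : k < n
      · rw [r l (by omega), T.xs5]
        exact h1 (l - n) i j k (by omega) ij jk a2
      · by_cases a3 : j < n
        · rw [r l (by omega), r k (by omega), T.xs3]
          exact h1 (k - n) (l - n) i j (by omega) (by omega) ij a3
        · rw [r l (by omega), r k (by omega), r j (by omega), T.xs6]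
          exact h1 (j - n) (k - n) (l - n) i (by omega) (by omega) (by omega) hi
  intro i j k l ij jk kl li
  have e1 : n * (i / n) + i % n = i := Nat.div_add_mod i n
  have m1 : i % n < n := Nat.mod_lt _ (by omega)
  have r : ∀ t, n * (i / n) ≤ t → c t = c (t - n * (i / n)) := by
    intro t ht
    have := h.add_mul (t - n * (i / n)) (i / n)
    rwa [show t - n * (i / n) + n * (i / n) = t by omega] at this
  rw [r i (by omega), r j (by omega), r k (by omega), r l (by omega)]
  exact key _ _ _ _ (by omega) (by omega) (by omega) (by omega) (by omega)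

theorem cvx_shift (h : Per c n) (s : ℕ) (h1 : Cvx T (fun k => c (k + s)) n) : Cvx T c n := by
  have hn := h.three
  intro i j k l ij jk kl li
  have h2 : s ≤ n * s := by nlinarith
  have h3 := h1 (i + n * s - s) (j + n * s - s) (k + n * s - s) (l + n * s - s) (by omega) (by omega)
    (by omega) (by omega)
  simp only at h3
  rw [show i + n * s - s + s = i + n * s by omega, show j + n * s - s + s = j + n * s by omega,
    show k + n * s - s + s = k + n * s by omega, show l + n * s - s + s = l + n * s by omega,
    h.add_mul, h.add_mul, h.add_mul, h.add_mul] at h3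
  exact h3

theorem pg_shift (h : Pg T c n) (s : ℕ) : Pg T (fun k => c (k + s)) n := by
  refine ⟨h.toPer.shift s, fun i j => ?_⟩
  show T.X (c (i + s)) (c (i + 1 + s)) (c (j + s)) (c (j + 1 + s)) = false
  rw [show i + 1 + s = i + s + 1 by ring, show j + 1 + s = j + s + 1 by ring]
  exact h.plane _ _

theorem unc_shift (h : Per c n) {x y : V} (s : ℕ) (hu : Unc T (fun k => c (k + s)) x y) : Unc T c x y := by
  have hn := h.three
  intro k
  have h2 : s ≤ n * s := by nlinarith
  have h3 := hu (k + n * s - s)
  simp only at h3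
  rw [show k + n * s - s + s = k + n * s by omega, show k + n * s - s + 1 + s = (k + 1) + n * s by omega,
    h.add_mul, h.add_mul] at h3
  exact h3

theorem emp_shift (h : Per c n) {w : V} {q : ZMod 2} (hQ : Emp T c n w q) (s : ℕ) :
    Emp T (fun k => c (k + s)) n w q := by
  have hn := h.three
  intro i j h1 h2 hu
  have h3 := hQ (i + s) (j + s) (by omega) (by omega) (unc_shift h s hu)
  unfold pfl at h3 ⊢
  rw [h.pe_shift s]
  show pc T (pe c n) (c (i + s)) w + al T (c (i + s)) (c (i + 1 + s)) (c (i + n - 1 + s)) (c (j + s)) w ≠ q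
  rw [show i + 1 + s = i + s + 1 by ring, show i + n - 1 + s = i + s + n - 1 by omega]
  exact h3

/-- chords of a convex polygon are uncrossed -/
theorem cvx_unc (h : Per c n) (hC : Cvx T c n) {i j : ℕ} (h1 : i + 2 ≤ j) (h2 : j + 2 ≤ i + n) :
    Unc T c (c i) (c j) := by
  have hn := h.three
  intro t
  obtain ⟨s, s1, s2, e1⟩ : ∃ s, i ≤ s ∧ s < i + n ∧ s % n = t % n := by
    have h3 : (t + n * i - i) % n < n := Nat.mod_lt _ (by omega)
    have h4 : i ≤ t + n * i := by nlinarith
    refine ⟨i + (t + n * i - i) % n, by omega, by omega, ?_⟩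
    have h5 : (i + (t + n * i - i) % n) % n = (i + (t + n * i - i)) % n := (Nat.mod_modEq _ n).add_left i
    rw [h5, show i + (t + n * i - i) = t + n * i by omega, Nat.add_mul_mod_self_left]
  have e2 : c t = c s := (h.eq_iff.2 e1).symm
  have e3 : c (t + 1) = c (s + 1) := h.eq_iff.2 (Nat.ModEq.add_right 1 e1.symm)
  rw [e2, e3]
  by_cases a1 : s = i
  · rw [a1]; exact X_adj1 T _ _ _
  by_cases a2 : s + 1 = i + n
  · rw [a2, h.per]; exact X_adj2 T _ _ _
  by_cases a3 : s = j
  · rw [a3]; exact X_adj3 T _ _ _
  by_cases a4 : s + 1 = j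
  · rw [a4]; exact X_adj4 T _ _ _
  rcases Nat.lt_or_ge s j with a5 | a5
  · have h6 := hC i s (s + 1) j (by omega) (by omega) (by omega) (by omega)
    rw [T.xs2] at h6
    have h7 := T.one _ _ _ _ h6
    rw [T.xs2]
    exact h7
  · have h6 := hC i j s (s + 1) (by omega) (by omega) (by omega) (by omega)
    exact T.one _ _ _ _ h6

/-- base case -/
theorem e_four (h : Pg T c 4) {w : V} {q : ZMod 2} (hw : ∀ k, c k ≠ w) (hQ : Emp T c 4 w q) :
    Cvx T c 4 := by
  have hP := h.toPer
  have hu : ∀ i, Unc T c (c i) (c (i + 2)) := by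
    intro i t
    obtain ⟨s, s1, s2, e1⟩ : ∃ s, i ≤ s ∧ s < i + 4 ∧ s % 4 = t % 4 := ⟨i + (t + 4 * i - i) % 4, by omega,
      by omega, by omega⟩
    have e2 : c t = c s := (hP.eq_iff.2 e1).symm
    have e3 : c (t + 1) = c (s + 1) := hP.eq_iff.2 (Nat.ModEq.add_right 1 e1.symm)
    rw [e2, e3]
    obtain a | a | a | a : s = i ∨ s = i + 1 ∨ s = i + 2 ∨ s = i + 3 := by omega
    · rw [a]; exact X_adj1 T _ _ _
    · rw [a]; exact X_adj4 T _ _ _
    · rw [a]; exact X_adj3 T _ _ _
    · rw [a, show i + 3 + 1 = i + 4 by ring, hP.per]; exact X_adj2 T _ _ _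
  intro i j k l ij jk kl li
  have e1 : j = i + 1 := by omega
  have e2 : k = i + 2 := by omega
  have e3 : l = i + 3 := by omega
  subst e1 e2 e3
  exact inter h hw hQ (by omega) (by omega) (by omega) (by omega) (hu i) (hu (i + 1))

/-- (E) -/
theorem empty_convex {cross : Sym2 V → Sym2 V → Prop} (hS : Sees T cross) {w : V} : ∀ n, 4 ≤ n →
    ∀ (c : ℕ → V) (q : ZMod 2), Pg T c n → (∀ k, c k ≠ w) → Emp T c n w q → Cvx T c n := by
  intro n hn
  induction n, hn using Nat.le_induction with
  | base => intro c q h hw hQ; exact e_four h hw hQ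
  | succ m hm ih =>
    intro c₀ q h₀ hw₀ hQ₀
    obtain ⟨j, hj⟩ := short h₀ hS hw₀ hQ₀ (by omega)
    apply cvx_shift h₀.toPer (j + 1)
    obtain ⟨c, hc⟩ : ∃ c : ℕ → V, c = fun k => c₀ (k + (j + 1)) := ⟨_, rfl⟩
    have h : Pg T c (m + 1) := by rw [hc]; exact pg_shift h₀ _
    have hw : ∀ k, c k ≠ w := by rw [hc]; exact fun k => hw₀ _
    have hQ : Emp T c (m + 1) w q := by rw [hc]; exact emp_shift h₀.toPer hQ₀ _
    have hP := h.toPer
    have c0n : c (m + 1) = c 0 := by
      have := hP.per 0
      rwa [Nat.zero_add] at this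
    have hh : Unc T c (c 1) (c m) := by
      rw [hc]
      intro t
      show T.X (c₀ (1 + (j + 1))) (c₀ (m + (j + 1))) (c₀ (t + (j + 1))) (c₀ (t + 1 + (j + 1))) = false
      rw [show m + (j + 1) = j + (m + 1) by ring, h₀.toPer.per, show 1 + (j + 1) = j + 2 by ring, T.xs1,
        show t + 1 + (j + 1) = t + (j + 1) + 1 by ring]
      exact hj _
    rw [← hc]
    -- the polygon without `c 0`
    have hd := sub_pg h (by omega) (by rw [Nat.add_sub_cancel]; exact hh)
    have hdQ := cor h hS hw hQ (by omega) (by rw [Nat.add_sub_cancel]; exact hh)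
    rw [Nat.add_sub_cancel] at hd hdQ
    have hdw : ∀ k, sub c 1 m k ≠ w := sub_ne hw _ _
    have hC := ih _ _ hd hdw hdQ
    have hD := hd.toPer
    obtain ⟨d, hde⟩ : ∃ d, d = sub c 1 m := ⟨_, rfl⟩
    rw [← hde] at hd hdQ hC hD hdw
    have e1 : ∀ s, s < m → d s = c (s + 1) := by
      intro s hs
      rw [hde]
      unfold sub
      rw [Nat.mod_eq_of_lt hs, Nat.add_comm]
    have e0 : d m = c 1 := by
      rw [hde]
      unfold sub
      rw [Nat.mod_self]
    have e2 : ∀ s, 1 ≤ s → s ≤ m → c s = d (s - 1) := by
      intro s s1 s2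
      rw [e1 (s - 1) (by omega), show s - 1 + 1 = s by omega]
    have u0 : ∀ k, d k ≠ c 0 := by
      intro k
      rw [hde]
      unfold sub
      have h3 : k % m < m := Nat.mod_lt _ (by omega)
      exact (hP.ne_of (by omega) (by omega)).symm
    -- edges of `d`
    have uncd : ∀ x y, (∀ t, 1 ≤ t → t < m → T.X x y (c t) (c (t + 1)) = false) →
        T.X x y (c m) (c 1) = false → Unc T d x y := by
      intro x y g1 g2 t
      rw [← hD.mod t]
      have h3 : t % m < m := Nat.mod_lt _ (by omega)
      have h4 : d (t + 1) = d (t % m + 1) := hD.eq_iff.2 (Nat.ModEq.add_right 1 (Nat.mod_modEq t _).symm)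
      rw [h4, e1 _ h3]
      by_cases h5 : t % m + 1 = m
      · rw [h5, e0]; exact g2
      · rw [e1 _ (by omega)]
        exact g1 _ (by omega) (by omega)
    have un1 : Unc T d (c 0) (c 1) := uncd _ _ (fun t _ _ => h.plane 0 t) (X_adj4 T _ _ _)
    have unm : Unc T d (c 0) (c m) := uncd _ _
      (fun t _ _ => by rw [T.xs1, ← c0n]; exact h.plane m t) (X_adj3 T _ _ _)
    -- no chord crosses an uncrossed edge at `c 0`
    have nocr : ∀ z, Unc T d (c 0) z → ∀ i j, 1 ≤ i → i + 2 ≤ j → j ≤ m → j + 2 ≤ i + m →
        T.X (c 0) z (c i) (c j) = false := by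
      intro z hz i j i1 ij jm jim
      cases hX : T.X (c 0) z (c i) (c j) with
      | false => rfl
      | true =>
        exfalso
        rw [e2 i i1 (by omega), e2 j (by omega) jm] at hX
        have hu := cvx_unc hD hC (i := i - 1) (j := j - 1) (by omega) (by omega)
        have h3 := sep_pg hD hdw u0 hX hz hu
          (fun h4 => hD.ne_of (by omega : i - 1 + 1 < j - 1) (by omega) h4.symm)
          (fun h4 => hD.ne_of (by omega : j - 1 < i - 1 + m - 1) (by omega) h4)
        exact hdQ (i - 1) (j - 1) (by omega) (by omega) hu h3.symm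
    have noX : ∀ z, Unc T d (c 0) z → (∀ i j, T.X (c 0) z (c i) (c j) = true → i ≤ m → j ≤ m → 1 ≤ i → 1 ≤ j →
        (i + m = j + 1 ∨ j + m = i + 1) → False) → ∀ i j, 1 ≤ i → i ≤ m → 1 ≤ j → j ≤ m →
        T.X (c 0) z (c i) (c j) = false := by
      intro z hz hsp i j i1 im j1 jm
      cases hX : T.X (c 0) z (c i) (c j) with
      | false => rfl
      | true =>
        exfalso
        by_cases b1 : i + m = j + 1 ∨ j + m = i + 1
        · exact hsp i j hX im jm i1 j1 b1
        rcases Nat.lt_trichotomy i j with b2 | b2 | b2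
        · by_cases b3 : j = i + 1
          · subst b3
            have := hz (i - 1)
            rw [← e2 i i1 im, show i - 1 + 1 = i + 1 - 1 by omega, ← e2 (i + 1) (by omega) jm, hX] at this
            cases this
          · rw [nocr z hz i j i1 (by omega) jm (by omega)] at hX
            cases hX
        · rw [b2] at hX
          have := (T.ne _ _ _ _ hX).2.1
          exact this rfl
        · by_cases b3 : i = j + 1
          · subst b3
            have := hz (j - 1)
            rw [← e2 j j1 jm, show j - 1 + 1 = j + 1 - 1 by omega, ← e2 (j + 1) (by omega) im, T.xs2, hX] at this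
            cases this
          · rw [T.xs2, nocr z hz j i j1 (by omega) im (by omega)] at hX
            cases hX
    have cc1 : ∀ i j, T.X (c 0) (c 1) (c i) (c j) = true → i ≠ 1 ∧ j ≠ 1 := by
      intro i j hX
      have := T.ne _ _ _ _ hX
      exact ⟨fun h3 => this.2.2.2.2.1 (by rw [h3]), fun h3 => this.2.2.2.2.2 (by rw [h3])⟩
    have ccm : ∀ i j, T.X (c 0) (c m) (c i) (c j) = true → i ≠ m ∧ j ≠ m := by
      intro i j hX
      have := T.ne _ _ _ _ hX
      exact ⟨fun h3 => this.2.2.2.2.1 (by rw [h3]), fun h3 => this.2.2.2.2.2 (by rw [h3])⟩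
    have H1 := noX (c 1) un1 (fun i j hX im jm i1 j1 h3 => by have := cc1 i j hX; omega)
    have H2 := noX (c m) unm (fun i j hX im jm i1 j1 h3 => by have := ccm i j hX; omega)
    -- the alternations
    have altq : ∀ i j, i + 2 ≤ j → j + 2 ≤ i + m → Unc T d (c 0) (d i) →
        T.alt (d i) (d (i + 1)) (d (i + m - 1)) (d j) (c 0) = true := by
      intro i j ij jim hu
      have b1 := hdQ i j ij jim (cvx_unc hD hC ij jim)
      have b2 := pfl_off hD hdw u0 i (T := T)
      rw [pc_symm, pc_unc hD hu, zero_add] at b2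
      have b3 := al_add (T := T) (u := d i) (a := d (i + 1)) (b := d (i + m - 1)) (y := d j) (z := c 0)
        (w := w) (hD.ne_succ i) (hD.ne_of (by omega) (by omega)) (hD.nb i).ne
        (hD.ne_of (by omega : i < j) (by omega)).symm (hD.ne_of (by omega : i + 1 < j) (by omega)).symm
        (hD.ne_of (by omega : j < i + m - 1) (by omega)) (u0 _).symm (u0 _).symm (u0 _).symm
        (hdw _).symm (hdw _).symm (hdw _).symm
      have b4 := z2_ne b1
      unfold pfl at b2 b4
      have b5 : al T (d i) (d (i + 1)) (d (i + m - 1)) (d j) (c 0) = 1 := by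
        have b6 := two_z (pc T (pe d m) (d i) w)
        have b7 := two_z (pc T (pe d m) (c 0) w)
        rw [← b3]
        linear_combination b2 + b4 - b6 + b7
      unfold al at b5
      cases b8 : T.alt (d i) (d (i + 1)) (d (i + m - 1)) (d j) (c 0) with
      | true => rfl
      | false =>
        rw [b8] at b5
        exact absurd b5 (by decide)
    have res := fs (T := T) (u := c 0) (c := c) (m := m) hm
      (fun i i1 im => (hP.ne_of (by omega) (by omega)).symm)
      (fun i j i1 ij jm => hP.ne_of ij (by omega))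
      (fun i j k l i1 ij jk kl lm => by
        rw [e2 i i1 (by omega), e2 j (by omega) (by omega), e2 k (by omega) (by omega), e2 l (by omega) lm]
        exact hC _ _ _ _ (by omega) (by omega) (by omega) (by omega))
      H1 H2
      (fun j j1 jm => by
        have := altq 0 (j - 1) (by omega) (by omega) (by rw [e1 0 (by omega)]; exact un1)
        rw [e1 0 (by omega), Nat.zero_add, e1 1 (by omega), Nat.zero_add, e1 (m - 1) (by omega),
          show m - 1 + 1 = m by omega, e1 (j - 1) (by omega), show j - 1 + 1 = j by omega] at this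
        exact this)
      (fun j j1 jm => by
        have := altq (m - 1) (j - 1 + m) (by omega) (by omega)
          (by rw [e1 (m - 1) (by omega), show m - 1 + 1 = m by omega]; exact unm)
        rw [hD.per, e1 (m - 1) (by omega), show m - 1 + 1 = m by omega, e0,
          show m - 1 + m - 1 = m - 2 + m by omega, hD.per, e1 (m - 2) (by omega),
          show m - 2 + 1 = m - 1 by omega, e1 (j - 1) (by omega), show j - 1 + 1 = j by omega,
          T.as1] at this
        exact this)
      (fun s s1 sm hs => by
        have hu : Unc T c (c 0) (c s) := by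
          intro t
          obtain ⟨r, hr, e4⟩ : ∃ r, r < m + 1 ∧ r % (m + 1) = t % (m + 1) :=
            ⟨t % (m + 1), Nat.mod_lt _ (by omega), Nat.mod_mod _ _⟩
          have e5 : c t = c r := (hP.eq_iff.2 e4).symm
          have e6 : c (t + 1) = c (r + 1) := hP.eq_iff.2 (Nat.ModEq.add_right 1 e4.symm)
          rw [e5, e6]
          by_cases r0 : r = 0
          · rw [r0]; exact X_adj1 T _ _ _
          · by_cases r1 : r = m
            · rw [r1, c0n]; exact X_adj2 T _ _ _
            · exact hs r (by omega) (by omega)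
        have h6 := inter h hw hQ (i := 1) (j := s) (k := m) (l := m + 1) (by omega) (by omega) (by omega)
          (by omega) hh (by rw [c0n]; exact hu.symm)
        rw [c0n, T.xs5] at h6
        exact h6)
    apply cvx_of hP
    intro i j k l ij jk kl lm
    by_cases i0 : i = 0
    · rw [i0]
      exact res j k l (by omega) jk kl (by omega)
    · rw [e2 i (by omega) (by omega), e2 j (by omega) (by omega), e2 k (by omega) (by omega),
        e2 l (by omega) (by omega)]
      exact hC _ _ _ _ (by omega) (by omega) (by omega) (by omega)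

end H30P
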