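import Pool.Agent.Lib.H30P.SF

/-!
# H30P, file Sep: the small triangle of a crossing
-/

set_option autoImplicit false

namespace H30P

open H53P

variable {V : Type*} {T : Table V}

/-- `y` is in the small triangle at `w`, `z` of the crossing `wu x zv` -/
def inn (T : Table V) (w u z v y : V) : Bool := T.crT w z v y u && T.crT w z u y v

theorem xfalse {a b : Bool} (h : (a ^^ b) = true → False) : a = b := by
  cases a <;> cases b
  · rfl
  · exact (h rfl).elim
  · exact (h rfl).elim
  · rfl

/-- (SEPa) -/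
theorem sepa {w u z v y s : V} (hN : [w, u, z, v, y, s].Nodup) (h1 : T.X w u z v = true)
    (h2 : T.X y s w u = false) (h3 : T.X y s z v = false) :
    T.X y s w z = (inn T w u z v y ^^ inn T w u z v s) := by
  apply xfalse
  intro h
  rw [← Bool.xor_assoc] at h
  exact sepa_f hN h1 h2 h3 h

/-- (SEPb) -/
theorem sepb {w u z v y : V} (hN : [w, u, z, v, y].Nodup) (h1 : T.X w u z v = true)
    (h2 : T.X u y z v = false) : T.X u y w z = inn T w u z v y := by
  apply xfalse
  intro h
  exact sepb_f hN h1 h2 h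

/-- (P5) five points have an odd number of crossings -/
theorem p5 {a b c d e : V} (hN : [a, b, c, d, e].Nodup) : ((((((((((((((T.X a b c d ^^ T.X a c b d) ^^ T.X a d b c) ^^ T.X a b c e) ^^ T.X a c b e) ^^ T.X a e b c) ^^ T.X a b d e) ^^ T.X a d b e) ^^ T.X a e b d) ^^ T.X a c d e) ^^ T.X a d c e) ^^ T.X a e c d) ^^ T.X b c d e) ^^ T.X b d c e) ^^ T.X b e c d) = true := by
  cases h : ((((((((((((((T.X a b c d ^^ T.X a c b d) ^^ T.X a d b c) ^^ T.X a b c e) ^^ T.X a c b e) ^^ T.X a e b c) ^^ T.X a b d e) ^^ T.X a d b e) ^^ T.X a e b d) ^^ T.X a c d e) ^^ T.X a d c e) ^^ T.X a e c d) ^^ T.X b c d e) ^^ T.X b d c e) ^^ T.X b e c d) with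
  | true => rfl
  | false => exact (p5_f hN h).elim

/-- (SEPc) the sector at `z` -/
theorem sepc {w u z v a b : V} (hN : [w, u, z, v, a, b].Nodup) (h1 : T.X w u z v = true)
    (h2 : T.X w u z a = false) (h3 : T.X w u z b = false) :
    T.alt z a b w v = (inn T w u z v a ^^ inn T w u z v b) := by
  apply xfalse
  intro h
  rw [← Bool.xor_assoc] at h
  exact sepc_f hN h1 h2 h3 h

/-- (SEPd) the sector at `z`, with the edge `zu` -/
theorem sepd {w u z v b : V} (hN : [w, u, z, v, b].Nodup) (h1 : T.X w u z v = true)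
    (h3 : T.X w u z b = false) : T.alt z u b w v = inn T w u z v b := by
  apply xfalse
  intro h
  exact sepd_f hN h1 h3 h

end H30P
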