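import Pool.Agent.Lib.H30P.Pol
import Pool.Agent.Lib.H30P.Sep
import Pool.Agent.Lib.H98S.OF
import Pool.Agent.Lib.H98S.SP

/-!
# H30P, file Il: start sides, chords, separation
-/

set_option autoImplicit false

namespace H30P

open H53P Finset

variable {V : Type*} [DecidableEq V] {T : Table V} {c : ℕ → V} {n : ℕ}

/-- alternations add up -/
theorem al_add {u a b y z w : V} (ua : u ≠ a) (ub : u ≠ b) (ab : a ≠ b) (yu : y ≠ u) (ya : y ≠ a) (yb : y ≠ b)
    (zu : z ≠ u) (za : z ≠ a) (zb : z ≠ b) (wu : w ≠ u) (wa : w ≠ a) (wb : w ≠ b) :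
    al T u a b y w + al T u a b z w = al T u a b y z := by
  by_cases h1 : y = w
  · subst h1
    rw [al_self, zero_add]
    unfold al
    rw [T.as2]
  by_cases h2 : z = w
  · subst h2
    rw [al_self, add_zero]
  by_cases h3 : y = z
  · subst h3
    rw [al_self, two_z]
  have h := T.apar ua.symm ub.symm yu zu wu ab ya.symm za.symm wa.symm yb.symm zb.symm wb.symm h3 h1 h2
  have h4 : (T.alt u a b y z ^^ T.alt u a b z w ^^ T.alt u a b y w) = false := by
    simpa using h
  have h5 := congrArg z2 h4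
  rw [z2_xor, z2_xor, z2_false] at h5
  change al T u a b y z + al T u a b z w + al T u a b y w = 0 at h5
  have h6 := two_z (al T u a b y z)
  linear_combination h5 - h6

/-- exactly one of three pairings alternates -/
theorem al_rot {u a b y z : V} (au : a ≠ u) (bu : b ≠ u) (yu : y ≠ u) (zu : z ≠ u) (ab : a ≠ b) (ay : a ≠ y)
    (az : a ≠ z) (by_ : b ≠ y) (bz : b ≠ z) (yz : y ≠ z) :
    al T u a b y z + al T u a y b z + al T u a z b y = 1 := by
  have h := (T.rot3 au bu yu zu ab ay az by_ bz yz).1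
  have h1 := congrArg z2 h
  rw [z2_xor, z2_xor, z2_true] at h1
  exact h1

theorem x4_unc {x y : V} (h : Unc T c x y) (k : ℕ) : x4 T x y (c k) (c (k + 1)) = 0 := by
  unfold x4
  rw [h k]
  rfl

theorem pc_unc (h : Per c n) {x y : V} (hu : Unc T c x y) : pc T (pe c n) x y = 0 := by
  rw [pc_pe h]
  unfold asum
  exact sum_eq_zero fun t _ => x4_unc hu t

theorem asum_unc {x y : V} {i j : ℕ} (h : ∀ k, i ≤ k → k < j → T.X x y (c k) (c (k + 1)) = false) :
    asum T c x y i j = 0 := by
  unfold asum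
  apply sum_eq_zero
  intro t ht
  rw [mem_Ico] at ht
  unfold x4
  rw [h t ht.1 ht.2]
  rfl

/-- two vertices off a closed set, joined by an uncrossed edge, are on the same side -/
theorem side_eq {E : Finset (Sym2 V)} (hE : Clo E) {x y w : V} (hx : Off E x) (hy : Off E y) (hw : Off E w)
    (h : pc T E x y = 0) : pc T E x w = pc T E y w := by
  by_cases xy : x = y
  · rw [xy]
  by_cases xw : x = w
  · subst xw
    rw [pc_self, pc_symm, h]
  by_cases yw : y = w
  · subst yw
    rw [pc_self, h]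
  have h1 := pc_out hE xy yw (Ne.symm xw) hx hy hw (T := T)
  rw [h, pc_symm T E w x] at h1
  have h2 := two_z (pc T E y w)
  linear_combination h1 - h2

/-- the vertices of an arc are on the same side -/
theorem arc_side {E : Finset (Sym2 V)} (hE : Clo E) {w : V} (hw : Off E w) {i j : ℕ} (hij : i ≤ j)
    (ho : ∀ k, i ≤ k → k ≤ j → Off E (c k)) (h : ∀ k, i ≤ k → k < j → pc T E (c k) (c (k + 1)) = 0) :
    pc T E (c i) w = pc T E (c j) w := by
  induction j, hij using Nat.le_induction with
  | base => rfl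
  | succ j hj ih =>
    rw [ih (fun k h1 h2 => ho k h1 (by omega)) (fun k h1 h2 => h k h1 (by omega))]
    exact side_eq hE (ho j hj (by omega)) (ho (j + 1) (by omega) le_rfl) hw (h j hj (by omega))

/-- the reference vertex is off every sub-polygon -/
theorem sub_ne {w : V} (hw : ∀ k, c k ≠ w) (i m : ℕ) : ∀ k, sub c i m k ≠ w := fun _ => hw _

theorem off_sub (h : Per c n) {i m : ℕ} (h1 : 3 ≤ m) (h2 : m ≤ n) {k : ℕ} (hk : i + m ≤ k) (hk2 : k < i + n) :
    Off (pe (sub c i m) m) (c k) := by
  apply (sub_per h h1 h2).off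
  intro t
  unfold sub
  have h3 : t % m < m := Nat.mod_lt _ (by omega)
  exact h.ne_of (by omega) (by omega)

theorem sub_add_period (h : Per c n) (i m : ℕ) : sub c (i + n) m = sub c i m := by
  funext k
  unfold sub
  rw [show i + n + k % m = (i + k % m) + n by ring, h.per]

/-- polygon edges miss a chord polygon -/
theorem pc_edge (h : Pg T c n) {i m : ℕ} (h1 : 3 ≤ m) (h2 : m + 1 ≤ n)
    (hu : Unc T c (c i) (c (i + m - 1))) (k : ℕ) : pc T (pe (sub c i m) m) (c k) (c (k + 1)) = 0 := by
  rw [pc_sub h.toPer h1 (by omega), asum_unc (fun t _ _ => h.plane k t)]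
  have h3 := hu k
  unfold x4
  rw [T.xs5, h3]
  rfl

/-- CHORD LEMMA: the sides of the two arcs of an uncrossed chord -/
theorem chord_side (h : Pg T c n) {w : V} (hw : ∀ k, c k ≠ w) {i m k l : ℕ} (h1 : 3 ≤ m) (h2 : m + 1 ≤ n)
    (hu : Unc T c (c i) (c (i + m - 1))) (ik : i < k) (km : k < i + m - 1) (ml : i + m - 1 < l)
    (li : l < i + n) :
    pc T (pe (sub c i m) m) (c l) w + pc T (pe (sub c (i + m - 1) (n + 2 - m)) (n + 2 - m)) (c k) w =
      1 + pfl T c n w i (c (i + m - 1)) := by
  have hn := h.three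
  have hP := h.toPer
  have p1 := sub_per hP h1 (by omega : m ≤ n) (i := i)
  have p2 := sub_per hP (by omega : 3 ≤ n + 2 - m) (by omega : n + 2 - m ≤ n) (i := i + m - 1)
  have w1 : Off (pe (sub c i m) m) w := p1.off (sub_ne hw _ _)
  have w2 : Off (pe (sub c (i + m - 1) (n + 2 - m)) (n + 2 - m)) w := p2.off (sub_ne hw _ _)
  have hu2 : Unc T c (c (i + m - 1)) (c (i + m - 1 + (n + 2 - m) - 1)) := by
    intro t
    rw [show i + m - 1 + (n + 2 - m) - 1 = i + n by omega, hP.per, T.xs1]
    exact hu t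
  -- the arc vertices are on the same side
  have s1 : pc T (pe (sub c i m) m) (c l) w = pc T (pe (sub c i m) m) (c (i + n - 1)) w := by
    apply arc_side p1.clo w1 (by omega : l ≤ i + n - 1)
    · intro t ht1 ht2
      exact off_sub hP h1 (by omega) (by omega) (by omega)
    · intro t _ _
      exact pc_edge h h1 h2 hu t
  have s2 : pc T (pe (sub c (i + m - 1) (n + 2 - m)) (n + 2 - m)) (c (i + 1)) w =
      pc T (pe (sub c (i + m - 1) (n + 2 - m)) (n + 2 - m)) (c k) w := by
    apply arc_side p2.clo w2 (by omega : i + 1 ≤ k)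
    · intro t ht1 ht2
      rw [← hP.per t]
      exact off_sub hP (by omega) (by omega) (by omega) (by omega)
    · intro t _ _
      exact pc_edge h (by omega) (by omega) hu2 t
  -- the neighbours of `c i` in the two polygons
  have nb1 : Nb (pe (sub c i m) m) (c i) (c (i + 1)) (c (i + m - 1)) := by
    have := p1.nb 0
    unfold sub at this
    rw [Nat.zero_mod, Nat.zero_add, Nat.zero_add, Nat.mod_eq_of_lt (by omega : 1 < m),
      Nat.mod_eq_of_lt (by omega : m - 1 < m), Nat.add_zero, show i + (m - 1) = i + m - 1 by omega] at this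
    exact this
  have nb2 : Nb (pe (sub c (i + m - 1) (n + 2 - m)) (n + 2 - m)) (c i) (c (i + m - 1)) (c (i + n - 1)) := by
    have := p2.nb (n + 1 - m)
    unfold sub at this
    rw [Nat.mod_eq_of_lt (by omega : n + 1 - m < n + 2 - m), show n + 1 - m + 1 = n + 2 - m by omega,
      Nat.mod_self, show n + 1 - m + (n + 2 - m) - 1 = (n - m) + (n + 2 - m) by omega, Nat.add_mod_right,
      Nat.mod_eq_of_lt (by omega : n - m < n + 2 - m), Nat.add_zero,
      show i + m - 1 + (n + 1 - m) = i + n by omega, hP.per,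
      show i + m - 1 + (n - m) = i + n - 1 by omega] at this
    exact this
  have ne1 : c i ≠ c (i + n - 1) := hP.ne_of (by omega) (by omega)
  have ne2 : c i ≠ c (i + 1) := hP.ne_of (by omega) (by omega)
  have ne3 : c i ≠ c (i + m - 1) := hP.ne_of (by omega) (by omega)
  have ne4 : c (i + 1) ≠ c (i + m - 1) := hP.ne_of (by omega) (by omega)
  have ne5 : c (i + 1) ≠ c (i + n - 1) := hP.ne_of (by omega) (by omega)
  have ne6 : c (i + m - 1) ≠ c (i + n - 1) := hP.ne_of (by omega) (by omega)
  have o1 : Off (pe (sub c i m) m) (c (i + n - 1)) := off_sub hP h1 (by omega) (by omega) (by omega)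
  have o2 : Off (pe (sub c (i + m - 1) (n + 2 - m)) (n + 2 - m)) (c (i + 1)) := by
    rw [← hP.per (i + 1)]
    exact off_sub hP (by omega) (by omega) (by omega) (by omega)
  have e1 := pc_one p1.clo nb1 ne1 (hw i) (hw (i + n - 1)) o1 w1 p1.lpl (T := T)
  have e2 := pc_one p2.clo nb2 ne2 (hw i) (hw (i + 1)) o2 w2 p2.lpl (T := T)
  have z1 : pc T (pe (sub c i m) m) (c i) (c (i + n - 1)) = 0 := by
    have := pc_edge h h1 h2 hu (i + n - 1)
    rw [show i + n - 1 + 1 = i + n by omega, hP.per, pc_symm] at this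
    exact this
  have z2 : pc T (pe (sub c (i + m - 1) (n + 2 - m)) (n + 2 - m)) (c i) (c (i + 1)) = 0 :=
    pc_edge h (by omega) (by omega) hu2 i
  have e3 := pc_chord hP h1 h2 (c i) w (T := T) (i := i)
  have e4 := al_rot (T := T) ne2.symm ne1.symm ne3.symm (hw i).symm ne5 ne4 (hw (i + 1)) ne6.symm
    (hw (i + n - 1)) (hw (i + m - 1))
  rw [s1, ← s2]
  unfold pfl
  rw [e3]
  rw [z1, pc_symm T _ w (c i)] at e1
  rw [z2, pc_symm T _ w (c i)] at e2
  have e5 : al T (c i) (c (i + m - 1)) (c (i + n - 1)) (c (i + 1)) w =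
      al T (c i) (c (i + 1)) w (c (i + n - 1)) (c (i + m - 1)) := by
    unfold al
    rw [T.as4, T.as2]
  have e6 := two_z (pc T (pe (sub c i m) m) (c i) w)
  have e7 := two_z (pc T (pe (sub c (i + m - 1) (n + 2 - m)) (n + 2 - m)) (c i) w)
  have e8 := two_z (al T (c i) (c (i + 1)) (c (i + n - 1)) (c (i + m - 1)) w)
  linear_combination e1 + e2 + e4 + e5 - e6 - e7 - e8

/-- side of a vertex off the polygon and start side of a ray to it -/
theorem pfl_off (h : Per c n) {w z : V} (hw : ∀ k, c k ≠ w) (hz : ∀ k, c k ≠ z) (k : ℕ) :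
    pfl T c n w k z = pc T (pe c n) (c k) z + pc T (pe c n) z w := by
  unfold pfl
  by_cases hzw : z = w
  · rw [hzw, al_self, pc_self]
  have h1 := pc_one h.clo (h.nb k) (hz k) (hw k) hzw (h.off hz) (h.off hw) h.lpl (T := T)
  rw [← h1, pc_symm T _ w (c k)]
  have h2 := two_z (pc T (pe c n) (c k) w)
  linear_combination h2

/-- the two ends of a chord -/
theorem pfl_two (h : Per c n) {w : V} (hw : ∀ k, c k ≠ w) {i j : ℕ} (h1 : i + 2 ≤ j) (h2 : j + 2 ≤ i + n) :
    pfl T c n w i (c j) + pfl T c n w j (c i) = pc T (pe c n) (c i) (c j) := by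
  have hij : s(c i, c j) ∉ pe c n := by
    intro h3
    rcases (h.nb i).only _ h3 with h4 | h4
    · exact h.ne_of (by omega : i + 1 < j) (by omega) h4.symm
    · exact h.ne_of (by omega : j < i + n - 1) (by omega) h4
  have h3 := pc_two h.clo (h.nb i) (h.nb j) (h.ne_of (by omega) (by omega)) hij (h.off hw) h.lpl (T := T)
  unfold pfl
  rw [pc_symm T _ w (c j)] at h3
  have h4 := two_z (pc T (pe c n) (c i) w)
  have h5 := two_z (pc T (pe c n) (c j) w)
  linear_combination -h3 + h4 + h5

/-- (IL) an uncrossed chord and a ray from an arc to the other arc -/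
theorem il (h : Pg T c n) {w : V} (hw : ∀ k, c k ≠ w) {i m k l : ℕ} (h1 : 3 ≤ m) (h2 : m + 1 ≤ n)
    (hu : Unc T c (c i) (c (i + m - 1))) (ik : i < k) (km : k < i + m - 1) (ml : i + m - 1 < l)
    (li : l < i + n) (hk : ∀ t, i ≤ t → t < i + m - 1 → T.X (c k) (c l) (c t) (c (t + 1)) = false) :
    x4 T (c k) (c l) (c (i + m - 1)) (c i) =
      1 + pfl T c n w i (c (i + m - 1)) + pfl T c n w k (c l) := by
  have hn := h.three
  have hP := h.toPer
  have p1 := sub_per hP h1 (by omega : m ≤ n) (i := i)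
  have w1 : Off (pe (sub c i m) m) w := p1.off (sub_ne hw _ _)
  have h3 := chord_side h hw h1 h2 hu ik km ml li
  have ol : Off (pe (sub c i m) m) (c l) := off_sub hP h1 (by omega) (by omega) li
  have nbk : Nb (pe (sub c i m) m) (c k) (c (k + 1)) (c (k - 1)) := by
    have := p1.nb (k - i)
    unfold sub at this
    rw [Nat.mod_eq_of_lt (by omega : k - i < m), Nat.mod_eq_of_lt (by omega : k - i + 1 < m),
      show k - i + m - 1 = (k - i - 1) + m by omega, Nat.add_mod_right,
      Nat.mod_eq_of_lt (by omega : k - i - 1 < m), show i + (k - i) = k by omega,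
      show i + (k - i + 1) = k + 1 by omega, show i + (k - i - 1) = k - 1 by omega] at this
    exact this
  have kl : c k ≠ c l := hP.ne_of (by omega) (by omega)
  have h4 := pc_one p1.clo nbk kl (hw k) (hw l) ol w1 p1.lpl (T := T)
  have h5 : pc T (pe (sub c i m) m) (c k) (c l) = x4 T (c k) (c l) (c (i + m - 1)) (c i) := by
    rw [pc_sub hP h1 (by omega), asum_unc hk, zero_add]
  have h6 := pc_chord hP h1 h2 (c k) w (T := T) (i := i)
  have h7 : c (k + n - 1) = c (k - 1) := by
    rw [show k + n - 1 = (k - 1) + n by omega, hP.per]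
  unfold pfl at h3 ⊢
  rw [h7]
  rw [h5, pc_symm T _ w (c k)] at h4
  rw [h6]
  have h8 := two_z (pc T (pe c n) (c i) w + al T (c i) (c (i + 1)) (c (i + n - 1)) (c (i + m - 1)) w)
  have h9 := two_z (pc T (pe (sub c i m) m) (c k) w)
  have h10 := two_z (1 : ZMod 2)
  linear_combination h4 - h3 - h8 - h9 - h10

theorem X_deg (T : Table V) (a b d : V) : T.X a a b d = false := by
  cases h : T.X a a b d with
  | false => rfl
  | true => exact absurd rfl (T.ne _ _ _ _ h).1

theorem crT_deg (T : Table V) (a b d x : V) : T.crT a b d x x = false := by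
  unfold Table.crT crTX
  rw [X_deg, X_deg, X_deg]
  rfl

theorem crT_comm (T : Table V) (a b d x y : V) : T.crT a b d x y = T.crT b a d x y := by
  unfold Table.crT crTX
  rw [T.xs2 x y a b, T.xs2 x y b d, T.xs2 x y d a]
  cases T.X x y b a <;> cases T.X x y d b <;> cases T.X x y a d <;> rfl

theorem inn_u (T : Table V) (x u y v : V) : inn T x u y v u = false := by
  unfold inn
  rw [crT_deg]
  rfl

theorem inn_v (T : Table V) (x u y v : V) : inn T x u y v v = false := by
  unfold inn
  rw [crT_deg T x y u v, Bool.and_false]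

theorem inn_swap (T : Table V) (x u y v b : V) : inn T y v x u b = inn T x u y v b := by
  unfold inn
  rw [crT_comm T y x u, crT_comm T y x v, Bool.and_comm]

/-- an edge missing both crossing edges -/
theorem sm_edge {x u y v a b : V} (hX : T.X x u y v = true) (ab : a ≠ b) (ax : a ≠ x) (ay : a ≠ y)
    (bx : b ≠ x) (by_ : b ≠ y) (h1 : T.X x u a b = false) (h2 : T.X y v a b = false) :
    x4 T x y a b = z2 (inn T x u y v a) + z2 (inn T x u y v b) := by
  obtain ⟨xu, yv, xy, xv, uy, uv⟩ := T.ne _ _ _ _ hX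
  have key : ∀ a b : V, a ≠ b → a ≠ x → a ≠ y → b ≠ x → b ≠ y → a ≠ v → b ≠ v → b ≠ u →
      T.X x u a b = false → T.X y v a b = false →
      x4 T x y a b = z2 (inn T x u y v a) + z2 (inn T x u y v b) := by
    intro a b ab ax ay bx by_ av bv bu h1 h2
    by_cases au : a = u
    · subst au
      rw [inn_u, z2_false, zero_add]
      have h3 := sepb (T := T) (w := x) (u := a) (z := y) (v := v) (y := b)
        (by simp [xu, xy, xv, uy, uv, yv, Ne.symm bx, Ne.symm bu, Ne.symm by_, Ne.symm bv]) hX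
        (by rw [T.xs4]; exact h2)
      unfold x4
      rw [T.xs4, h3]
    · have h3 := sepa (T := T) (w := x) (u := u) (z := y) (v := v) (y := a) (s := b)
        (by simp [xu, xy, xv, uy, uv, yv, Ne.symm ax, Ne.symm au, Ne.symm ay, Ne.symm av, Ne.symm bx,
          Ne.symm bu, Ne.symm by_, Ne.symm bv, ab]) hX
        (by rw [T.xs4]; exact h1) (by rw [T.xs4]; exact h2)
      unfold x4
      rw [T.xs4, h3, z2_xor]
  by_cases av : a = v
  · subst av
    by_cases bu : b = u
    · subst bu
      rw [inn_u, inn_v, z2_false, add_zero]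
      unfold x4
      rw [T.xs2, T.one x b y a hX]
      rfl
    · rw [inn_v, z2_false, zero_add]
      have h3 := sepb (T := T) (w := y) (u := a) (z := x) (v := u) (y := b)
        (by simp [xu, xy, Ne.symm xy, Ne.symm xv, Ne.symm uy, Ne.symm uv, yv, Ne.symm bx, Ne.symm bu,
          Ne.symm by_, ab])
        (by rw [T.xs4]; exact hX)
        (by rw [T.xs4]; exact h1)
      unfold x4
      rw [T.xs6, h3, inn_swap]
  · by_cases bv : b = v
    · subst bv
      by_cases au : a = u
      · subst au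
        rw [inn_u, inn_v, z2_false, add_zero]
        unfold x4
        rw [T.one x a y b hX]
        rfl
      · rw [inn_v, z2_false, add_zero]
        have h3 := sepb (T := T) (w := y) (u := b) (z := x) (v := u) (y := a)
          (by simp [xu, xy, Ne.symm xy, Ne.symm xv, Ne.symm uy, Ne.symm uv, yv, Ne.symm ax, Ne.symm au,
            Ne.symm ay, Ne.symm ab])
          (by rw [T.xs4]; exact hX)
          (by rw [T.xs6]; exact h1)
        unfold x4
        rw [T.xs7, h3, inn_swap]
    · by_cases bu : b = u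
      · have h3 := key b a (Ne.symm ab) bx by_ ax ay bv av (fun h => ab (h.trans bu.symm))
          (by rw [T.xs2]; exact h1) (by rw [T.xs2]; exact h2)
        rw [x4_2, h3, add_comm]
      · exact key a b ab ax ay bx by_ av bv bu h1 h2

/-- potential of the small triangle -/
theorem sm_sum {E : Finset (Sym2 V)} (hE : Clo E) {x u y v : V} (hX : T.X x u y v = true)
    (hxe : ∀ a b, s(a, b) ∈ E → T.X x u a b = false)
    (hye : ∀ a b, s(a, b) ∈ E → T.X y v a b = false) (hx : Off E x) (hl : Lpl E) :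
    pc T E x y = ∑ e ∈ E.filter (fun e => y ∈ e),
      ds (fun a => if a = y then 0 else z2 (inn T x u y v a)) e := by
  have h1 := hE (fun a => if a = y then 0 else z2 (inn T x u y v a))
  unfold pc
  rw [← Finset.sum_filter_add_sum_filter_not E (fun e => y ∈ e)] at h1 ⊢
  have h2 : ∑ e ∈ E.filter (fun e => y ∈ e), xe T x y e = 0 := by
    apply sum_eq_zero
    intro e he
    rw [mem_filter] at he
    obtain ⟨b, rfl⟩ := he.2
    rw [xe_mk, x4_adj3]
  have h3 : ∑ e ∈ E.filter (fun e => ¬ y ∈ e), xe T x y e =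
      ∑ e ∈ E.filter (fun e => ¬ y ∈ e), ds (fun a => if a = y then 0 else z2 (inn T x u y v a)) e := by
    apply sum_congr rfl
    intro e he
    rw [mem_filter] at he
    obtain ⟨he, hy⟩ := he
    induction e with
    | _ a b =>
    rw [Sym2.mem_iff, not_or] at hy
    have hab : a ≠ b := fun h => hl a (by rw [← h] at he; exact he)
    have hax : a ≠ x := fun h => hx b (h ▸ he)
    have hbx : b ≠ x := fun h => hx a (by rw [Sym2.eq_swap]; exact h ▸ he)
    rw [xe_mk, ds_mk, if_neg (Ne.symm hy.1), if_neg (Ne.symm hy.2)]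
    exact sm_edge hX hab hax (Ne.symm hy.1) hbx (Ne.symm hy.2) (hxe a b he) (hye a b he)
  rw [h2, h3, zero_add]
  have h4 := two_z (∑ e ∈ E.filter (fun e => y ∈ e),
      ds (fun a => if a = y then 0 else z2 (inn T x u y v a)) e)
  linear_combination h1 - h4

/-- (SEP1) both off the closed set -/
theorem sep_out {E : Finset (Sym2 V)} (hE : Clo E) {x u y v : V} (hX : T.X x u y v = true)
    (hxe : ∀ a b, s(a, b) ∈ E → T.X x u a b = false)
    (hye : ∀ a b, s(a, b) ∈ E → T.X y v a b = false) (hx : Off E x) (hy : Off E y) (hl : Lpl E) :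
    pc T E x y = 0 := by
  rw [sm_sum hE hX hxe hye hx hl]
  apply sum_eq_zero
  intro e he
  rw [mem_filter] at he
  obtain ⟨b, hb⟩ := he.2
  exact absurd (hb ▸ he.1) (hy b)

/-- (SEP2) `y` on the closed set -/
theorem sep_one {E : Finset (Sym2 V)} (hE : Clo E) {x u y v a b : V} (hX : T.X x u y v = true)
    (hxe : ∀ a b, s(a, b) ∈ E → T.X x u a b = false)
    (hye : ∀ a b, s(a, b) ∈ E → T.X y v a b = false) (hx : Off E x) (hy : Nb E y a b)
    (hv : s(y, v) ∉ E) (hl : Lpl E) :
    pc T E x y = al T y a b x v := by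
  obtain ⟨xu, yv, xy, xv, uy, uv⟩ := T.ne _ _ _ _ hX
  rw [sm_sum hE hX hxe hye hx hl, hy.sum_star, ds_mk, ds_mk]
  have ay : a ≠ y := fun h => hl y (by have := hy.m1; rwa [h] at this)
  have by_ : b ≠ y := fun h => hl y (by have := hy.m2; rwa [h] at this)
  have av : a ≠ v := fun h => hv (h ▸ hy.m1)
  have bv : b ≠ v := fun h => hv (h ▸ hy.m2)
  have ax : a ≠ x := fun h => hx y (by rw [Sym2.eq_swap]; exact h ▸ hy.m1)
  have bx : b ≠ x := fun h => hx y (by rw [Sym2.eq_swap]; exact h ▸ hy.m2)
  rw [if_pos rfl, if_neg ay, if_neg by_, zero_add, zero_add]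
  have ha := hxe y a hy.m1
  have hb := hxe y b hy.m2
  have hab := hy.ne
  unfold al
  by_cases au : a = u
  · subst au
    rw [inn_u, z2_false, zero_add]
    rw [sepd (T := T) (w := x) (u := a) (z := y) (v := v) (b := b)
      (by simp [xu, xy, xv, uy, uv, yv, Ne.symm bx, Ne.symm by_, Ne.symm bv, hab]) hX hb]
  · by_cases bu : b = u
    · subst bu
      rw [inn_u, z2_false, add_zero, T.as1]
      rw [sepd (T := T) (w := x) (u := b) (z := y) (v := v) (b := a)
        (by simp [xu, xy, xv, uy, uv, yv, Ne.symm ax, Ne.symm ay, Ne.symm av, Ne.symm hab]) hX ha]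
    · rw [sepc (T := T) (w := x) (u := u) (z := y) (v := v) (a := a) (b := b)
        (by simp [xu, xy, xv, uy, uv, yv, Ne.symm bx, Ne.symm by_, Ne.symm bv, hab, Ne.symm ax,
          Ne.symm ay, Ne.symm av, Ne.symm au, Ne.symm bu]) hX ha hb, z2_xor]

/-- SEP for polygons: `x` off the polygon, `xu` crosses `c i v`, both uncrossed by the polygon -/
theorem sep_pg (h : Per c n) {w x u v : V} {i : ℕ} (hw : ∀ k, c k ≠ w) (hx : ∀ k, c k ≠ x)
    (hX : T.X x u (c i) v = true) (h1 : Unc T c x u) (h2 : Unc T c (c i) v)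
    (hv1 : v ≠ c (i + 1)) (hv2 : v ≠ c (i + n - 1)) :
    pc T (pe c n) x w = pfl T c n w i v := by
  have nb := h.nb i
  obtain ⟨xu, yv, xy, xv, uy, uv⟩ := T.ne _ _ _ _ hX
  have g : ∀ {p q : V}, Unc T c p q → ∀ a b, s(a, b) ∈ pe c n → T.X p q a b = false := by
    intro p q hu a b hab
    obtain ⟨k, hk⟩ := h.mem_pe.1 hab
    rw [Sym2.eq_iff] at hk
    rcases hk with ⟨r1, r2⟩ | ⟨r1, r2⟩
    · rw [r1, r2]; exact hu k
    · rw [r1, r2, T.xs2]; exact hu k
  have hvE : s(c i, v) ∉ pe c n := by
    intro h3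
    rcases nb.only _ h3 with h4 | h4
    · exact hv1 h4
    · exact hv2 h4
  have h3 := sep_one h.clo hX (g h1) (g h2) (h.off hx) nb hvE h.lpl
  have h4 := pfl_off h hw hx i (T := T)
  have n1 : c i ≠ c (i + 1) := h.ne_succ i
  have n2 : c i ≠ c (i + n - 1) := h.ne_of (by have := h.three; omega) (by have := h.three; omega)
  have h5 := al_add (T := T) (u := c i) (a := c (i + 1)) (b := c (i + n - 1)) (y := x) (z := v) (w := w)
    n1 n2 nb.ne xy (hx _).symm (hx _).symm (Ne.symm yv) hv1 hv2 (hw i).symm (hw _).symm (hw _).symm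
  unfold pfl at h4 ⊢
  rw [pc_symm T _ (c i) x, h3] at h4
  have h6 := two_z (al T (c i) (c (i + 1)) (c (i + n - 1)) v w)
  linear_combination h5 - h4 - h6

end H30P
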