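import Pool.Agent.Lib.H30P.Sat

/-!
# H30P, file K5: clauses of five points for the checker
-/

set_option autoImplicit false

namespace H30P

open H53P

/-- the mask of the true literals of fifteen Booleans -/
def lm (b : ℕ → Bool) : ℕ → ℕ
  | 0 => 0
  | n + 1 => lm b n ||| (bif b n then 1 <<< (2 * n) else 1 <<< (2 * n + 1))

theorem lm_test (b : ℕ → Bool) : ∀ (n l : ℕ), (lm b n).testBit l = true → l < 2 * n ∧ lit b l = true := by
  intro n
  induction n with
  | zero =>
    intro l h
    unfold lm at h
    rw [Nat.zero_testBit] at h
    cases h
  | succ n ih =>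
    intro l h
    unfold lm at h
    rw [Nat.testBit_or] at h
    cases h1 : (lm b n).testBit l with
    | true =>
      obtain ⟨a1, a2⟩ := ih l h1
      exact ⟨by omega, a2⟩
    | false =>
      rw [h1, Bool.false_or] at h
      cases hb : b n with
      | true =>
        rw [hb] at h
        simp only [cond_true, Nat.one_shiftLeft, Nat.testBit_two_pow] at h
        have h2 : 2 * n = l := by simpa using h
        subst h2
        refine ⟨by omega, ?_⟩
        unfold lit
        have e1 : 2 * n / 2 = n := by omega
        have e2 : 2 * n % 2 = 0 := by omega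
        rw [e1, e2, hb]
        rfl
      | false =>
        rw [hb] at h
        simp only [cond_false, Nat.one_shiftLeft, Nat.testBit_two_pow] at h
        have h2 : 2 * n + 1 = l := by simpa using h
        subst h2
        refine ⟨by omega, ?_⟩
        unfold lit
        have e1 : (2 * n + 1) / 2 = n := by omega
        have e2 : (2 * n + 1) % 2 = 1 := by omega
        rw [e1, e2, hb]
        rfl

/-- fifteen Booleans as a function -/
def b15 (b0 b1 b2 b3 b4 b5 b6 b7 b8 b9 b10 b11 b12 b13 b14 : Bool) (n : ℕ) : Bool :=
  [b0, b1, b2, b3, b4, b5, b6, b7, b8, b9, b10, b11, b12, b13, b14].getD n false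

/-- the masks of the possible tables -/
def L207 : List ℕ := [
  715827881, 715827878, 715827866, 715827818, 715827626, 715826858, 715823786, 715823718, 715823706,
  715823529, 715822761, 715811498, 715811433, 715811238, 715811226, 715810458, 715762346, 715762281,
  715762086, 715761318, 715761306, 715565738, 715565670, 715565481, 715565466, 715564710, 715561641,
  715561638, 715561578, 715561386, 715549338, 715549098, 715500198, 715499178, 714779306, 714779241,
  714779226, 714779046, 714778266, 714775194, 714775146, 714762921, 714762918, 714762858, 714762666,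
  714713754, 714712746, 711633578, 711633513, 711633318, 711632553, 711632538, 711629481, 711628458,
  711617178, 711616170, 711568041, 711568038, 711567978, 711567786, 699050666, 699050586, 699050394,
  699049641, 699049638, 699046569, 699046554, 699046506, 699045546, 699034266, 699034026, 698985126,
  698984106, 698788518, 698788506, 698788266, 698787498, 698784358, 698784346, 698784169, 698784154,
  698783401, 698783398, 698772138, 698771878, 698771866, 698771098, 698722986, 698722726, 698721958,
  698721946, 698002074, 698002026, 697997994, 697997929, 697997914, 697996954, 697985626, 697985434,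
  697935514, 694856361, 694855338, 694852266, 694852201, 694851241, 694851226, 694838938, 694789801,
  694789798, 648719018, 648718953, 648718950, 648718758, 648717978, 648714918, 648714858, 648702630,
  648702378, 648653481, 648653466, 648653418, 648652458, 648456870, 648456810, 648452778, 648452713,
  648452710, 648452518, 648440230, 648391270, 648390310, 647670438, 647670426, 647670186, 647669418,
  647666278, 647666266, 647654058, 647653993, 647653990, 647653798, 647653786, 647653018, 647604906,
  647604841, 647604826, 647604646, 647603878, 647603866, 644524713, 644524650, 644520553, 644459178,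
  644459113, 644459110, 644458918, 644458153, 644458138, 447392426, 447392361, 447392169, 447392166,
  447391386, 447388329, 447388074, 447376041, 447376026, 447375978, 447375018, 447326886, 447326634,
  447130281, 447130026, 447126186, 447126121, 447125929, 447125926, 447113641, 447113626, 447064486,
  446343849, 446343786, 446339689, 446327466, 446327401, 446327386, 446327209, 446327206, 446326426,
  443198118, 443198106, 443197866, 443197098, 443193769, 443193001, 443181738, 443181673, 443181478,
  443181466, 443180713, 443180698, 443132586, 443132521, 443132329, 443132326, 443131558, 443131546]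

theorem mem207 : ∀ b0 b1 b2 b3 b4 b5 b6 b7 b8 b9 b10 b11 b12 b13 b14 : Bool,
    (!(ok5 b0 b1 b2 b3 b4 b5 b6 b7 b8 b9 b10 b11 b12 b13 b14) ||
      L207.contains (lm (b15 b0 b1 b2 b3 b4 b5 b6 b7 b8 b9 b10 b11 b12 b13 b14) 15)) = true := by
  decide +kernel

/-- the clause `c` holds in all possible tables -/
def val5 (c : ℕ) : Bool := L207.all fun w => !(Nat.beq (c &&& w) 0)

theorem val5_sound {c : ℕ} (hc : val5 c = true)
    {b0 b1 b2 b3 b4 b5 b6 b7 b8 b9 b10 b11 b12 b13 b14 : Bool}
    (h : ok5 b0 b1 b2 b3 b4 b5 b6 b7 b8 b9 b10 b11 b12 b13 b14 = true) :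
    ∃ l < 30, c.testBit l = true ∧
      lit (b15 b0 b1 b2 b3 b4 b5 b6 b7 b8 b9 b10 b11 b12 b13 b14) l = true := by
  have h1 := mem207 b0 b1 b2 b3 b4 b5 b6 b7 b8 b9 b10 b11 b12 b13 b14
  rw [h, Bool.not_true, Bool.false_or, List.contains_iff_mem] at h1
  obtain ⟨w, hw⟩ : ∃ w, w = lm (b15 b0 b1 b2 b3 b4 b5 b6 b7 b8 b9 b10 b11 b12 b13 b14) 15 := ⟨_, rfl⟩
  rw [← hw] at h1
  have h2 := List.all_eq_true.1 hc w h1
  have h3 : c &&& w ≠ 0 := by
    intro h4
    rw [h4] at h2
    cases h2
  obtain ⟨l, hl⟩ := Nat.exists_testBit_of_ne_zero h3
  rw [Nat.testBit_and, Bool.and_eq_true] at hl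
  have h5 := hl.2
  rw [hw] at h5
  obtain ⟨a1, a2⟩ := lm_test _ 15 l h5
  exact ⟨l, by omega, hl.1, a2⟩

end H30P
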