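import Pool.Agent.Lib.H30P.UpB

/-!
# H30P, file LoR: the lower room of two crossing bridging edges (I5)

`wL a b i`: the path `a i, .., a 1, v, b 1, .., b j`. `lo_room`: it is the path of a room with `A = a k`,
`B = b l`; `lo_nch`: the chords of the room which straddle `v` are the bridging edges below `c` and `d`.
The proof reverses the two cycles.
-/

set_option autoImplicit false
set_option linter.unusedSectionVars false
set_option linter.unusedVariables false

namespace H30P

open H53P H36L H10S Finset

section

variable {V : Type*} [DecidableEq V] {T : Table V} {w w' : ℕ → V} {p : ℕ} {A B : V}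

theorem re_congr (hw : ∀ t ≤ p, w t = w' t) : re w p = re w' p := by
  unfold re
  rw [hw p le_rfl, hw 0 (by omega)]
  congr 1
  apply image_congr
  intro k hk
  rw [mem_coe, mem_range] at hk
  show s(w k, w (k + 1)) = s(w' k, w' (k + 1))
  rw [hw k (by omega), hw (k + 1) (by omega)]

theorem rs_congr (hw : ∀ t ≤ p, w t = w' t) (x : V) : rs T w p A B x = rs T w' p A B x := by
  unfold rs
  rw [re_congr hw, hw p le_rfl, hw 0 (by omega)]

theorem rf_congr (hw : ∀ t ≤ p, w t = w' t) {i : ℕ} (h1 : 0 < i) (h2 : i < p) (x : V) :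
    rf T w p A B i x = rf T w' p A B i x := by
  unfold rf
  rw [rs_congr hw, hw i (by omega), hw (i + 1) (by omega), hw (i - 1) (by omega)]

/-- a room depends only on the vertices of the path -/
theorem Room.congr (hw : ∀ t ≤ p, w t = w' t) (h : Room T w p A B) : Room T w' p A B where
  two := h.two
  inj i hi j hj hij := by
    rw [← hw i hi, ← hw j hj] at hij
    exact h.inj i hi j hj hij
  offA i hi := by rw [← hw i hi]; exact h.offA i hi
  offB i hi := by rw [← hw i hi]; exact h.offB i hi
  plane i hi j hj := by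
    rw [← hw i (by omega), ← hw (i + 1) (by omega), ← hw j (by omega), ← hw (j + 1) (by omega)]
    exact h.plane i hi j hj
  crs := by rw [← hw 0 (by omega), ← hw p le_rfl]; exact h.crs
  unc i hi := by
    rw [← hw 0 (by omega), ← hw i (by omega), ← hw (i + 1) (by omega)]
    exact h.unc i hi
  und i hi := by
    rw [← hw p le_rfl, ← hw i (by omega), ← hw (i + 1) (by omega)]
    exact h.und i hi

theorem nch_congr (hw : ∀ t ≤ p, w t = w' t) {i j : ℕ} (h : NCh T w p A B i j) : NCh T w' p A B i j where
  lt := h.lt
  le := h.le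
  mis t ht := by
    have h1 := h.lt
    have h2 := h.le
    rw [← hw i (by omega), ← hw j (by omega), ← hw t (by omega), ← hw (t + 1) (by omega)]
    exact h.mis t ht
  mc := by
    have h1 := h.lt
    have h2 := h.le
    rw [← hw i (by omega), ← hw j (by omega), ← hw 0 (by omega)]
    exact h.mc
  md := by
    have h1 := h.lt
    have h2 := h.le
    rw [← hw i (by omega), ← hw j (by omega), ← hw p (by omega)]
    exact h.md
  l h0 := by
    have h1 := h.lt
    have h2 := h.le
    rw [← rf_congr hw h0 (by omega), ← hw j (by omega)]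
    exact h.l h0
  r h0 := by
    have h1 := h.lt
    have h2 := h.le
    rw [← rf_congr hw (by omega) h0, ← hw i (by omega)]
    exact h.r h0
  g e1 e2 := by
    have h1 := h.lt
    have h2 := h.le
    rw [← hw 0 (by omega), ← hw p (by omega), ← hw 1 (by omega)]
    exact h.g e1 e2

theorem nch_iff_congr (hw : ∀ t ≤ p, w t = w' t) {i j : ℕ} : NCh T w p A B i j ↔ NCh T w' p A B i j :=
  ⟨nch_congr hw, nch_congr fun t ht => (hw t ht).symm⟩

end

variable {V : Type*} [DecidableEq V] {T : Table V} {a b : ℕ → V} {p m i k l j : ℕ}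

theorem rv_a (h : Two T a p b m) {t : ℕ} (h1 : 1 ≤ t) (h2 : t ≤ p) : rv a (p + 1) t = a (p + 1 - t) :=
  rv_of (by omega)

/-- a bridging edge of the reversed cycles -/
theorem br_rv (h : Two T a p b m) {x y : ℕ} (hx : 1 ≤ x) (hx' : x ≤ p) (hy : 1 ≤ y) (hy' : y ≤ m) :
    Br T (rv a (p + 1)) (rv b (m + 1)) p m (p + 1 - x) (m + 1 - y) ↔ Br T a b p m x y := by
  have e1 : rv a (p + 1) (p + 1 - x) = a x := by
    rw [rv_of (by omega), show p + 1 - (p + 1 - x) = x by omega]
  have e2 : rv b (m + 1) (m + 1 - y) = b y := by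
    rw [rv_of (by omega), show m + 1 - (m + 1 - y) = y by omega]
  constructor
  · rintro ⟨h1, h2, h3, h4, h5⟩
    rw [e1, e2] at h5
    refine ⟨hx, hx', hy, hy', ?_⟩
    have h6 := h5.rva h.rva.rvb
    rw [rv_rv h.pa.toPer] at h6
    have h7 := h6.rvb h.rvb
    rw [rv_rv h.pb.toPer] at h7
    exact h7
  · rintro ⟨h1, h2, h3, h4, h5⟩
    refine ⟨by omega, by omega, by omega, by omega, ?_⟩
    rw [e1, e2]
    exact (h5.rva h).rvb h.rva

/-- the reversed configuration -/
theorem Cd.rev (h : Cd T a b p m i k l j) :
    Cd T (rv a (p + 1)) (rv b (m + 1)) p m (p + 1 - k) (p + 1 - i) (m + 1 - j) (m + 1 - l) where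
  two := h.two.rva.rvb
  crn := by
    have har := h.ar
    have p3 := h.two.pa.three
    have m3 := h.two.pb.three
    have hc := h.crn
    unfold Crn at hc ⊢
    rw [rv_zero h.two.pa.toPer, rv_of (by omega), rv_of (by omega), rv_of (by omega), rv_of (by omega),
      show p + 1 - 1 = p by omega, show m + 1 - 1 = m by omega, show p + 1 - p = 1 by omega,
      show m + 1 - m = 1 by omega, T.as4]
    exact hc
  ik := by have := h.ar; omega
  jl := by have := h.ar; omega
  c := by
    have har := h.ar
    exact (br_rv h.two (by omega) (by omega) (by omega) (by omega)).2 h.d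
  d := by
    have har := h.ar
    exact (br_rv h.two (by omega) (by omega) (by omega) (by omega)).2 h.c

/-- the lower path -/
def wL (a b : ℕ → V) (i : ℕ) (t : ℕ) : V := if t ≤ i then a (i - t) else b (t - i)

theorem wL_eq (h : Cd T a b p m i k l j) : ∀ t ≤ i + j,
    wU (rv a (p + 1)) (rv b (m + 1)) p m (p + 1 - k) (p + 1 - i) (m + 1 - j) t = wL a b i t := by
  intro t ht
  have har := h.ar
  unfold wL
  by_cases h1 : t ≤ i
  · rw [if_pos h1, wU_a (by omega)]
    by_cases h2 : t = i
    · rw [h2, show p + 1 - i + i = p + 1 by omega, rv_top h.two.pa.toPer, Nat.sub_self]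
    · rw [rv_of (by omega), show p + 1 - (p + 1 - i + t) = i - t by omega]
  · rw [if_neg h1]
    have h2 := wU_b h.rev (t := t - i) (by omega)
    rw [show p + 1 - (p + 1 - i) + (t - i) = t by omega, rv_of (by omega),
      show m + 1 - (m + 1 - (t - i)) = t - i by omega] at h2
    exact h2

theorem lo_len (h : Cd T a b p m i k l j) : p + 1 - (p + 1 - i) + (m + 1 - (m + 1 - j)) = i + j := by
  have := h.ar
  omega

/-- the lower room -/
theorem lo_room (h : Cd T a b p m i k l j) : Room T (wL a b i) (i + j) (a k) (b l) := by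
  have har := h.ar
  have h1 := up_room h.rev
  rw [lo_len h, rv_of (by omega), rv_of (by omega), show p + 1 - (p + 1 - k) = k by omega,
    show m + 1 - (m + 1 - l) = l by omega] at h1
  exact h1.congr (wL_eq h)

/-- (I5) for the lower room -/
theorem lo_nch (h : Cd T a b p m i k l j) {s t : ℕ} (hs : s < i) (ht : i < t) (tq : t ≤ i + j) :
    NCh T (wL a b i) (i + j) (a k) (b l) s t ↔ Br T a b p m (i - s) (t - i) := by
  have har := h.ar
  have h1 := up_nch h.rev (s := s) (t := t) (by omega) (by omega) (by omega)
  rw [lo_len h, rv_of (by omega), rv_of (by omega), show p + 1 - (p + 1 - k) = k by omega,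
    show m + 1 - (m + 1 - l) = l by omega, nch_iff_congr (wL_eq h),
    show p + 1 - i + s = p + 1 - (i - s) by omega,
    show m + 1 - (t - (p + 1 - (p + 1 - i))) = m + 1 - (t - i) by omega,
    br_rv h.two (by omega) (by omega) (by omega) (by omega)] at h1
  exact h1

theorem wL_0 : wL a b i 0 = a i := by
  unfold wL
  rw [if_pos (Nat.zero_le _), Nat.sub_zero]

theorem wL_v : wL a b i i = a 0 := by
  unfold wL
  rw [if_pos le_rfl, Nat.sub_self]

theorem wL_q (hj : 1 ≤ j) : wL a b i (i + j) = b j := by
  unfold wL
  rw [if_neg (by omega), show i + j - i = j by omega]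

end H30P
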