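import Pool.Agent.Lib.H30P.Asm
import Pool.Agent.Lib.H56C.C2

/-!
# H30P, file Ne: there is a bridging edge
-/

set_option autoImplicit false
set_option linter.unusedSectionVars false

namespace H30P

open H53P Finset

variable {V : Type*} [Fintype V] [DecidableEq V] {T : Table V} {a b : ℕ → V} {p m : ℕ}
  {cross : Sym2 V → Sym2 V → Prop}

/-- there is a bridging edge -/
theorem br_ne (h : Two T a p b m) (hS : Sees T cross) (hG : H98M.Geo cross) :
    ∃ i j, Br T a b p m i j := by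
  classical
  have hA := h.pa.toPer
  have hB := h.pb.toPer
  have p3 := hA.three
  have m3 := hB.three
  obtain ⟨A, hAd⟩ : ∃ A : Finset V, A = (Icc 1 p).image a := ⟨_, rfl⟩
  obtain ⟨B, hBd⟩ : ∃ B : Finset V, B = (Icc 1 m).image b := ⟨_, rfl⟩
  have mA : ∀ x, x ∈ A ↔ ∃ i, 1 ≤ i ∧ i ≤ p ∧ x = a i := by
    intro x
    rw [hAd, mem_image]
    constructor
    · rintro ⟨i, hi, rfl⟩
      rw [mem_Icc] at hi
      exact ⟨i, hi.1, hi.2, rfl⟩
    · rintro ⟨i, h1, h2, rfl⟩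
      exact ⟨i, mem_Icc.2 ⟨h1, h2⟩, rfl⟩
  have mB : ∀ x, x ∈ B ↔ ∃ i, 1 ≤ i ∧ i ≤ m ∧ x = b i := by
    intro x
    rw [hBd, mem_image]
    constructor
    · rintro ⟨i, hi, rfl⟩
      rw [mem_Icc] at hi
      exact ⟨i, hi.1, hi.2, rfl⟩
    · rintro ⟨i, h1, h2, rfl⟩
      exact ⟨i, mem_Icc.2 ⟨h1, h2⟩, rfl⟩
  have vA : a 0 ∉ A := by
    rw [mA]
    rintro ⟨i, h1, h2, h3⟩
    exact hA.ne_of (i := 0) (j := i) (by omega) (by omega) h3
  have vB : a 0 ∉ B := by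
    rw [mB]
    rintro ⟨i, h1, h2, h3⟩
    exact h.dis0 (i := 0) (j := i) (by omega) (by omega) (by omega) h3
  have hAB : Disjoint A B := by
    rw [disjoint_left]
    intro x hx hx'
    obtain ⟨i, h1, h2, rfl⟩ := (mA x).1 hx
    obtain ⟨j, _, _, h5⟩ := (mB _).1 hx'
    exact h.dis i j h1 h2 h5
  obtain ⟨W, hW⟩ : ∃ W, W = insert (a 0) (A ∪ B) := ⟨_, rfl⟩
  have aW : ∀ k, a k ∈ W := by
    intro k
    rw [← hA.mod k, hW, mem_insert, mem_union, mA]
    have h1 : k % (p + 1) < p + 1 := Nat.mod_lt _ (by omega)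
    rcases Nat.eq_zero_or_pos (k % (p + 1)) with h2 | h2
    · left; rw [h2]
    · right; left
      exact ⟨_, by omega, by omega, rfl⟩
  have bW : ∀ k, b k ∈ W := by
    intro k
    rw [← hB.mod k, hW, mem_insert, mem_union, mB]
    have h1 : k % (m + 1) < m + 1 := Nat.mod_lt _ (by omega)
    rcases Nat.eq_zero_or_pos (k % (m + 1)) with h2 | h2
    · left; rw [h2, h.v0]
    · right; right
      exact ⟨_, by omega, by omega, rfl⟩
  obtain ⟨R, hR1, hR2⟩ := H36L.exists_maxP hS.symm hS.irr (W := W) (F := pe a (p + 1) ∪ pe b (m + 1)) (by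
      intro e he
      rw [mem_union] at he
      rcases he with he | he
      · obtain ⟨k, rfl⟩ := hA.mem_pe.1 he
        exact H98Z.mem_LW.2 ⟨aW _, aW _, hA.ne_succ k⟩
      · obtain ⟨k, rfl⟩ := hB.mem_pe.1 he
        exact H98Z.mem_LW.2 ⟨bW _, bW _, hB.ne_succ k⟩) (by
      intro e he f hf
      rw [mem_union] at he hf
      rcases he with he | he <;> rcases hf with hf | hf
      · exact pe_plane h.pa hS e he f hf
      · obtain ⟨k, rfl⟩ := hA.mem_pe.1 he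
        obtain ⟨l, rfl⟩ := hB.mem_pe.1 hf
        rw [hS.iff, h.un]
        simp
      · obtain ⟨k, rfl⟩ := hB.mem_pe.1 he
        obtain ⟨l, rfl⟩ := hA.mem_pe.1 hf
        rw [hS.iff, T.xs4, h.un]
        simp
      · exact pe_plane h.pb hS e he f hf)
  obtain ⟨x, hx, y, hy, hxy⟩ := H56C.two_conn hG hR2 (a 0) (A := A) (B := B)
    ⟨a 1, (mA _).2 ⟨1, le_rfl, by omega, rfl⟩⟩ ⟨b 1, (mB _).2 ⟨1, le_rfl, by omega, rfl⟩⟩ hAB (by
      rw [hW, erase_insert]
      rw [mem_union, not_or]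
      exact ⟨vA, vB⟩)
  obtain ⟨i, i1, ip, rfl⟩ := (mA x).1 hx
  obtain ⟨j, j1, jm, rfl⟩ := (mB y).1 hy
  have hX : ∀ f ∈ pe a (p + 1) ∪ pe b (m + 1), ¬ cross s(a i, b j) f := fun f hf =>
    hR2.2.1 _ hxy f (hR1 hf)
  refine ⟨i, j, i1, ip, j1, jm, fun k => ?_, fun k => ?_⟩
  · have h1 := hX _ (mem_union_left _ (hA.mem_pe.2 ⟨k, rfl⟩))
    rw [hS.iff] at h1
    simpa using h1
  · have h1 := hX _ (mem_union_right _ (hB.mem_pe.2 ⟨k, rfl⟩))
    rw [hS.iff] at h1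
    simpa using h1

end H30P
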