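import Pool.Agent.Lib.H98S.Rot

/-!
# H30P, file Par: parity of crossings with closed edge sets

`x4 a b c d` = 1 if `ab`, `cd` cross, in `ZMod 2`. `ptn T x y E` = number of edges of `E` crossing `xy`, mod 2.
`Clo E`: every vertex function sums to zero over `E` (all degrees are even).
-/

set_option autoImplicit false

namespace H30P

open H53P Finset

variable {V : Type*}

/-- Boolean as an element of `ZMod 2` -/
def z2 (b : Bool) : ZMod 2 := bif b then 1 else 0

theorem z2_xor (a b : Bool) : z2 (a ^^ b) = z2 a + z2 b := by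
  cases a <;> cases b <;> rfl

theorem z2_false : z2 false = 0 := rfl

theorem z2_true : z2 true = 1 := rfl

theorem z2_inj {a b : Bool} (h : z2 a = z2 b) : a = b := by
  cases a <;> cases b
  · rfl
  · exact absurd h (by decide)
  · exact absurd h (by decide)
  · rfl

theorem two_z (a : ZMod 2) : a + a = 0 := CharTwo.add_self_eq_zero a

/-- crossing as an element of `ZMod 2` -/
def x4 (T : Table V) (a b c d : V) : ZMod 2 := z2 (T.X a b c d)

theorem x4_1 (T : Table V) (a b c d : V) : x4 T a b c d = x4 T b a c d := by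
  unfold x4
  rw [T.xs1]

theorem x4_2 (T : Table V) (a b c d : V) : x4 T a b c d = x4 T a b d c := by
  unfold x4
  rw [T.xs2]

theorem x4_4 (T : Table V) (a b c d : V) : x4 T a b c d = x4 T c d a b := by
  unfold x4
  rw [T.xs4]

theorem x4_adj1 (T : Table V) (a b d : V) : x4 T a b a d = 0 := by
  unfold x4
  cases h : T.X a b a d with
  | false => rfl
  | true => exact absurd rfl (T.ne _ _ _ _ h).2.2.1

theorem x4_adj2 (T : Table V) (a b c : V) : x4 T a b c a = 0 := by
  rw [x4_2, x4_adj1]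

theorem x4_adj3 (T : Table V) (a b d : V) : x4 T a b b d = 0 := by
  rw [x4_1, x4_adj1]

theorem x4_adj4 (T : Table V) (a b c : V) : x4 T a b c b = 0 := by
  rw [x4_1, x4_adj2]

theorem x4_deg1 (T : Table V) (a c d : V) : x4 T a a c d = 0 := by
  unfold x4
  cases h : T.X a a c d with
  | false => rfl
  | true => exact absurd rfl (T.ne _ _ _ _ h).1

theorem x4_deg2 (T : Table V) (a b c : V) : x4 T a b c c = 0 := by
  rw [x4_4, x4_deg1]

/-- parity of the crossings of the edge `ab` with the triangle `xyz` -/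
def tt (T : Table V) (x y z a b : V) : ZMod 2 := x4 T x y a b + x4 T y z a b + x4 T z x a b

theorem tt_self (T : Table V) (x y z a : V) : tt T x y z a a = 0 := by
  unfold tt
  rw [x4_deg2, x4_deg2, x4_deg2]
  rfl

theorem tt_symm (T : Table V) (x y z a b : V) : tt T x y z a b = tt T x y z b a := by
  unfold tt
  rw [x4_2 T x y, x4_2 T y z, x4_2 T z x]

theorem tt_swap (T : Table V) (x y z a b : V) : tt T x y z a b = tt T y x z a b := by
  unfold tt
  rw [x4_1 T x y, x4_1 T y z, x4_1 T z x]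
  ring

theorem tt_rot (T : Table V) (x y z a b : V) : tt T x y z a b = tt T y z x a b := by
  unfold tt
  ring

theorem tt_tri (T : Table V) {x y z a b c : V} (xy : x ≠ y) (yz : y ≠ z) (zx : z ≠ x)
    (ax : a ≠ x) (ay : a ≠ y) (az : a ≠ z) (bx : b ≠ x) (by_ : b ≠ y) (bz : b ≠ z)
    (cx : c ≠ x) (cy : c ≠ y) (cz : c ≠ z) :
    tt T x y z a b + tt T x y z b c = tt T x y z a c := by
  have h := T.tri x y z xy yz zx a b c ax ay az bx by_ bz cx cy cz
  have h1 := congrArg z2 h
  unfold crTX at h1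
  simp only [z2_xor, z2_false] at h1
  change (x4 T a b x y + x4 T a b y z + x4 T a b z x) + (x4 T b c x y + x4 T b c y z + x4 T b c z x) +
    (x4 T c a x y + x4 T c a y z + x4 T c a z x) = 0 at h1
  unfold tt
  rw [x4_4 T x y a b, x4_4 T y z a b, x4_4 T z x a b, x4_4 T x y b c, x4_4 T y z b c, x4_4 T z x b c,
    x4_4 T x y a c, x4_4 T y z a c, x4_4 T z x a c, x4_1 T a c, x4_1 T a c, x4_1 T a c]
  have h2 := two_z (x4 T c a x y + x4 T c a y z + x4 T c a z x)
  linear_combination h1 - h2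

/-- alternation at `u` in `ZMod 2` -/
def al (T : Table V) (u a b c d : V) : ZMod 2 := z2 (T.alt u a b c d)

theorem al_eq (T : Table V) (u a b c d : V) : al T u a b c d =
    tt T u c d a b + x4 T c d u a + x4 T c d u b := by
  unfold al Table.alt altX tt
  simp only [z2_xor]
  change x4 T u a c d + x4 T u b c d + x4 T a b u c + x4 T a b u d + x4 T a b c d = _
  rw [x4_4 T u a c d, x4_4 T u b c d, x4_4 T a b u c, x4_4 T a b u d, x4_4 T a b c d, x4_1 T u d a b]
  ring

theorem al_self (T : Table V) (u a b c : V) : al T u a b c c = 0 := by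
  rw [al_eq]
  unfold tt
  rw [x4_deg1, x4_deg1, x4_deg1, x4_1 T c u a b, add_zero, add_zero, add_zero, two_z]

section

variable [DecidableEq V]

/-- the function `f a + f b` on edges -/
def ds (f : V → ZMod 2) : Sym2 V → ZMod 2 :=
  Sym2.lift ⟨fun a b => f a + f b, fun a b => add_comm _ _⟩

@[simp] theorem ds_mk (f : V → ZMod 2) (a b : V) : ds f s(a, b) = f a + f b := rfl

/-- crossing of `xy` with an edge -/
def xe (T : Table V) (x y : V) : Sym2 V → ZMod 2 :=
  Sym2.lift ⟨fun a b => x4 T x y a b, fun a b => x4_2 T x y a b⟩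

@[simp] theorem xe_mk (T : Table V) (x y a b : V) : xe T x y s(a, b) = x4 T x y a b := rfl

/-- parity of the number of edges of `E` which cross `xy` -/
def pc (T : Table V) (E : Finset (Sym2 V)) (x y : V) : ZMod 2 := ∑ e ∈ E, xe T x y e

/-- all degrees of `E` are even -/
def Clo (E : Finset (Sym2 V)) : Prop := ∀ f : V → ZMod 2, ∑ e ∈ E, ds f e = 0

theorem pc_symm (T : Table V) (E : Finset (Sym2 V)) (x y : V) : pc T E x y = pc T E y x := by
  unfold pc
  apply Finset.sum_congr rfl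
  intro e _
  induction e with
  | _ a b => rw [xe_mk, xe_mk, x4_1]

theorem pc_self (T : Table V) (E : Finset (Sym2 V)) (x : V) : pc T E x x = 0 := by
  unfold pc
  apply Finset.sum_eq_zero
  intro e _
  induction e with
  | _ a b => rw [xe_mk, x4_deg1]

/-- no edge of `E` contains `x` -/
def Off (E : Finset (Sym2 V)) (x : V) : Prop := ∀ a, s(x, a) ∉ E

/-- exactly the two edges `xa`, `xa'` of `E` contain `x` -/
structure Nb (E : Finset (Sym2 V)) (x a a' : V) : Prop where
  ne : a ≠ a'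
  m1 : s(x, a) ∈ E
  m2 : s(x, a') ∈ E
  only : ∀ b, s(x, b) ∈ E → b = a ∨ b = a'

/-- `E` has no loops -/
def Lpl (E : Finset (Sym2 V)) : Prop := ∀ a, s(a, a) ∉ E

/-- (P1) cocycle outside -/
theorem pc_out {T : Table V} {E : Finset (Sym2 V)} (hE : Clo E) {x y z : V} (xy : x ≠ y) (yz : y ≠ z)
    (zx : z ≠ x) (hx : Off E x) (hy : Off E y) (hz : Off E z) :
    pc T E x y + pc T E y z + pc T E z x = 0 := by
  rcases E.eq_empty_or_nonempty with h0 | ⟨e0, he0⟩
  · unfold pc
    rw [h0]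
    simp
  induction e0 with
  | _ o o' =>
  have h1 := hE (fun v => tt T x y z v o)
  unfold pc
  rw [← Finset.sum_add_distrib, ← Finset.sum_add_distrib, ← h1]
  apply Finset.sum_congr rfl
  intro e he
  induction e with
  | _ a b =>
  have off : ∀ u v, s(u, v) ∈ E → u ≠ x ∧ u ≠ y ∧ u ≠ z := by
    intro u v h
    refine ⟨?_, ?_, ?_⟩ <;> intro h2 <;> subst h2
    · exact hx v h
    · exact hy v h
    · exact hz v h
  have ha := off a b he
  have hb := off b a (by rw [Sym2.eq_swap]; exact he)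
  have ho := off o o' he0
  rw [xe_mk, xe_mk, xe_mk, ds_mk]
  have h2 := tt_tri T xy yz zx ha.1 ha.2.1 ha.2.2 ho.1 ho.2.1 ho.2.2 hb.1 hb.2.1 hb.2.2
  rw [tt_symm T x y z b o]
  rw [h2]
  rfl

/-- membership in the link of a vertex -/
theorem Nb.sum_star {E : Finset (Sym2 V)} {x a a' : V} (h : Nb E x a a') (g : Sym2 V → ZMod 2) :
    ∑ e ∈ E.filter (fun e => x ∈ e), g e = g s(x, a) + g s(x, a') := by
  have h1 : E.filter (fun e => x ∈ e) = {s(x, a), s(x, a')} := by
    ext e
    rw [mem_filter, mem_insert, mem_singleton]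
    constructor
    · rintro ⟨h2, h3⟩
      obtain ⟨b, rfl⟩ := h3
      rcases h.only b h2 with rfl | rfl
      · exact Or.inl rfl
      · exact Or.inr rfl
    · rintro (rfl | rfl)
      · exact ⟨h.m1, Sym2.mem_mk_left _ _⟩
      · exact ⟨h.m2, Sym2.mem_mk_left _ _⟩
  rw [h1, Finset.sum_pair]
  intro h2
  rw [Sym2.eq_iff] at h2
  rcases h2 with ⟨_, h2⟩ | ⟨h2, h3⟩
  · exact h.ne h2
  · exact h.ne (h3.trans h2)

/-- (P2) one vertex on the closed set -/
theorem pc_one {T : Table V} {E : Finset (Sym2 V)} (hE : Clo E) {u a b y z : V} (hu : Nb E u a b)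
    (uy : u ≠ y) (uz : u ≠ z) (yz : y ≠ z) (hy : Off E y) (hz : Off E z) (hl : Lpl E) :
    pc T E u y + pc T E y z + pc T E z u = al T u a b y z := by
  have aa : a ≠ u := fun h => hl u (by have := hu.m1; rwa [h] at this)
  have bb : b ≠ u := fun h => hl u (by have := hu.m2; rwa [h] at this)
  have off : ∀ s t, s(s, t) ∈ E → s ≠ y ∧ s ≠ z := by
    intro s t h
    refine ⟨?_, ?_⟩ <;> intro h2 <;> subst h2
    · exact hy t h
    · exact hz t h
  have h1 := hE (fun v => if v = u then 0 else tt T u y z v a)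
  have h2 : pc T E u y + pc T E y z + pc T E z u = ∑ e ∈ E, (xe T u y e + xe T y z e + xe T z u e) := by
    unfold pc
    rw [← Finset.sum_add_distrib, ← Finset.sum_add_distrib]
  rw [h2]
  rw [← Finset.sum_filter_add_sum_filter_not E (fun e => u ∈ e)] at h1 ⊢
  rw [hu.sum_star] at h1 ⊢
  have h3 : ∑ e ∈ E.filter (fun e => ¬ u ∈ e), (xe T u y e + xe T y z e + xe T z u e) =
      ∑ e ∈ E.filter (fun e => ¬ u ∈ e), ds (fun v => if v = u then 0 else tt T u y z v a) e := by
    apply Finset.sum_congr rfl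
    intro e he
    rw [mem_filter] at he
    obtain ⟨he, hue⟩ := he
    induction e with
    | _ c d =>
    rw [Sym2.mem_iff, not_or] at hue
    have hc := off c d he
    have hd := off d c (by rw [Sym2.eq_swap]; exact he)
    have ha := off a u (by rw [Sym2.eq_swap]; exact hu.m1)
    rw [xe_mk, xe_mk, xe_mk, ds_mk, if_neg (Ne.symm hue.1), if_neg (Ne.symm hue.2)]
    have h4 := tt_tri T uy yz uz.symm (Ne.symm hue.1) hc.1 hc.2 aa ha.1 ha.2 (Ne.symm hue.2) hd.1 hd.2
    rw [tt_symm T u y z d a, h4]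
    rfl
  rw [h3]
  have e1 : (if a = u then 0 else tt T u y z a a) = (0 : ZMod 2) := by rw [if_neg aa, tt_self]
  have e2 : (if b = u then 0 else tt T u y z b a) = tt T u y z b a := if_neg bb
  rw [ds_mk, ds_mk] at h1
  simp only [if_true, e1, e2] at h1
  simp only [xe_mk, x4_adj1, x4_adj3]
  rw [al_eq, tt_symm T u y z a b, x4_4 T y z u a, x4_4 T y z u b]
  have h5 := two_z (tt T u y z b a)
  linear_combination h1 - h5

/-- (P3) two vertices on the closed set -/
theorem pc_two {T : Table V} {E : Finset (Sym2 V)} (hE : Clo E) {x y w a a' b b' : V}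
    (hx : Nb E x a a') (hy : Nb E y b b') (xy : x ≠ y) (hxy : s(x, y) ∉ E) (hw : Off E w)
    (hl : Lpl E) :
    pc T E x w + pc T E w y + pc T E x y = al T x a a' y w + al T y b b' x w := by
  have xw : x ≠ w := fun h => hw a (h ▸ hx.m1)
  have yw : y ≠ w := fun h => hw b (h ▸ hy.m1)
  have nex : ∀ c, s(x, c) ∈ E → c ≠ x ∧ c ≠ y ∧ c ≠ w := by
    intro c h
    refine ⟨?_, ?_, ?_⟩ <;> intro h2 <;> subst h2
    · exact hl c h
    · exact hxy h
    · exact hw x (by rw [Sym2.eq_swap]; exact h)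
  have ney : ∀ c, s(y, c) ∈ E → c ≠ x ∧ c ≠ y ∧ c ≠ w := by
    intro c h
    refine ⟨?_, ?_, ?_⟩ <;> intro h2 <;> subst h2
    · exact hxy (by rw [Sym2.eq_swap]; exact h)
    · exact hl c h
    · exact hw y (by rw [Sym2.eq_swap]; exact h)
  have na := nex a hx.m1
  have na' := nex a' hx.m2
  have nb := ney b hy.m1
  have nb' := ney b' hy.m2
  obtain ⟨f, hf⟩ : ∃ f : V → ZMod 2, f = fun v => if v = x ∨ v = y then 0 else tt T x y w v a := ⟨_, rfl⟩
  have fx : f x = 0 := by rw [hf]; simp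
  have fy : f y = 0 := by rw [hf]; simp
  have fo : ∀ v, v ≠ x → v ≠ y → f v = tt T x y w v a := by
    intro v h1 h2
    rw [hf]
    simp [h1, h2]
  have h1 := hE f
  have h2 : pc T E x w + pc T E w y + pc T E x y = ∑ e ∈ E, (xe T x w e + xe T w y e + xe T x y e) := by
    unfold pc
    rw [← Finset.sum_add_distrib, ← Finset.sum_add_distrib]
  rw [h2]
  rw [← Finset.sum_filter_add_sum_filter_not E (fun e => x ∈ e),
    ← Finset.sum_filter_add_sum_filter_not (E.filter (fun e => ¬ x ∈ e)) (fun e => y ∈ e)] at h1 ⊢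
  have e0 : (E.filter (fun e => ¬ x ∈ e)).filter (fun e => y ∈ e) = E.filter (fun e => y ∈ e) := by
    ext e
    simp only [mem_filter]
    constructor
    · rintro ⟨⟨h3, _⟩, h4⟩
      exact ⟨h3, h4⟩
    · rintro ⟨h3, h4⟩
      refine ⟨⟨h3, ?_⟩, h4⟩
      intro h5
      exact hxy ((Sym2.mem_and_mem_iff xy).1 ⟨h5, h4⟩ ▸ h3)
  rw [e0, hx.sum_star, hy.sum_star] at h1 ⊢
  have h3 : ∑ e ∈ (E.filter (fun e => ¬ x ∈ e)).filter (fun e => ¬ y ∈ e),
      (xe T x w e + xe T w y e + xe T x y e) =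
      ∑ e ∈ (E.filter (fun e => ¬ x ∈ e)).filter (fun e => ¬ y ∈ e), ds f e := by
    apply Finset.sum_congr rfl
    intro e he
    rw [mem_filter, mem_filter] at he
    obtain ⟨⟨he, hxe⟩, hye⟩ := he
    induction e with
    | _ c d =>
    rw [Sym2.mem_iff, not_or] at hxe hye
    have hc : c ≠ w := fun h => hw d (h ▸ he)
    have hd : d ≠ w := fun h => hw c (by rw [Sym2.eq_swap]; exact h ▸ he)
    rw [xe_mk, xe_mk, xe_mk, ds_mk, fo c (Ne.symm hxe.1) (Ne.symm hye.1),
      fo d (Ne.symm hxe.2) (Ne.symm hye.2)]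
    have h4 := tt_tri T xy yw xw.symm (Ne.symm hxe.1) (Ne.symm hye.1) hc na.1 na.2.1 na.2.2
      (Ne.symm hxe.2) (Ne.symm hye.2) hd
    rw [tt_symm T x y w d a, h4]
    unfold tt
    rw [x4_1 T w x c d, x4_1 T w y c d]
    ring
  rw [h3]
  rw [ds_mk, ds_mk, ds_mk, ds_mk, fx, fy, fo a na.1 na.2.1, fo a' na'.1 na'.2.1, fo b nb.1 nb.2.1,
    fo b' nb'.1 nb'.2.1, tt_self] at h1
  simp only [xe_mk, x4_adj1, x4_adj3]
  rw [al_eq, al_eq, tt_symm T x y w a a', x4_1 T y w x a, x4_1 T y w x a']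
  have h5 := tt_tri T xy yw xw.symm nb.1 nb.2.1 nb.2.2 na.1 na.2.1 na.2.2 nb'.1 nb'.2.1 nb'.2.2
  rw [tt_symm T x y w a b'] at h5
  rw [tt_swap T y x w b b', ← h5]
  have h6 := two_z (tt T x y w a' a)
  have h7 := two_z (tt T x y w b a)
  have h8 := two_z (tt T x y w b' a)
  linear_combination h1 - h6 - h7 - h8

end

end H30P
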