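import Pool.Agent.Lib.H30P.Par

/-!
# H30P, file Pg: polygons (definitions)

A polygon with `n` vertices is a function `c : ℕ → V` of period `n`, injective on `0, .., n-1`.
`pe c n`: its edges. `Pg T c n`: plane polygon. `Unc T c x y`: the edge `xy` crosses no edge of the polygon.
`pfl T c n w k z`: the side on which the ray `c k → z` starts (`w`: a reference vertex off the polygon).
`Cvx T c n`: the drawing of the vertices is convex, with this hull.
-/

set_option autoImplicit false

namespace H30P

open H53P Finset

variable {V : Type*} [DecidableEq V]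

/-- the edges of the polygon -/
def pe (c : ℕ → V) (n : ℕ) : Finset (Sym2 V) := (range n).image fun k => s(c k, c (k + 1))

/-- periodic sequences without other repetitions -/
structure Per (c : ℕ → V) (n : ℕ) : Prop where
  three : 3 ≤ n
  per : ∀ k, c (k + n) = c k
  inj : ∀ i < n, ∀ j < n, c i = c j → i = j

/-- plane polygons -/
structure Pg (T : Table V) (c : ℕ → V) (n : ℕ) : Prop extends Per c n where
  plane : ∀ i j, T.X (c i) (c (i + 1)) (c j) (c (j + 1)) = false

/-- `xy` crosses no edge of the polygon -/
def Unc (T : Table V) (c : ℕ → V) (x y : V) : Prop := ∀ k, T.X x y (c k) (c (k + 1)) = false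

/-- the side on which the ray `c k → z` starts -/
def pfl (T : Table V) (c : ℕ → V) (n : ℕ) (w : V) (k : ℕ) (z : V) : ZMod 2 :=
  pc T (pe c n) (c k) w + al T (c k) (c (k + 1)) (c (k + n - 1)) z w

/-- the side `q` contains no chord -/
def Emp (T : Table V) (c : ℕ → V) (n : ℕ) (w : V) (q : ZMod 2) : Prop :=
  ∀ i j, i + 2 ≤ j → j + 2 ≤ i + n → Unc T c (c i) (c j) → pfl T c n w i (c j) ≠ q

/-- convex position -/
def Cvx (T : Table V) (c : ℕ → V) (n : ℕ) : Prop :=
  ∀ i j k l, i < j → j < k → k < l → l < i + n → T.X (c i) (c k) (c j) (c l) = true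

end H30P
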