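import Pool.Agent.Lib.H30P.Pg

/-!
# H30P, file Pol: edge sets of polygons
-/

set_option autoImplicit false

namespace H30P

open H53P Finset

variable {V : Type*} [DecidableEq V]

namespace Per

variable {c : ℕ → V} {n : ℕ} (h : Per c n)

include h

theorem add_mul (k m : ℕ) : c (k + n * m) = c k := by
  induction m with
  | zero => rfl
  | succ m ih =>
    have e : k + n * (m + 1) = (k + n * m) + n := by ring
    rw [e, h.per, ih]

theorem mod (k : ℕ) : c (k % n) = c k := by
  conv_rhs => rw [← Nat.mod_add_div k n]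
  rw [h.add_mul]

theorem eq_iff {i j : ℕ} : c i = c j ↔ i % n = j % n := by
  have hn := h.three
  constructor
  · intro h1
    rw [← h.mod i, ← h.mod j] at h1
    exact h.inj _ (Nat.mod_lt _ (by omega)) _ (Nat.mod_lt _ (by omega)) h1
  · intro h1
    rw [← h.mod i, ← h.mod j, h1]

theorem ne_of {i j : ℕ} (h1 : i < j) (h2 : j < i + n) : c i ≠ c j := by
  intro h3
  rw [h.eq_iff] at h3
  have h4 : (j - i) % n = 0 := by
    have : (n : ℕ) ∣ j - i := (Nat.modEq_iff_dvd' h1.le).1 h3
    exact Nat.mod_eq_zero_of_dvd this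
  rw [Nat.mod_eq_of_lt (by omega)] at h4
  omega

theorem ne_succ (k : ℕ) : c k ≠ c (k + 1) := by
  have hn := h.three
  exact h.ne_of (Nat.lt_succ_self k) (by omega)

theorem shift (s : ℕ) : Per (fun k => c (k + s)) n := by
  have hn := h.three
  refine ⟨hn, fun k => ?_, fun i hi j hj h1 => ?_⟩
  · show c (k + n + s) = c (k + s)
    rw [show k + n + s = (k + s) + n by ring, h.per]
  · have h2 : c (i + s) = c (j + s) := h1
    rw [h.eq_iff] at h2
    have h3 : i % n = j % n := Nat.ModEq.add_right_cancel' s h2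
    rwa [Nat.mod_eq_of_lt hi, Nat.mod_eq_of_lt hj] at h3

theorem mem_pe {e : Sym2 V} : e ∈ pe c n ↔ ∃ k, e = s(c k, c (k + 1)) := by
  have hn := h.three
  unfold pe
  rw [mem_image]
  constructor
  · rintro ⟨k, _, rfl⟩
    exact ⟨k, rfl⟩
  · rintro ⟨k, rfl⟩
    refine ⟨k % n, mem_range.2 (Nat.mod_lt _ (by omega)), ?_⟩
    have h1 : c (k % n) = c k := h.mod k
    have h2 : c (k % n + 1) = c (k + 1) := by
      rw [h.eq_iff]
      exact (Nat.mod_modEq k n).add_right 1
    rw [h1, h2]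

theorem pe_shift (s : ℕ) : pe (fun k => c (k + s)) n = pe c n := by
  have hn := h.three
  ext e
  rw [(h.shift s).mem_pe, h.mem_pe]
  constructor
  · rintro ⟨k, hk⟩
    exact ⟨k + s, by rw [hk]; show s(c (k + s), c (k + 1 + s)) = _; rw [show k + 1 + s = k + s + 1 by ring]⟩
  · rintro ⟨k, hk⟩
    have h1 : s ≤ k + n * s := by nlinarith
    refine ⟨k + n * s - s, ?_⟩
    rw [hk]
    show s(c k, c (k + 1)) = s(c (k + n * s - s + s), c (k + n * s - s + 1 + s))
    rw [show k + n * s - s + s = k + n * s by omega,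
      show k + n * s - s + 1 + s = (k + 1) + n * s by omega, h.add_mul, h.add_mul]

theorem edge_inj : Set.InjOn (fun k => s(c k, c (k + 1))) (range n : Set ℕ) := by
  intro i hi j hj h1
  have hn := h.three
  rw [mem_coe, mem_range] at hi hj
  simp only [Sym2.eq_iff] at h1
  rcases h1 with ⟨h2, _⟩ | ⟨h2, h3⟩
  · exact h.inj i hi j hj h2
  · rw [h.eq_iff] at h2 h3
    exfalso
    rcases Nat.lt_or_ge (j + 1) n with h4 | h4
    · rw [Nat.mod_eq_of_lt hi, Nat.mod_eq_of_lt h4] at h2
      rcases Nat.lt_or_ge (i + 1) n with h5 | h5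
      · rw [Nat.mod_eq_of_lt h5, Nat.mod_eq_of_lt hj] at h3
        omega
      · have h6 : i + 1 = n := by omega
        rw [h6, Nat.mod_self, Nat.mod_eq_of_lt hj] at h3
        omega
    · have h6 : j + 1 = n := by omega
      rw [h6, Nat.mod_self, Nat.mod_eq_of_lt hi] at h2
      rw [h2, Nat.mod_eq_of_lt (by omega : 0 + 1 < n), Nat.mod_eq_of_lt hj] at h3
      omega

theorem sum_pe (g : Sym2 V → ZMod 2) : ∑ e ∈ pe c n, g e = ∑ k ∈ range n, g s(c k, c (k + 1)) := by
  unfold pe
  rw [sum_image h.edge_inj]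

theorem clo : Clo (pe c n) := by
  intro f
  rw [h.sum_pe]
  simp only [ds_mk]
  rw [sum_add_distrib]
  have h1 : ∑ k ∈ range n, f (c (k + 1)) = ∑ k ∈ range n, f (c k) := by
    have h2 := sum_range_succ' (fun k => f (c k)) n
    have h3 := sum_range_succ (fun k => f (c k)) n
    have h4 : c n = c 0 := by
      have := h.per 0
      rwa [Nat.zero_add] at this
    rw [h3, h4] at h2
    exact (add_right_cancel h2).symm
  rw [h1, two_z]

theorem nb (k : ℕ) : Nb (pe c n) (c k) (c (k + 1)) (c (k + n - 1)) := by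
  have hn := h.three
  refine ⟨h.ne_of (by omega) (by omega), h.mem_pe.2 ⟨k, rfl⟩, h.mem_pe.2 ⟨k + n - 1, ?_⟩, ?_⟩
  · rw [show k + n - 1 + 1 = k + n by omega, h.per, Sym2.eq_swap]
  · intro b hb
    obtain ⟨j, hj⟩ := h.mem_pe.1 hb
    rw [Sym2.eq_iff] at hj
    rcases hj with ⟨h1, h2⟩ | ⟨h1, h2⟩
    · left
      rw [h2]
      rw [h.eq_iff] at h1 ⊢
      exact (Nat.ModEq.add_right 1 h1).symm
    · right
      rw [h2]
      rw [h.eq_iff] at h1 ⊢
      have h3 : (k + n) % n = (j + 1) % n := by rw [Nat.add_mod_right]; exact h1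
      have h4 : (k + n - 1) + 1 = k + n := by omega
      rw [← h4] at h3
      exact (Nat.ModEq.add_right_cancel' 1 h3).symm

theorem off {x : V} (hx : ∀ k, c k ≠ x) : Off (pe c n) x := by
  intro a ha
  obtain ⟨k, hk⟩ := h.mem_pe.1 ha
  rw [Sym2.eq_iff] at hk
  rcases hk with ⟨h1, _⟩ | ⟨h1, _⟩
  · exact hx _ h1.symm
  · exact hx _ h1.symm

theorem lpl : Lpl (pe c n) := by
  intro a ha
  obtain ⟨k, hk⟩ := h.mem_pe.1 ha
  rw [Sym2.eq_iff] at hk
  have : c k = c (k + 1) := by
    rcases hk with ⟨h1, h2⟩ | ⟨h1, h2⟩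
    · rw [← h1, ← h2]
    · rw [← h1, ← h2]
  exact h.ne_succ k this

end Per

/-- crossings of `xy` with the arc from `c i` to `c j` -/
def asum (T : Table V) (c : ℕ → V) (x y : V) (i j : ℕ) : ZMod 2 :=
  ∑ t ∈ Ico i j, x4 T x y (c t) (c (t + 1))

theorem pc_pe {T : Table V} {c : ℕ → V} {n : ℕ} (h : Per c n) (x y : V) :
    pc T (pe c n) x y = asum T c x y 0 n := by
  unfold pc asum
  rw [h.sum_pe, range_eq_Ico]
  rfl

theorem pc_pe' {T : Table V} {c : ℕ → V} {n : ℕ} (h : Per c n) (x y : V) (i : ℕ) :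
    pc T (pe c n) x y = asum T c x y i (i + n) := by
  rw [← h.pe_shift i, pc_pe (h.shift i)]
  unfold asum
  have h1 := Finset.sum_Ico_add' (fun t => x4 T x y (c t) (c (t + 1))) 0 n i
  rw [Nat.zero_add, Nat.add_comm n i] at h1
  rw [← h1]
  apply sum_congr rfl
  intro t _
  show x4 T x y (c (t + i)) (c (t + 1 + i)) = _
  rw [show t + 1 + i = t + i + 1 by ring]

theorem asum_split (T : Table V) (c : ℕ → V) (x y : V) {i j k : ℕ} (h1 : i ≤ j) (h2 : j ≤ k) :
    asum T c x y i k = asum T c x y i j + asum T c x y j k := by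
  unfold asum
  rw [Finset.sum_Ico_consecutive _ h1 h2]

/-- the polygon `c i, .., c (i + m - 1)` -/
def sub (c : ℕ → V) (i m : ℕ) : ℕ → V := fun k => c (i + k % m)

theorem sub_per {c : ℕ → V} {n : ℕ} (h : Per c n) {i m : ℕ} (h1 : 3 ≤ m) (h2 : m ≤ n) :
    Per (sub c i m) m := by
  refine ⟨h1, fun k => ?_, fun a ha b hb hab => ?_⟩
  · unfold sub
    rw [Nat.add_mod_right]
  · unfold sub at hab
    rw [Nat.mod_eq_of_lt ha, Nat.mod_eq_of_lt hb] at hab
    rcases lt_trichotomy a b with h3 | h3 | h3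
    · exact absurd hab (h.ne_of (by omega) (by omega))
    · exact h3
    · exact absurd hab.symm (h.ne_of (by omega) (by omega))

theorem pc_sub {T : Table V} {c : ℕ → V} {n : ℕ} (h : Per c n) {i m : ℕ} (h1 : 3 ≤ m) (h2 : m ≤ n)
    (x y : V) : pc T (pe (sub c i m) m) x y =
      asum T c x y i (i + m - 1) + x4 T x y (c (i + m - 1)) (c i) := by
  rw [pc_pe (sub_per h h1 h2)]
  rw [asum_split T _ x y (Nat.zero_le (m - 1)) (by omega : m - 1 ≤ m)]
  have e1 : asum T (sub c i m) x y 0 (m - 1) = asum T c x y i (i + m - 1) := by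
    unfold asum
    rw [show i + m - 1 = (m - 1) + i by omega]
    have := Finset.sum_Ico_add' (fun t => x4 T x y (c t) (c (t + 1))) 0 (m - 1) i
    rw [Nat.zero_add] at this
    rw [← this]
    apply sum_congr rfl
    intro t ht
    rw [mem_Ico] at ht
    unfold sub
    rw [Nat.mod_eq_of_lt (by omega : t < m), Nat.mod_eq_of_lt (by omega : t + 1 < m)]
    rw [show i + t = t + i by ring, show i + (t + 1) = t + i + 1 by ring]
  have e2 : asum T (sub c i m) x y (m - 1) m = x4 T x y (c (i + m - 1)) (c i) := by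
    unfold asum
    have e3 : Ico (m - 1) m = {m - 1} := by
      ext t
      rw [mem_Ico, mem_singleton]
      omega
    rw [e3, sum_singleton]
    unfold sub
    rw [Nat.mod_eq_of_lt (by omega : m - 1 < m), show m - 1 + 1 = m by omega, Nat.mod_self, Nat.add_zero]
    rw [show i + (m - 1) = i + m - 1 by omega]
  rw [e1, e2]

/-- the two polygons of a chord -/
theorem pc_chord {T : Table V} {c : ℕ → V} {n : ℕ} (h : Per c n) {i m : ℕ} (h1 : 3 ≤ m) (h2 : m + 1 ≤ n)
    (x y : V) : pc T (pe c n) x y = pc T (pe (sub c i m) m) x y +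
      pc T (pe (sub c (i + m - 1) (n + 2 - m)) (n + 2 - m)) x y := by
  rw [pc_sub h h1 (by omega), pc_sub h (by omega) (by omega), pc_pe' h x y i]
  rw [asum_split T c x y (by omega : i ≤ i + m - 1) (by omega : i + m - 1 ≤ i + n)]
  rw [show i + m - 1 + (n + 2 - m) - 1 = i + n by omega, h.per]
  have h3 := two_z (x4 T x y (c (i + m - 1)) (c i))
  rw [x4_2 T x y (c i) (c (i + m - 1))]
  linear_combination -h3

end H30P
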