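import Pool.Agent.Lib.H98S.Rot

/-!
# H30P, file Sat: a verified checker for facts about few points of a crossing table

Clauses are bit masks: bit `2 i` is the literal `v i = true`, bit `2 i + 1` the literal `v i = false`. Proofs are
lists of unit propagation hints (`r * 4096 + l`: clause number `r`, the only open literal is `l`). Everything is
evaluated by the kernel.
-/

set_option autoImplicit false

namespace H30P

open H53P

/-- value of a literal -/
def lit (v : ℕ → Bool) (l : ℕ) : Bool := bif Nat.beq (l % 2) 1 then !v (l / 2) else v (l / 2)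

/-- the clause `c` is satisfied -/
def Sat (v : ℕ → Bool) (c : ℕ) : Prop := ∃ l, c.testBit l = true ∧ lit v l = true

theorem lit_neg (v : ℕ → Bool) (l : ℕ) : lit v (l ^^^ 1) = !lit v l := by
  unfold lit
  have h1 : (l ^^^ 1) / 2 = l / 2 := by
    rw [Nat.xor_div_two]
    simp
  have h2 : (l ^^^ 1) % 2 = 1 - l % 2 := by
    rcases Nat.mod_two_eq_zero_or_one l with h | h
    · have := @Nat.xor_mod_two_eq l 1
      omega
    · have := @Nat.xor_mod_two_eq l 1
      omega
  rw [h1, h2]
  rcases Nat.mod_two_eq_zero_or_one l with h | h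
  · rw [h]
    have e1 : Nat.beq (1 - 0) 1 = true := rfl
    have e2 : Nat.beq 0 1 = false := rfl
    rw [e1, e2]
    cases v (l / 2) <;> rfl
  · rw [h]
    have e1 : Nat.beq (1 - 1) 1 = false := rfl
    have e2 : Nat.beq 1 1 = true := rfl
    rw [e1, e2]
    cases v (l / 2) <;> rfl

/-- evaluation of `x` before `k` -/
def fo (x : ℕ) (k : ℕ → Bool) : Bool := Nat.rec (k 0) (fun n _ => k (Nat.succ n)) x

theorem fo_eq (x : ℕ) (k : ℕ → Bool) : fo x k = k x := by
  cases x <;> rfl

/-- static arrays -/
inductive Tr
  | lf (c : ℕ)
  | br (k : ℕ) (l r : Tr)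

/-- the entry with number `n` -/
noncomputable def Tr.get (t : Tr) (n : ℕ) : ℕ :=
  Tr.rec (fun c => c) (fun k _ _ a b => Bool.rec b a (Nat.blt n k)) t

/-- unit propagation: `F` is the mask of the false literals -/
noncomputable def rup (t : Tr) (i : ℕ) (hs : List ℕ) : ℕ → Bool :=
  List.rec (fun _ => false) (fun h _ ih F =>
    fo (h / 4096) fun r => Bool.rec false (fo (t.get r) fun c => fo (c ^^^ (c &&& F)) fun R =>
      Bool.rec (fo (h % 4096) fun l => Bool.rec false (fo (F ||| (1 <<< (l ^^^ 1))) ih) (Nat.beq R (1 <<< l)))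
        true (Nat.beq R 0)) (Nat.blt r i)) hs

theorem rup_nil (t : Tr) (i F : ℕ) : rup t i [] F = false := rfl

theorem rup_cons (t : Tr) (i h F : ℕ) (hs : List ℕ) : rup t i (h :: hs) F =
    bif Nat.blt (h / 4096) i then
      bif Nat.beq (t.get (h / 4096) ^^^ (t.get (h / 4096) &&& F)) 0 then true else
      bif Nat.beq (t.get (h / 4096) ^^^ (t.get (h / 4096) &&& F)) (1 <<< (h % 4096)) then
        rup t i hs (F ||| (1 <<< ((h % 4096) ^^^ 1))) else false
    else false := by
  have e : rup t i (h :: hs) F = (fo (h / 4096) fun r => Bool.rec false (fo (t.get r) fun c =>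
      fo (c ^^^ (c &&& F)) fun R =>
      Bool.rec (fo (h % 4096) fun l => Bool.rec false (fo (F ||| (1 <<< (l ^^^ 1)))
        (rup t i hs)) (Nat.beq R (1 <<< l)))
        true (Nat.beq R 0)) (Nat.blt r i)) := rfl
  rw [e, fo_eq, fo_eq, fo_eq, fo_eq, fo_eq]
  cases Nat.blt (h / 4096) i with
  | false => rfl
  | true =>
    cases Nat.beq (t.get (h / 4096) ^^^ (t.get (h / 4096) &&& F)) 0 with
    | true => rfl
    | false =>
      cases Nat.beq (t.get (h / 4096) ^^^ (t.get (h / 4096) &&& F)) (1 <<< (h % 4096)) with
      | true => rfl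
      | false => rfl

theorem rup_sound {v : ℕ → Bool} {t : Tr} {i : ℕ} (hdb : ∀ j < i, Sat v (t.get j)) :
    ∀ (hs : List ℕ) (F : ℕ), (∀ l, F.testBit l = true → lit v l = false) →
      rup t i hs F = true → False := by
  intro hs
  induction hs with
  | nil =>
    intro F _ h
    rw [rup_nil] at h
    cases h
  | cons h hs ih =>
    intro F hF hr
    rw [rup_cons] at hr
    cases h1 : Nat.blt (h / 4096) i with
    | false =>
      rw [h1] at hr
      cases hr
    | true =>
      rw [h1] at hr
      have h1' : h / 4096 < i := by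
        rwa [Nat.blt_eq] at h1
      obtain ⟨l0, a1, a2⟩ := hdb _ h1'
      have a3 : (t.get (h / 4096) ^^^ (t.get (h / 4096) &&& F)).testBit l0 = true := by
        rw [Nat.testBit_xor, Nat.testBit_and, a1]
        cases h2 : F.testBit l0 with
        | false => rfl
        | true =>
          rw [hF _ h2] at a2
          cases a2
      cases h3 : Nat.beq (t.get (h / 4096) ^^^ (t.get (h / 4096) &&& F)) 0 with
      | true =>
        rw [Nat.eq_of_beq_eq_true h3, Nat.zero_testBit] at a3
        cases a3
      | false =>
        rw [h3] at hr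
        cases h4 : Nat.beq (t.get (h / 4096) ^^^ (t.get (h / 4096) &&& F)) (1 <<< (h % 4096)) with
        | false =>
          rw [h4] at hr
          cases hr
        | true =>
          rw [h4] at hr
          rw [Nat.eq_of_beq_eq_true h4, Nat.one_shiftLeft, Nat.testBit_two_pow] at a3
          have a4 : h % 4096 = l0 := by simpa using a3
          refine ih _ ?_ hr
          intro l hl
          rw [Nat.testBit_or, Nat.one_shiftLeft, Nat.testBit_two_pow] at hl
          cases h5 : F.testBit l with
          | true => exact hF _ h5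
          | false =>
            rw [h5, Bool.false_or] at hl
            have h6 : (h % 4096) ^^^ 1 = l := by simpa using hl
            rw [← h6, lit_neg, a4, a2]
            rfl

/-- check of the derived clauses with numbers `i, i + 1, ..` -/
noncomputable def run (t : Tr) (pf : List (List ℕ)) : ℕ → Bool :=
  List.rec (fun _ => true) (fun hs _ ih i =>
    Bool.rec false (fo (i + 1) ih) (fo (t.get i) fun c => rup t i hs c)) pf

theorem run_cons (t : Tr) (hs : List ℕ) (pf : List (List ℕ)) (i : ℕ) :
    run t (hs :: pf) i = (rup t i hs (t.get i) && run t pf (i + 1)) := by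
  have e : run t (hs :: pf) i = Bool.rec false (fo (i + 1) (run t pf))
    (fo (t.get i) fun c => rup t i hs c) := rfl
  rw [e, fo_eq, fo_eq]
  cases rup t i hs (t.get i) <;> rfl

theorem run_sound {v : ℕ → Bool} {t : Tr} : ∀ (pf : List (List ℕ)) (i : ℕ),
    (∀ j < i, Sat v (t.get j)) → run t pf i = true → ∀ j < i + pf.length, Sat v (t.get j) := by
  intro pf
  induction pf with
  | nil =>
    intro i h _
    exact h
  | cons hs pf ih =>
    intro i h hr
    rw [run_cons, Bool.and_eq_true] at hr
    have h1 : ∀ j < i + 1, Sat v (t.get j) := by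
      intro j hj
      rcases Nat.lt_succ_iff_lt_or_eq.1 hj with hj | hj
      · exact h j hj
      · rw [hj]
        by_contra hn
        refine rup_sound h hs (t.get i) ?_ hr.1
        intro l hl
        cases h2 : lit v l with
        | false => rfl
        | true => exact absurd ⟨l, hl, h2⟩ hn
    have h2 := ih (i + 1) h1 hr.2
    intro j hj
    apply h2
    rw [List.length_cons] at hj
    omega

end H30P
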