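import Pool.Agent.Lib.H30P.Asm

/-!
# H30P, file Sh: shortening a cycle by a chord in the face between the two cycles

`cut a x s n'`: drop the vertices `a (x+1), .., a (x+s)`; `n' = n - s` is the new period.
`CutA T a b p x y`: the chord `a x, a y` misses both cycles and lies in the face between them
(for `x = 0` at the corner of `a 1`, `b 1`).
-/

set_option autoImplicit false
set_option linter.unusedSectionVars false

namespace H30P

open H53P Finset

variable {V : Type*} [DecidableEq V] {T : Table V} {a b : ℕ → V} {p m : ℕ}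

/-- drop the `s` vertices after position `x` -/
def cut (a : ℕ → V) (x s n' : ℕ) : ℕ → V := fun t => if t % n' ≤ x then a (t % n') else a (t % n' + s)

theorem cut_lo {x s n' t : ℕ} (h1 : t ≤ x) (h2 : t < n') : cut a x s n' t = a t := by
  unfold cut
  rw [Nat.mod_eq_of_lt h2, if_pos h1]

theorem cut_hi {x s n' t : ℕ} (h1 : x < t) (h2 : t < n') : cut a x s n' t = a (t + s) := by
  unfold cut
  rw [Nat.mod_eq_of_lt h2, if_neg (by omega)]

theorem cut_per {n x s : ℕ} (h : Per a n) (h1 : s + 3 ≤ n) (h2 : x + s + 1 ≤ n) :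
    Per (cut a x s (n - s)) (n - s) where
  three := by omega
  per k := by
    unfold cut
    rw [Nat.add_mod_right]
  inj i hi j hj hij := by
    rcases Nat.lt_or_ge x i with h3 | h3 <;> rcases Nat.lt_or_ge x j with h4 | h4
    · rw [cut_hi h3 hi, cut_hi h4 hj] at hij
      have := h.inj _ (by omega) _ (by omega) hij
      omega
    · rw [cut_hi h3 hi, cut_lo h4 hj] at hij
      have := h.inj _ (by omega) _ (by omega) hij
      omega
    · rw [cut_lo h3 hi, cut_hi h4 hj] at hij
      have := h.inj _ (by omega) _ (by omega) hij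
      omega
    · rw [cut_lo h3 hi, cut_lo h4 hj] at hij
      exact h.inj _ (by omega) _ (by omega) hij

theorem cut_sub {n x s : ℕ} (h : Per a n) (h1 : s + 3 ≤ n) (h2 : x + s + 1 ≤ n) :
    (fun k => cut a x s (n - s) (k + (x + 1))) = sub a (x + s + 1) (n - s) := by
  funext k
  obtain ⟨r, hr⟩ : ∃ r, r = k % (n - s) := ⟨_, rfl⟩
  have hr2 : r < n - s := hr ▸ Nat.mod_lt _ (by omega)
  have e1 : (k + (x + 1)) % (n - s) = (r + (x + 1)) % (n - s) := by
    rw [hr]
    exact ((Nat.mod_modEq k (n - s)).add_right (x + 1)).symm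
  unfold cut sub
  rw [e1, ← hr]
  rcases Nat.lt_or_ge (r + (x + 1)) (n - s) with h3 | h3
  · rw [Nat.mod_eq_of_lt h3, if_neg (by omega), show r + (x + 1) + s = x + s + 1 + r by omega]
  · have e2 : (r + (x + 1)) % (n - s) = r + (x + 1) - (n - s) := by
      rw [Nat.mod_eq_sub_mod h3, Nat.mod_eq_of_lt (by omega)]
    rw [e2, if_pos (by omega), show x + s + 1 + r = r + (x + 1) - (n - s) + n by omega, h.per]

theorem cut_pe {n x s : ℕ} (h : Per a n) (h1 : s + 3 ≤ n) (h2 : x + s + 1 ≤ n) :
    pe (cut a x s (n - s)) (n - s) = pe (sub a (x + s + 1) (n - s)) (n - s) := by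
  rw [← cut_sub h h1 h2, (cut_per h h1 h2).pe_shift]

/-- the edges of the shortened cycle -/
theorem cut_step {n x s : ℕ} (h : Per a n) (h1 : s + 3 ≤ n) (h2 : x + s + 1 ≤ n) (k : ℕ) :
    (∃ t, cut a x s (n - s) k = a t ∧ cut a x s (n - s) (k + 1) = a (t + 1)) ∨
    (cut a x s (n - s) k = a x ∧ cut a x s (n - s) (k + 1) = a (x + s + 1)) := by
  obtain ⟨r, hr⟩ : ∃ r, r = k % (n - s) := ⟨_, rfl⟩
  have hr2 : r < n - s := hr ▸ Nat.mod_lt _ (by omega)
  have e0 : (k + 1) % (n - s) = (r + 1) % (n - s) := by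
    rw [hr]
    exact ((Nat.mod_modEq k (n - s)).add_right 1).symm
  have e1 : cut a x s (n - s) k = if r ≤ x then a r else a (r + s) := by unfold cut; rw [← hr]
  have e2 : cut a x s (n - s) (k + 1) = if (r + 1) % (n - s) ≤ x then a ((r + 1) % (n - s)) else
      a ((r + 1) % (n - s) + s) := by unfold cut; rw [e0]
  rcases Nat.lt_or_ge (r + 1) (n - s) with h3 | h3
  · rw [Nat.mod_eq_of_lt h3] at e2
    rcases Nat.lt_trichotomy r x with h4 | h4 | h4
    · left
      exact ⟨r, by rw [e1, if_pos (by omega)], by rw [e2, if_pos (by omega)]⟩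
    · right
      refine ⟨by rw [e1, if_pos (by omega), h4], ?_⟩
      rw [e2, if_neg (by omega), h4, show x + 1 + s = x + s + 1 by omega]
    · left
      refine ⟨r + s, by rw [e1, if_neg (by omega)], ?_⟩
      rw [e2, if_neg (by omega), show r + 1 + s = r + s + 1 by omega]
  · have e3 : (r + 1) % (n - s) = 0 := by rw [show r + 1 = n - s by omega, Nat.mod_self]
    rw [e3, if_pos (by omega)] at e2
    rcases Nat.lt_or_ge x r with h4 | h4
    · left
      refine ⟨r + s, by rw [e1, if_neg (by omega)], ?_⟩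
      rw [e2, show r + s + 1 = n by omega, h.top]
    · right
      have h5 : r = x := by omega
      refine ⟨by rw [e1, if_pos (by omega), h5], ?_⟩
      rw [e2, show x + s + 1 = n by omega, h.top]

theorem cut_unc {n x s : ℕ} (h : Per a n) (h1 : s + 3 ≤ n) (h2 : x + s + 1 ≤ n) {u v : V}
    (hu : Unc T a u v) (hx : T.X u v (a x) (a (x + s + 1)) = false) : Unc T (cut a x s (n - s)) u v := by
  intro k
  rcases cut_step h h1 h2 k with ⟨t, e1, e2⟩ | ⟨e1, e2⟩
  · rw [e1, e2]; exact hu t
  · rw [e1, e2]; exact hx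

/-- the chord `a x, a y` can be used to shorten the cycle -/
structure CutA (T : Table V) (a b : ℕ → V) (p x y : ℕ) : Prop where
  lt : x + 2 ≤ y
  le : y ≤ p
  big : x = 0 → y + 1 ≤ p
  brd : Brd T a b (a x) (a y)
  fl : pfl T a (p + 1) (b 1) y (a x) = 0
  bot : x = 0 → T.alt (a 0) (a 1) (a y) (b 1) (a p) = false

/-- the shortened cycle -/
def cA (a : ℕ → V) (p x y : ℕ) : ℕ → V := cut a x (y - x - 1) (p + 1 - (y - x - 1))

/-- the new length -/
def cp (p x y : ℕ) : ℕ := p - (y - x - 1)

variable {x y : ℕ}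

theorem CutA.cp1 (h : CutA T a b p x y) : p + 1 - (y - x - 1) = cp p x y + 1 := by
  have h1 := h.lt
  have h2 := h.le
  unfold cp
  omega

theorem CutA.cpge (h : CutA T a b p x y) : 2 ≤ cp p x y := by
  have h1 := h.lt
  have h2 := h.le
  have h3 := h.big
  unfold cp
  omega

theorem CutA.c1 (h : CutA T a b p x y) : (y - x - 1) + 3 ≤ p + 1 := by
  have h1 := h.lt
  have h2 := h.le
  have h3 := h.big
  omega

theorem CutA.c2 (h : CutA T a b p x y) : x + (y - x - 1) + 1 ≤ p + 1 := by
  have h1 := h.lt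
  have h2 := h.le
  omega

theorem CutA.c3 (h : CutA T a b p x y) : x + (y - x - 1) + 1 = y := by
  have h1 := h.lt
  omega

theorem CutA.lo (h : CutA T a b p x y) {t : ℕ} (ht : t ≤ x) : cA a p x y t = a t := by
  have h1 := h.cpge
  have h2 := h.lt
  have h3 := h.le
  have h4 := h.cp1
  unfold cA
  refine cut_lo ht ?_
  unfold cp at h1 h4
  omega

theorem CutA.hi (h : CutA T a b p x y) {t : ℕ} (ht : y ≤ t) (ht2 : t ≤ p) :
    cA a p x y (t - (y - x - 1)) = a t := by
  have h2 := h.lt
  have h3 := h.le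
  unfold cA
  rw [cut_hi (by omega) (by omega), show t - (y - x - 1) + (y - x - 1) = t by omega]

theorem CutA.unc (h : CutA T a b p x y) (hA : Per a (p + 1)) {u v : V} (hu : Unc T a u v)
    (hx : T.X u v (a x) (a y) = false) : Unc T (cA a p x y) u v :=
  cut_unc hA h.c1 h.c2 hu (by rw [h.c3]; exact hx)

theorem CutA.step (h : CutA T a b p x y) (hA : Per a (p + 1)) (k : ℕ) :
    (∃ t, cA a p x y k = a t ∧ cA a p x y (k + 1) = a (t + 1)) ∨
    (cA a p x y k = a x ∧ cA a p x y (k + 1) = a y) := by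
  have h1 := cut_step hA h.c1 h.c2 k
  rw [h.c3] at h1
  exact h1

/-- the shortened cycle and the other one -/
theorem CutA.two (h : CutA T a b p x y) (hT : Two T a p b m) : Two T (cA a p x y) (cp p x y) b m where
  pa := by
    have hP := cut_per hT.pa.toPer h.c1 h.c2
    rw [h.cp1] at hP
    have e1 : cA a p x y = cut a x (y - x - 1) (cp p x y + 1) := by unfold cA; rw [h.cp1]
    rw [e1]
    refine ⟨hP, fun i => ?_⟩
    rw [← e1]
    show Unc T (cA a p x y) _ _
    rcases h.step hT.pa.toPer i with ⟨t, e2, e3⟩ | ⟨e2, e3⟩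
    · rw [e2, e3]
      exact h.unc hT.pa.toPer (fun k => hT.pa.plane t k) (by rw [T.xs4]; exact h.brd.1 t)
    · rw [e2, e3]
      exact h.unc hT.pa.toPer h.brd.1 (X_selfd T _ _)
  pb := hT.pb
  v0 := by rw [h.lo (Nat.zero_le x), hT.v0]
  dis i j h1 h2 := by
    have g1 := h.cp1
    have g2 := h.le
    have g3 := h.lt
    have g4 : cp p x y = p - (y - x - 1) := rfl
    unfold cA
    rcases Nat.lt_or_ge x i with h3 | h3
    · rw [cut_hi h3 (by omega)]
      exact hT.dis _ _ (by omega) (by omega)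
    · rw [cut_lo h3 (by omega)]
      exact hT.dis _ _ (by omega) (by omega)
  un i j := by
    rcases h.step hT.pa.toPer i with ⟨t, e2, e3⟩ | ⟨e2, e3⟩
    · rw [e2, e3]; exact hT.un t j
    · rw [e2, e3]; exact h.brd.2 j

/-- the dropped vertices are on the other side -/
theorem CutA.side (h : CutA T a b p x y) (hT : Two T a p b m) {z : ℕ} (h1 : x < z) (h2 : z < y) :
    pc T (pe (cA a p x y) (cp p x y + 1)) (a z) (b 1) = 1 := by
  have g1 := h.cp1
  have g2 := h.le
  have g3 := h.lt
  have g5 := h.big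
  have g4 : cp p x y = p - (y - x - 1) := rfl
  have hA := hT.pa.toPer
  have hB := hT.pb.toPer
  have m3 := hB.three
  have bne : ∀ k, a k ≠ b 1 := fun k => (hT.symm.dis 1 k le_rfl (by omega)).symm
  have e1 : pe (cA a p x y) (cp p x y + 1) = pe (sub a y (cp p x y + 1)) (cp p x y + 1) := by
    have := cut_pe hA h.c1 h.c2
    rw [h.c3, h.cp1] at this
    unfold cA
    rw [h.cp1]
    exact this
  have hu : Unc T a (a y) (a (y + (cp p x y + 1) - 1)) := by
    rw [show y + (cp p x y + 1) - 1 = x + (p + 1) by omega, hA.per]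
    exact unc_symm h.brd.1
  obtain ⟨k, hk1, hk2, hk3⟩ : ∃ k, y < k ∧ k < x + (p + 1) ∧
      pc T (pe (sub a (x + (p + 1)) (p + 1 + 2 - (cp p x y + 1))) (p + 1 + 2 - (cp p x y + 1))) (a k) (b 1) = 0 := by
    have hq : 3 ≤ p + 1 + 2 - (cp p x y + 1) := by omega
    have hq2 : p + 1 + 2 - (cp p x y + 1) ≤ p + 1 := by omega
    have pcf := fun (u v : V) => pc_sub (T := T) hA (i := x + (p + 1)) hq hq2 u v
    have hend : x + (p + 1) + (p + 1 + 2 - (cp p x y + 1)) - 1 = y + (p + 1) := by omega
    rcases Nat.eq_zero_or_pos x with hx | hx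
    · subst hx
      refine ⟨p, by omega, by omega, ?_⟩
      have hP := sub_per hA hq hq2 (i := 0 + (p + 1))
      have nb := hP.nb 0
      have v0 : sub a (0 + (p + 1)) (p + 1 + 2 - (cp p 0 y + 1)) 0 = a 0 := by
        unfold sub
        rw [Nat.zero_mod, show 0 + (p + 1) + 0 = 0 + (p + 1) by omega, hA.per]
      have v1 : sub a (0 + (p + 1)) (p + 1 + 2 - (cp p 0 y + 1)) (0 + 1) = a 1 := by
        unfold sub
        rw [Nat.mod_eq_of_lt (by omega), show 0 + (p + 1) + (0 + 1) = 1 + (p + 1) by omega, hA.per]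
      have v2 : sub a (0 + (p + 1)) (p + 1 + 2 - (cp p 0 y + 1)) (0 + (p + 1 + 2 - (cp p 0 y + 1)) - 1) = a y := by
        unfold sub
        rw [Nat.mod_eq_of_lt (by omega),
          show 0 + (p + 1) + (0 + (p + 1 + 2 - (cp p 0 y + 1)) - 1) = y + (p + 1) by omega, hA.per]
      rw [v0, v1, v2] at nb
      have oz : ∀ w, (∀ t, 0 ≤ t → t ≤ y → a t ≠ w) →
          Off (pe (sub a (0 + (p + 1)) (p + 1 + 2 - (cp p 0 y + 1))) (p + 1 + 2 - (cp p 0 y + 1))) w := by
        intro w hw
        apply hP.off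
        intro t
        unfold sub
        have h5 : t % (p + 1 + 2 - (cp p 0 y + 1)) < p + 1 + 2 - (cp p 0 y + 1) := Nat.mod_lt _ (by omega)
        rw [show 0 + (p + 1) + t % (p + 1 + 2 - (cp p 0 y + 1)) = t % (p + 1 + 2 - (cp p 0 y + 1)) + (p + 1) by omega,
          hA.per]
        exact hw _ (by omega) (by omega)
      have h6 := pc_one (T := T) (y := a p) (z := b 1) hP.clo nb (hA.ne_of (by omega) (by omega)) (bne 0) (bne p)
        (oz _ fun t _ ht => hA.ne_of (by omega) (by omega)) (oz _ fun t _ _ => bne t) hP.lpl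
      have h7 : pc T (pe (sub a (0 + (p + 1)) (p + 1 + 2 - (cp p 0 y + 1))) (p + 1 + 2 - (cp p 0 y + 1)))
          (a 0) (a p) = 0 := by
        rw [pcf, asum_unc (fun t _ _ => ?_), zero_add, hend, hA.per, hA.per]
        · exact x4_adj2 T _ _ _
        · have := hA.top ▸ hT.pa.plane p t
          rw [T.xs1]
          exact this
      have h8 : pc T (pe (sub a (0 + (p + 1)) (p + 1 + 2 - (cp p 0 y + 1))) (p + 1 + 2 - (cp p 0 y + 1)))
          (b 1) (a 0) = 0 := by
        rw [pcf, asum_unc (fun t _ _ => ?_), zero_add, hend, hA.per, hA.per]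
        · have := h.brd.2 0
          rw [hT.v0] at this
          unfold x4
          rw [T.xs4, T.xs1, T.xs2, this]
          rfl
        · have := hT.un t 0
          rw [hT.v0] at this
          rw [T.xs4, T.xs2]
          exact this
      rw [h7, h8, zero_add, add_zero] at h6
      rw [h6]
      unfold al
      rw [T.as2, h.bot rfl]
      rfl
    · refine ⟨p + 1, by omega, by omega, ?_⟩
      rw [pcf, asum_unc (fun t _ _ => ?_), zero_add, hend, hA.per, hA.per]
      · have := h.brd.2 0
        rw [hT.v0] at this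
        unfold x4
        rw [hA.top, T.xs4, T.xs1, this]
        rfl
      · have := hT.un t 0
        rw [hT.v0] at this
        rw [hA.top, T.xs4]
        exact this
  have h3 := chord_side hT.pa bne (i := y) (m := cp p x y + 1) (k := k) (l := z + (p + 1)) (by omega) (by omega)
    hu hk1 (by omega) (by omega) (by omega)
  rw [show y + (cp p x y + 1) - 1 = x + (p + 1) by omega, hA.per, hA.per, h.fl, hk3, add_zero, add_zero] at h3
  rw [e1]
  exact h3

end H30P
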