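import Pool.Agent.Lib.H30P.Sh

/-!
# H30P, file Sh2: bridging edges after shortening; reduction to saturated tuples
-/

set_option autoImplicit false
set_option linter.unusedSectionVars false

namespace H30P

open H53P Finset

variable {V : Type*} [DecidableEq V] {T : Table V} {a b : ℕ → V} {p m x y : ℕ}

/-- old position of a new position -/
def up (x y i : ℕ) : ℕ := if i ≤ x then i else i + (y - x - 1)

/-- new position of an old position -/
def dn (x y i : ℕ) : ℕ := if i ≤ x then i else i - (y - x - 1)

theorem CutA.offA (h : CutA T a b p x y) (hT : Two T a p b m) {z : ℕ} (h1 : x < z) (h2 : z < y) :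
    Off (pe (cA a p x y) (cp p x y + 1)) (a z) := by
  have g1 := h.cp1
  have g2 := h.le
  have g3 := h.lt
  have hA := hT.pa.toPer
  apply (h.two hT).pa.toPer.off
  intro t
  unfold cA cut
  rw [g1]
  have h3 : t % (cp p x y + 1) < cp p x y + 1 := Nat.mod_lt _ (by omega)
  have g4 : cp p x y = p - (y - x - 1) := rfl
  split_ifs with h5
  · intro h6
    have := hA.inj _ (by omega) _ (by omega) h6
    omega
  · intro h6
    have := hA.inj _ (by omega) _ (by omega) h6
    omega

theorem CutA.side_b (h : CutA T a b p x y) (hT : Two T a p b m) {z j : ℕ} (h1 : x < z) (h2 : z < y)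
    (h3 : 1 ≤ j) (h4 : j ≤ m) : pc T (pe (cA a p x y) (cp p x y + 1)) (a z) (b j) = 1 := by
  have h5 := h.side hT h1 h2
  have hT' := h.two hT
  have h6 := arc_side (T := T) (c := b) hT'.pa.toPer.clo (h.offA hT h1 h2) h3 (fun k hk1 hk2 => ?_)
    (fun k _ _ => pc_unc hT'.pa.toPer (hT'.brd_b k).1)
  · rw [pc_symm, h6, pc_symm] at h5
    exact h5
  · apply hT'.pa.toPer.off
    intro t ht
    exact hT'.symm.dis k t hk1 (by omega) ht.symm

/-- kept positions -/
theorem CutA.keep (h : CutA T a b p x y) (hT : Two T a p b m) {i j : ℕ} (hb : Br T a b p m i j)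
    (hX : T.X (a x) (a y) (a i) (b j) = false) : i ≤ x ∨ y ≤ i := by
  by_contra hn
  rw [not_or] at hn
  have h1 := h.side_b hT (z := i) (by omega) (by omega) hb.2.2.1 hb.2.2.2.1
  rw [pc_unc (h.two hT).pa.toPer (h.unc hT.pa.toPer hb.2.2.2.2.1 (by rw [T.xs4]; exact hX))] at h1
  exact absurd h1 (by decide)

theorem CutA.br_dn (h : CutA T a b p x y) (hT : Two T a p b m) {i j : ℕ} (hb : Br T a b p m i j)
    (hX : T.X (a x) (a y) (a i) (b j) = false) :
    Br T (cA a p x y) b (cp p x y) m (dn x y i) j ∧ cA a p x y (dn x y i) = a i := by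
  have g2 := h.le
  have g3 := h.lt
  have g4 : cp p x y = p - (y - x - 1) := rfl
  obtain ⟨h1, h2, h3, h4, h5⟩ := hb
  have h6 := h.keep hT ⟨h1, h2, h3, h4, h5⟩ hX
  have e1 : cA a p x y (dn x y i) = a i := by
    unfold dn
    split_ifs with h7
    · exact h.lo h7
    · exact h.hi (by omega) h2
  refine ⟨⟨?_, ?_, h3, h4, ?_⟩, e1⟩
  · unfold dn
    split_ifs <;> omega
  · unfold dn
    split_ifs <;> omega
  · rw [e1]
    exact ⟨h.unc hT.pa.toPer h5.1 (by rw [T.xs4]; exact hX), h5.2⟩

theorem CutA.br_up (h : CutA T a b p x y) (hT : Two T a p b m) {i j : ℕ}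
    (hb : Br T (cA a p x y) b (cp p x y) m i j) :
    Br T a b p m (up x y i) j ∧ cA a p x y i = a (up x y i) := by
  have g1 := h.cp1
  have g2 := h.le
  have g3 := h.lt
  have g4 : cp p x y = p - (y - x - 1) := rfl
  have hA := hT.pa.toPer
  have hT' := h.two hT
  obtain ⟨h1, h2, h3, h4, h5⟩ := hb
  have e1 : cA a p x y i = a (up x y i) := by
    unfold up
    split_ifs with h7
    · exact h.lo h7
    · have := h.hi (t := i + (y - x - 1)) (by omega) (by omega)
      rwa [show i + (y - x - 1) - (y - x - 1) = i by omega] at this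
  refine ⟨⟨?_, ?_, h3, h4, ?_, ?_⟩, e1⟩
  · unfold up
    split_ifs <;> omega
  · unfold up
    split_ifs <;> omega
  · rw [← e1]
    have key : ∀ r, r ≤ p → T.X (cA a p x y i) (b j) (a r) (a (r + 1)) = false := by
      intro r hr
      rcases Nat.lt_or_ge r x with h6 | h6
      · have := h5.1 r
        rwa [h.lo (t := r) (by omega), h.lo (t := r + 1) (by omega)] at this
      · rcases Nat.lt_or_ge r y with h7 | h7
        · cases hX : T.X (cA a p x y i) (b j) (a r) (a (r + 1)) with
          | false => rfl
          | true =>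
            exfalso
            have fin : ∀ z z', x < z → z < y → T.X (cA a p x y i) (b j) (a z) (a z') = true →
                (∀ k, T.X (a z) (a z') (a k) (a (k + 1)) = false) →
                T.X (a z) (a z') (a x) (a y) = false → False := by
              intro z z' z1 z2 hX' hz hz'
              have u1 : Unc T (cA a p x y) (a z) (a z') := h.unc hA hz hz'
              have g : ∀ {u v : V}, Unc T (cA a p x y) u v → ∀ c d, s(c, d) ∈ pe (cA a p x y) (cp p x y + 1) →
                  T.X u v c d = false := by
                intro u v hu c d hcd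
                obtain ⟨k, hk⟩ := hT'.pa.toPer.mem_pe.1 hcd
                rw [Sym2.eq_iff] at hk
                rcases hk with ⟨r1, r2⟩ | ⟨r1, r2⟩
                · rw [r1, r2]; exact hu k
                · rw [r1, r2, T.xs2]; exact hu k
              have h8 := sep_out (T := T) hT'.pa.toPer.clo (x := b j) (u := cA a p x y i) (y := a z) (v := a z')
                (by rw [T.xs1]; exact hX') (g (unc_symm h5.1)) (g u1) ?_ (h.offA hT z1 z2) hT'.pa.toPer.lpl
              · rw [pc_symm, h.side_b hT z1 z2 h3 h4] at h8
                exact absurd h8 (by decide)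
              · apply hT'.pa.toPer.off
                intro t ht
                exact hT'.symm.dis j t h3 h4 ht.symm
            rcases Nat.lt_or_ge x r with h8 | h8
            · exact fin r (r + 1) h8 h7 hX (fun k => hT.pa.plane r k) (by rw [T.xs4]; exact h.brd.1 r)
            · have h9 : r = x := by omega
              subst h9
              exact fin (r + 1) r (by omega) (by omega) (by rw [T.xs2]; exact hX)
                (fun k => by rw [T.xs1]; exact hT.pa.plane r k) (by rw [T.xs1, T.xs4]; exact h.brd.1 r)
        · rcases Nat.lt_or_ge r p with h8 | h8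
          · have := h5.1 (r - (y - x - 1))
            rwa [h.hi h7 hr, show r - (y - x - 1) + 1 = r + 1 - (y - x - 1) by omega, h.hi (by omega) (by omega)] at this
          · have h9 : r = p := by omega
            have := h5.1 (r - (y - x - 1))
            rw [h.hi h7 hr, show r - (y - x - 1) + 1 = 0 + (cp p x y + 1) by omega, hT'.pa.per,
              h.lo (Nat.zero_le x)] at this
            rw [h9] at this ⊢
            rw [hA.top]
            exact this
    intro k
    have h6 : k % (p + 1) < p + 1 := Nat.mod_lt _ (by omega)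
    have e2 : a k = a (k % (p + 1)) := (hA.mod k).symm
    have e3 : a (k + 1) = a (k % (p + 1) + 1) := hA.eq_iff.2 (Nat.ModEq.add_right 1 (Nat.mod_modEq k (p + 1)).symm)
    rw [e2, e3]
    exact key _ (by omega)
  · rw [← e1]
    exact h5.2

theorem CutA.crn (h : CutA T a b p x y) (hT : Two T a p b m) (hc : Crn T a b p m) :
    Crn T (cA a p x y) b (cp p x y) m := by
  have g1 := h.cp1
  have g2 := h.le
  have g3 := h.lt
  have g5 := h.big
  have g4 : cp p x y = p - (y - x - 1) := rfl
  have hA := hT.pa.toPer
  have hB := hT.pb.toPer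
  have m3 := hB.three
  have hT' := h.two hT
  have e0 := h.lo (Nat.zero_le x)
  have ep : cA a p x y (cp p x y) = a p := h.hi g2 le_rfl
  unfold Crn at hc ⊢
  rw [e0, ep]
  rcases Nat.eq_zero_or_pos x with hx | hx
  · subst hx
    have e1 : cA a p 0 y 1 = a y := by
      have := h.hi (t := y) le_rfl g2
      rwa [show y - (y - 0 - 1) = 1 by omega] at this
    have q := hT'.alt0
    rw [e0, e1, ep] at q
    have q2 := hT.alt0
    have q3 := h.bot rfl
    rw [e1]
    have n1 : a 1 ≠ a 0 := (hA.ne_of (by omega) (by omega)).symm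
    have n2 : a y ≠ a 0 := (hA.ne_of (by omega) (by omega)).symm
    have n3 : a p ≠ a 0 := (hA.ne_of (by omega) (by omega)).symm
    have n4 : b 1 ≠ a 0 := (hT.dis0 (by omega) (by omega) (by omega)).symm
    have n5 : b m ≠ a 0 := (hT.dis0 (by omega) (by omega) (by omega)).symm
    have n6 : a 1 ≠ a y := hA.ne_of (by omega) (by omega)
    have n7 : a 1 ≠ a p := hA.ne_of (by omega) (by omega)
    have n8 : a y ≠ a p := hA.ne_of (by omega) (by omega)
    have n9 : a 1 ≠ b 1 := hT.dis 1 1 (by omega) (by omega)
    have n10 : a 1 ≠ b m := hT.dis 1 m (by omega) (by omega)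
    have n11 : a y ≠ b 1 := hT.dis y 1 (by omega) (by omega)
    have n12 : a y ≠ b m := hT.dis y m (by omega) (by omega)
    have n13 : a p ≠ b 1 := hT.dis p 1 (by omega) (by omega)
    have n14 : a p ≠ b m := hT.dis p m (by omega) (by omega)
    have n15 : b 1 ≠ b m := hB.ne_of (by omega) (by omega)
    have z : ∀ {c d e f : V}, T.alt (a 0) c d e f = false → al T (a 0) c d e f = 0 := by
      intro c d e f hh
      unfold al
      rw [hh]
      rfl
    have r1 := al_add (T := T) (u := a 0) (a := a p) (b := b m) (y := a y) (z := b 1) (w := a 1)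
      n3.symm n5.symm n14 n2 n8 n12 n4 n13.symm n15 n1 n7 n10
    have r2 := al_add (T := T) (u := a 0) (a := a y) (b := a 1) (y := a p) (z := b m) (w := b 1)
      n2.symm n1.symm n6.symm n3 n8.symm n7.symm n5 n12.symm n10.symm n4 n11.symm n9.symm
    have r3 := al_add (T := T) (u := a 0) (a := b m) (b := b 1) (y := a y) (z := a 1) (w := a p)
      n5.symm n4.symm n15.symm n2 n12 n11 n1 n10 n9 n3 n14 n13
    have s1 : al T (a 0) (a p) (b m) (b 1) (a 1) = 0 := z (by rw [T.as2, T.as4]; exact hc)
    have s2 : al T (a 0) (a y) (a 1) (a p) (b 1) = 0 := z (by rw [T.as1, T.as2]; exact q3)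
    have s3 : al T (a 0) (b m) (b 1) (a y) (a p) = 0 := z (by rw [T.as4, T.as2]; exact q)
    have s4 : al T (a 0) (b m) (b 1) (a 1) (a p) = 0 := z (by rw [T.as4, T.as2]; exact q2)
    have t3 : al T (a 0) (a y) (a 1) (b m) (b 1) = 0 := by
      rw [s3, s4, add_zero] at r3
      unfold al at r3 ⊢
      rw [T.as4]
      exact r3.symm
    have t2 : al T (a 0) (a y) (a 1) (a p) (b m) = 0 := by
      rw [s2, t3, add_zero] at r2
      exact r2.symm
    have t1 : al T (a 0) (a p) (b m) (a y) (b 1) = 0 := by
      have t4 : al T (a 0) (a p) (b m) (a y) (a 1) = 0 := by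
        unfold al at t2 ⊢
        rw [T.as4]
        exact t2
      rw [s1, t4, add_zero] at r1
      exact r1.symm
    have t5 : z2 (T.alt (a 0) (a y) (b 1) (a p) (b m)) = z2 false := by
      unfold al at t1
      rw [T.as4, t1]
      rfl
    exact z2_inj t5
  · rw [h.lo (by omega)]
    exact hc

end H30P
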