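import Pool.Agent.Lib.H30P.Sh2

/-!
# H30P, file Sh3: reduction of (A1min) and (B'min) to saturated tuples

`A1t`, `BMt`: the statements for one tuple of positions. `Sat1 T a b p i k l j`: every chord of the
cycle `a` in the face between the two cycles crosses `a i b l` or `a k b j`. `a1_of_sat`, `bm_of_sat`.
-/

set_option autoImplicit false
set_option linter.unusedSectionVars false

namespace H30P

open H53P Finset

variable {V : Type*} [DecidableEq V] {T : Table V} {a b : ℕ → V} {p m x y : ℕ}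

/-- (A1min) for one tuple -/
def A1t (T : Table V) (a b : ℕ → V) (p m i k l j : ℕ) : Prop :=
  i < k → j < l → Br T a b p m i l → Br T a b p m k j →
    (∀ x y, Br T a b p m x y → x ≤ i → y ≤ l → x = i ∧ y = l) →
    (∀ x y, Br T a b p m x y → x ≤ k → y ≤ j → x = k ∧ y = j) →
    (∀ x y, Br T a b p m x y → x < k → l ≤ y) →
    inn T (a i) (b l) (b j) (a k) (a 0) = true

/-- every usable chord of the cycle `a` crosses one of the two edges -/
def Sat1 (T : Table V) (a b : ℕ → V) (p i k l j : ℕ) : Prop :=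
  ∀ x y, CutA T a b p x y → T.X (a x) (a y) (a i) (b l) = true ∨ T.X (a x) (a y) (a k) (b j) = true

theorem up_dn {i : ℕ} (hxy : x + 2 ≤ y) (h : i ≤ x ∨ y ≤ i) : up x y (dn x y i) = i := by
  unfold up dn
  split_ifs <;> omega

theorem dn_up {i : ℕ} (hxy : x + 2 ≤ y) : dn x y (up x y i) = i := by
  unfold up dn
  split_ifs <;> omega

theorem up_le {i j : ℕ} : i ≤ j ↔ up x y i ≤ up x y j := by
  unfold up
  split_ifs <;> omega

theorem up_lt {i j : ℕ} : i < j ↔ up x y i < up x y j := by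
  unfold up
  split_ifs <;> omega

theorem dn_lt {i k : ℕ} (hxy : x + 2 ≤ y) (h : i ≤ x ∨ y ≤ i) (h' : k ≤ x ∨ y ≤ k) :
    i < k ↔ dn x y i < dn x y k := by
  rw [up_lt (x := x) (y := y) (i := dn x y i), up_dn hxy h, up_dn hxy h']

theorem dn_le {i k : ℕ} (hxy : x + 2 ≤ y) (h : i ≤ x ∨ y ≤ i) (h' : k ≤ x ∨ y ≤ k) :
    i ≤ k ↔ dn x y i ≤ dn x y k := by
  rw [up_le (x := x) (y := y) (i := dn x y i), up_dn hxy h, up_dn hxy h']

theorem Br.swap {i j : ℕ} (hb : Br T a b p m i j) : Br T b a m p j i :=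
  ⟨hb.2.2.1, hb.2.2.2.1, hb.1, hb.2.1, hb.2.2.2.2.swap.symm⟩

theorem Crn.swap (h : Two T a p b m) (hc : Crn T a b p m) : Crn T b a m p := by
  unfold Crn at hc ⊢
  rw [h.v0, T.as1, T.as2]
  exact hc

theorem A1t.swap (h : Two T a p b m) {i k l j : ℕ} (hA : A1t T b a m p j l k i)
    (hcons : ∀ x y, Br T a b p m x y → y < l → k ≤ x) : A1t T a b p m i k l j := by
  intro h1 h2 h3 h4 h5 h6 _
  have h8 := hA h2 h1 h4.swap h3.swap (fun x y hxy hx hy => (h6 y x hxy.swap hy hx).symm)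
    (fun x y hxy hx hy => (h5 y x hxy.swap hy hx).symm) (fun x y hxy hx => hcons y x hxy.swap hx)
  rw [inn_swap, h.v0] at h8
  exact h8

/-- consecutiveness is symmetric -/
theorem cons_symm {i k l j : ℕ} (h5 : ∀ x y, Br T a b p m x y → x ≤ i → y ≤ l → x = i ∧ y = l)
    (h6 : ∀ x y, Br T a b p m x y → x ≤ k → y ≤ j → x = k ∧ y = j)
    (h7 : ∀ x y, Br T a b p m x y → x < k → l ≤ y) : ∀ x y, Br T a b p m x y → y < l → k ≤ x := by
  intro x y hxy hy
  by_contra hx
  have := h7 x y hxy (by omega)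
  omega

/-- one shortening step -/
theorem A1t.step (h : Two T a p b m) {i k l j : ℕ} (hC : CutA T a b p x y)
    (hX1 : T.X (a x) (a y) (a i) (b l) = false) (hX2 : T.X (a x) (a y) (a k) (b j) = false)
    (hA : A1t T (cA a p x y) b (cp p x y) m (dn x y i) (dn x y k) l j) : A1t T a b p m i k l j := by
  intro h1 h2 h3 h4 h5 h6 h7
  have hl := hC.lt
  obtain ⟨g1, e1⟩ := hC.br_dn h h3 hX1
  obtain ⟨g2, e2⟩ := hC.br_dn h h4 hX2
  have k1 := hC.keep h h3 hX1
  have k2 := hC.keep h h4 hX2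
  have h8 := hA ((dn_lt hl k1 k2).1 h1) h2 g1 g2 (fun x' y' hxy hx hy => ?_) (fun x' y' hxy hx hy => ?_)
    (fun x' y' hxy hx => ?_)
  · rw [e1, e2, hC.lo (Nat.zero_le x)] at h8
    exact h8
  · have u := (hC.br_up h hxy).1
    have := h5 _ _ u (by rw [← up_dn hl k1]; exact up_le.1 hx) hy
    refine ⟨?_, this.2⟩
    rw [← this.1, dn_up hl]
  · have u := (hC.br_up h hxy).1
    have := h6 _ _ u (by rw [← up_dn hl k2]; exact up_le.1 hx) hy
    refine ⟨?_, this.2⟩
    rw [← this.1, dn_up hl]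
  · have u := (hC.br_up h hxy).1
    exact h7 _ _ u (by rw [← up_dn hl k2]; exact up_lt.1 hx)

theorem CutA.cplt (h : CutA T a b p x y) : cp p x y < p := by
  have h1 := h.lt
  have h2 := h.le
  unfold cp
  omega

/-- REDUCTION of (A1min) to saturated tuples -/
theorem a1_of_sat (T : Table V)
    (H : ∀ (a b : ℕ → V) (p m i k l j : ℕ), Two T a p b m → Crn T a b p m → Sat1 T a b p i k l j →
      Sat1 T b a m j l k i → A1t T a b p m i k l j) :
    ∀ (n : ℕ) (a b : ℕ → V) (p m i k l j : ℕ), p + m = n → Two T a p b m → Crn T a b p m →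
      A1t T a b p m i k l j := by
  intro n
  induction n using Nat.strong_induction_on with
  | _ n ih =>
    intro a b p m i k l j hn h hc
    by_cases hs : Sat1 T a b p i k l j
    · by_cases hs' : Sat1 T b a m j l k i
      · exact H a b p m i k l j h hc hs hs'
      · unfold Sat1 at hs'
        push Not at hs'
        obtain ⟨x, y, hC, hX1, hX2⟩ := hs'
        replace hX1 := Bool.eq_false_of_not_eq_true hX1
        replace hX2 := Bool.eq_false_of_not_eq_true hX2
        intro h1 h2 h3 h4 h5 h6 h7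
        refine A1t.swap h ?_ (cons_symm h5 h6 h7) h1 h2 h3 h4 h5 h6 h7
        refine A1t.step h.symm hC hX1 hX2 ?_
        exact ih (cp m x y + p) (by have := hC.cplt; omega) _ _ _ _ _ _ _ _ rfl (hC.two h.symm)
          (hC.crn h.symm (hc.swap h))
    · unfold Sat1 at hs
      push Not at hs
      obtain ⟨x, y, hC, hX1, hX2⟩ := hs
      replace hX1 := Bool.eq_false_of_not_eq_true hX1
      replace hX2 := Bool.eq_false_of_not_eq_true hX2
      refine A1t.step h hC hX1 hX2 ?_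
      exact ih (cp p x y + m) (by have := hC.cplt; omega) _ _ _ _ _ _ _ _ rfl (hC.two h) (hC.crn h hc)

/-- (B'min) for one tuple -/
def BMt (T : Table V) (a b : ℕ → V) (p m i k l j i' k' l' j' : ℕ) : Prop :=
  i < k → j < l → Br T a b p m i l → Br T a b p m k j →
    inn T (a i) (b l) (b j) (a k) (a 0) = true →
    k ≤ i' → l ≤ j' → i' < k' → j' < l' → Br T a b p m i' l' → Br T a b p m k' j' →
    (∀ x y, Br T a b p m x y → k ≤ x → l ≤ y → x ≤ i' → y ≤ l' → x = i' ∧ y = l') →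
    (∀ x y, Br T a b p m x y → k ≤ x → l ≤ y → x ≤ k' → y ≤ j' → x = k' ∧ y = j') →
    (∀ x y, Br T a b p m x y → k ≤ x → l ≤ y → x < k' → l' ≤ y) →
    inn T (a i') (b l') (b j') (a k') (a 0) = true

/-- every usable chord of the cycle `a` crosses one of the four edges -/
def Sat2 (T : Table V) (a b : ℕ → V) (p i k l j i' k' l' j' : ℕ) : Prop :=
  ∀ x y, CutA T a b p x y → T.X (a x) (a y) (a i) (b l) = true ∨ T.X (a x) (a y) (a k) (b j) = true ∨
    T.X (a x) (a y) (a i') (b l') = true ∨ T.X (a x) (a y) (a k') (b j') = true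

theorem BMt.swap (h : Two T a p b m) {i k l j i' k' l' j' : ℕ}
    (hA : BMt T b a m p j l k i j' l' k' i') : BMt T a b p m i k l j i' k' l' j' := by
  intro h1 h2 h3 h4 h5 g1 g2 g3 g4 g5 g6 g7 g8 g9
  have h8 := hA h2 h1 h4.swap h3.swap (by rw [inn_swap, h.v0]; exact h5) g2 g1 g4 g3 g6.swap g5.swap
    (fun x y hxy hx1 hy1 hx hy => (g8 y x hxy.swap hy1 hx1 hy hx).symm)
    (fun x y hxy hx1 hy1 hx hy => (g7 y x hxy.swap hy1 hx1 hy hx).symm)
    (fun x y hxy hx1 hy1 hx => by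
      by_contra hx'
      have := g9 y x hxy.swap hy1 hx1 (by omega)
      omega)
  rw [inn_swap, h.v0] at h8
  exact h8

/-- one shortening step -/
theorem BMt.step (h : Two T a p b m) {i k l j i' k' l' j' : ℕ} (hC : CutA T a b p x y)
    (hX1 : T.X (a x) (a y) (a i) (b l) = false) (hX2 : T.X (a x) (a y) (a k) (b j) = false)
    (hX3 : T.X (a x) (a y) (a i') (b l') = false) (hX4 : T.X (a x) (a y) (a k') (b j') = false)
    (hA : BMt T (cA a p x y) b (cp p x y) m (dn x y i) (dn x y k) l j (dn x y i') (dn x y k') l' j') :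
    BMt T a b p m i k l j i' k' l' j' := by
  intro h1 h2 h3 h4 h5 g1 g2 g3 g4 g5 g6 g7 g8 g9
  have hl := hC.lt
  obtain ⟨f1, e1⟩ := hC.br_dn h h3 hX1
  obtain ⟨f2, e2⟩ := hC.br_dn h h4 hX2
  obtain ⟨f3, e3⟩ := hC.br_dn h g5 hX3
  obtain ⟨f4, e4⟩ := hC.br_dn h g6 hX4
  have k1 := hC.keep h h3 hX1
  have k2 := hC.keep h h4 hX2
  have k3 := hC.keep h g5 hX3
  have k4 := hC.keep h g6 hX4
  have ub : ∀ {t s : ℕ}, (t ≤ x ∨ y ≤ t) → dn x y t ≤ s → t ≤ up x y s := by
    intro t s ht hs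
    rw [← up_dn hl ht]
    exact up_le.1 hs
  have ub' : ∀ {t s : ℕ}, (t ≤ x ∨ y ≤ t) → s ≤ dn x y t → up x y s ≤ t := by
    intro t s ht hs
    rw [← up_dn hl ht]
    exact up_le.1 hs
  have h8 := hA ((dn_lt hl k1 k2).1 h1) h2 f1 f2 (by rw [e1, e2, hC.lo (Nat.zero_le x)]; exact h5)
    ((dn_le hl k2 k3).1 g1) g2 ((dn_lt hl k3 k4).1 g3) g4 f3 f4
    (fun x' y' hxy hx1 hy1 hx hy => ?_) (fun x' y' hxy hx1 hy1 hx hy => ?_) (fun x' y' hxy hx1 hy1 hx => ?_)
  · rw [e3, e4, hC.lo (Nat.zero_le x)] at h8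
    exact h8
  · have u := (hC.br_up h hxy).1
    have := g7 _ _ u (ub k2 hx1) hy1 (ub' k3 hx) hy
    refine ⟨?_, this.2⟩
    rw [← this.1, dn_up hl]
  · have u := (hC.br_up h hxy).1
    have := g8 _ _ u (ub k2 hx1) hy1 (ub' k4 hx) hy
    refine ⟨?_, this.2⟩
    rw [← this.1, dn_up hl]
  · have u := (hC.br_up h hxy).1
    exact g9 _ _ u (ub k2 hx1) hy1 (by rw [← up_dn hl k4]; exact up_lt.1 hx)

/-- REDUCTION of (B'min) to saturated tuples -/
theorem bm_of_sat (T : Table V)
    (H : ∀ (a b : ℕ → V) (p m i k l j i' k' l' j' : ℕ), Two T a p b m → Crn T a b p m →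
      Sat2 T a b p i k l j i' k' l' j' → Sat2 T b a m j l k i j' l' k' i' →
      BMt T a b p m i k l j i' k' l' j') :
    ∀ (n : ℕ) (a b : ℕ → V) (p m i k l j i' k' l' j' : ℕ), p + m = n → Two T a p b m → Crn T a b p m →
      BMt T a b p m i k l j i' k' l' j' := by
  intro n
  induction n using Nat.strong_induction_on with
  | _ n ih =>
    intro a b p m i k l j i' k' l' j' hn h hc
    by_cases hs : Sat2 T a b p i k l j i' k' l' j'
    · by_cases hs' : Sat2 T b a m j l k i j' l' k' i'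
      · exact H a b p m i k l j i' k' l' j' h hc hs hs'
      · unfold Sat2 at hs'
        push Not at hs'
        obtain ⟨x, y, hC, hX1, hX2, hX3, hX4⟩ := hs'
        replace hX1 := Bool.eq_false_of_not_eq_true hX1
        replace hX2 := Bool.eq_false_of_not_eq_true hX2
        replace hX3 := Bool.eq_false_of_not_eq_true hX3
        replace hX4 := Bool.eq_false_of_not_eq_true hX4
        refine BMt.swap h (BMt.step h.symm hC hX1 hX2 hX3 hX4 ?_)
        exact ih (cp m x y + p) (by have := hC.cplt; omega) _ _ _ _ _ _ _ _ _ _ _ _ rfl (hC.two h.symm)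
          (hC.crn h.symm (hc.swap h))
    · unfold Sat2 at hs
      push Not at hs
      obtain ⟨x, y, hC, hX1, hX2, hX3, hX4⟩ := hs
      replace hX1 := Bool.eq_false_of_not_eq_true hX1
      replace hX2 := Bool.eq_false_of_not_eq_true hX2
      replace hX3 := Bool.eq_false_of_not_eq_true hX3
      replace hX4 := Bool.eq_false_of_not_eq_true hX4
      refine BMt.step h hC hX1 hX2 hX3 hX4 ?_
      exact ih (cp p x y + m) (by have := hC.cplt; omega) _ _ _ _ _ _ _ _ _ _ _ _ rfl (hC.two h) (hC.crn h hc)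

theorem a1_of_t (h : ∀ i k l j, A1t T a b p m i k l j) : A1 T a b p m := fun i k l j => h i k l j

theorem bm_of_t (h : ∀ i k l j i' k' l' j', BMt T a b p m i k l j i' k' l' j') : BM T a b p m :=
  fun i k l j h1 h2 h3 h4 h5 i' k' l' j' => h i k l j i' k' l' j' h1 h2 h3 h4 h5

end H30P
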