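import Pool.Agent.Lib.H30P.Chk

/-!
# H30P, file Snd: soundness of the checker
-/

set_option autoImplicit false

namespace H30P

open H53P

variable {V : Type*}

theorem lit_even (v : ℕ → Bool) (i : ℕ) : lit v (2 * i) = v i := by
  unfold lit
  have e1 : 2 * i / 2 = i := by omega
  have e2 : 2 * i % 2 = 0 := by omega
  rw [e1, e2]
  cases v i <;> rfl

theorem lit_odd (v : ℕ → Bool) (i : ℕ) : lit v (2 * i + 1) = !v i := by
  unfold lit
  have e1 : (2 * i + 1) / 2 = i := by omega
  have e2 : (2 * i + 1) % 2 = 1 := by omega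
  rw [e1, e2]
  cases v i <;> rfl

/-- the base number of a local variable -/
def rr (r0 r1 r2 r3 r4 k : ℕ) : ℕ :=
  if k < 3 then r0 else if k < 6 then r1 else if k < 9 then r2 else if k < 12 then r3 else r4

theorem k5_sound {T : PT V} {v : ℕ → Bool} {c r0 r1 r2 r3 r4 : ℕ} {a b x d e : V}
    (hc : val5 c = true) (hok : ok5 (T.X a b x d) (T.X a x b d) (T.X a d b x) (T.X a b x e) (T.X a x b e)
      (T.X a e b x) (T.X a b d e) (T.X a d b e) (T.X a e b d) (T.X a x d e) (T.X a d x e) (T.X a e x d)
      (T.X b x d e) (T.X b d x e) (T.X b e x d) = true)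
    (h0 : v (3 * r0) = T.X a b x d ∧ v (3 * r0 + 1) = T.X a x b d ∧ v (3 * r0 + 2) = T.X a d b x)
    (h1 : v (3 * r1) = T.X a b x e ∧ v (3 * r1 + 1) = T.X a x b e ∧ v (3 * r1 + 2) = T.X a e b x)
    (h2 : v (3 * r2) = T.X a b d e ∧ v (3 * r2 + 1) = T.X a d b e ∧ v (3 * r2 + 2) = T.X a e b d)
    (h3 : v (3 * r3) = T.X a x d e ∧ v (3 * r3 + 1) = T.X a d x e ∧ v (3 * r3 + 2) = T.X a e x d)
    (h4 : v (3 * r4) = T.X b x d e ∧ v (3 * r4 + 1) = T.X b d x e ∧ v (3 * r4 + 2) = T.X b e x d) :
    Sat v (glo c r0 r1 r2 r3 r4) := by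
  obtain ⟨l, l30, hl, hv⟩ := val5_sound hc hok
  refine ⟨_, glo_test l30 hl, ?_⟩
  unfold lit at hv ⊢
  have hk : l / 2 < 15 := by omega
  have key : ∀ k < 15, v (3 * rr r0 r1 r2 r3 r4 k + k % 3) =
      b15 (T.X a b x d) (T.X a x b d) (T.X a d b x) (T.X a b x e) (T.X a x b e) (T.X a e b x)
        (T.X a b d e) (T.X a d b e) (T.X a e b d) (T.X a x d e) (T.X a d x e) (T.X a e x d)
        (T.X b x d e) (T.X b d x e) (T.X b e x d) k := by
    intro k hk
    interval_cases k
    · exact h0.1
    · exact h0.2.1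
    · exact h0.2.2
    · exact h1.1
    · exact h1.2.1
    · exact h1.2.2
    · exact h2.1
    · exact h2.2.1
    · exact h2.2.2
    · exact h3.1
    · exact h3.2.1
    · exact h3.2.2
    · exact h4.1
    · exact h4.2.1
    · exact h4.2.2
  have e0 : (if l < 6 then r0 else if l < 12 then r1 else if l < 18 then r2 else if l < 24 then r3 else r4) =
      rr r0 r1 r2 r3 r4 (l / 2) := by
    unfold rr
    have i1 : l / 2 < 3 ↔ l < 6 := by omega
    have i2 : l / 2 < 6 ↔ l < 12 := by omega
    have i3 : l / 2 < 9 ↔ l < 18 := by omega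
    have i4 : l / 2 < 12 ↔ l < 24 := by omega
    simp only [i1, i2, i3, i4]
  have e1 : (6 * rr r0 r1 r2 r3 r4 (l / 2) + l % 6) / 2 = 3 * rr r0 r1 r2 r3 r4 (l / 2) + l / 2 % 3 := by
    omega
  have e2 : (6 * rr r0 r1 r2 r3 r4 (l / 2) + l % 6) % 2 = l % 2 := by omega
  rw [e0, e1, e2, key _ hk]
  exact hv

theorem orm_sat {v : ℕ → Bool} : ∀ (ls : List ℕ) (l : ℕ), l ∈ ls → lit v l = true → Sat v (orm ls) := by
  intro ls
  induction ls with
  | nil => intro l h; cases h
  | cons k ls ih =>
    intro l h h1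
    unfold orm
    rcases List.mem_cons.1 h with h | h
    · subst h
      exact sat_or (Or.inl (sat_one h1))
    · exact sat_or (Or.inr (ih l h h1))

/-- exclusive or of the variables of a list of literals -/
def xl (v : ℕ → Bool) : List ℕ → Bool
  | [] => false
  | l :: ls => v (l / 2) ^^ xl v ls

theorem xl_par {v : ℕ → Bool} : ∀ ls : List ℕ, (∀ l ∈ ls, lit v l = false) → xl v ls = par ls := by
  intro ls
  induction ls with
  | nil => intro _; rfl
  | cons l ls ih =>
    intro h
    unfold xl par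
    rw [ih (fun k hk => h k (List.mem_cons_of_mem _ hk))]
    have h1 := h l List.mem_cons_self
    unfold lit at h1
    cases h2 : Nat.beq (l % 2) 1 with
    | true =>
      rw [h2] at h1
      simp only [cond_true, Bool.not_eq_false'] at h1
      rw [h1]
    | false =>
      rw [h2] at h1
      simp only [cond_false] at h1
      rw [h1]

theorem ckl_sound {T : PT V} {p : ℕ → V} {q : Tr} {N : ℕ} {gs : List (ℕ × ℕ × ℕ)} {l a b c d : ℕ}
    (h : ckl q N l a b c d = true) (ha : a < 16) (hb : b < 16) (hc : c < 16) (hd : d < 16) :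
    val T p q N gs (l / 2) = T.X (p a) (p b) (p c) (p d) := by
  unfold ckl at h
  rw [Bool.and_eq_true, Nat.blt_eq] at h
  rw [val_lt h.1, same_sound h.2, cX_cd T p ha hb hc hd]

/-- every axiom clause is satisfied -/
theorem ckax_sound {q : Tr} {N n : ℕ} {gs : List (ℕ × ℕ × ℕ)} {hl : List ℕ} {T : PT V} {p : ℕ → V}
    (hn : n ≤ 16) (hp : ∀ i < n, ∀ j < n, p i = p j → i = j)
    (hh : ∀ l ∈ hl, lit (val T p q N gs) l = true) {A : Ax} {m : ℕ} (h : ckax q N n gs hl A m = true) :
    Sat (val T p q N gs) m := by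
  cases A with
  | k5 r0 r1 r2 r3 r4 a b c d e x =>
    have h' : ((Nat.blt a b && (Nat.blt b c && (Nat.blt c d && (Nat.blt d e && (Nat.blt e n && Nat.blt x 521))))) &&
      ((ckq q N r0 a b c d && (ckq q N r1 a b c e && (ckq q N r2 a b d e && (ckq q N r3 a c d e &&
        ckq q N r4 b c d e)))) && Nat.beq m (glo (PI.get x) r0 r1 r2 r3 r4))) = true := h
    simp only [Bool.and_eq_true, Nat.blt_eq] at h'
    obtain ⟨⟨ab, bc, cd, de, en, x521⟩, ⟨q0, q1, q2, q3, q4⟩, hm⟩ := h'
    rw [Nat.eq_of_beq_eq_true hm]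
    have ne : ∀ i j, i < j → j < n → p i ≠ p j := fun i j h1 h2 h3 =>
      absurd (hp i (by omega) j h2 h3) (by omega)
    refine k5_sound (T := T) (pi_ok x x521) (T.five _ _ _ _ _ (ne a b ab (by omega)) (ne a c (by omega) (by omega))
      (ne a d (by omega) (by omega)) (ne a e (by omega) (by omega)) (ne b c bc (by omega))
      (ne b d (by omega) (by omega)) (ne b e (by omega) (by omega)) (ne c d cd (by omega))
      (ne c e (by omega) (by omega)) (ne d e de (by omega)))
      (ckq_sound q0 (by omega) (by omega) (by omega) (by omega))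
      (ckq_sound q1 (by omega) (by omega) (by omega) (by omega))
      (ckq_sound q2 (by omega) (by omega) (by omega) (by omega))
      (ckq_sound q3 (by omega) (by omega) (by omega) (by omega))
      (ckq_sound q4 (by omega) (by omega) (by omega) (by omega))
  | gt k x =>
    have h' : (match gs[k]? with
      | none => false
      | some g => Nat.blt (g.2.1 / 2) (N + k) && (Nat.blt (g.2.2 / 2) (N + k) &&
        Nat.beq m (gcl g.1 (2 * (N + k)) g.2.1 g.2.2 x))) = true := h
    cases hg : gs[k]? with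
    | none =>
      rw [hg] at h'
      cases h'
    | some g =>
      rw [hg] at h'
      simp only [Bool.and_eq_true, Nat.blt_eq] at h'
      obtain ⟨h1, h2, h3⟩ := h'
      rw [Nat.eq_of_beq_eq_true h3]
      apply gcl_sound
      rw [lit_even]
      exact ext_get gs _ N k g hg h1 h2
  | al i j =>
    have h' : (Nat.blt i N && (Nat.blt j N && (same (q.get i) (q.get j) &&
      Nat.beq m ((1 <<< (2 * i + 1)) ||| (1 <<< (2 * j)))))) = true := h
    simp only [Bool.and_eq_true, Nat.blt_eq] at h'
    obtain ⟨h1, h2, h3, h4⟩ := h'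
    rw [Nat.eq_of_beq_eq_true h4]
    apply sat_or
    have h5 : val T p q N gs i = val T p q N gs j := by
      rw [val_lt h1, val_lt h2]
      exact same_sound h3
    cases h6 : val T p q N gs j with
    | true =>
      right
      apply sat_one
      rw [lit_even, h6]
    | false =>
      left
      apply sat_one
      rw [lit_odd, h5, h6]
      rfl
  | hy l =>
    have h' : (hl.contains l && Nat.beq m (1 <<< l)) = true := h
    rw [Bool.and_eq_true, List.contains_iff_mem] at h'
    rw [Nat.eq_of_beq_eq_true h'.2]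
    exact sat_one (hh l h'.1)
  | t6 a b c x y z l1 l2 l3 l4 l5 l6 l7 l8 l9 =>
    have h' : (ck6 n a b c x y z && (((ckl q N l1 x y a b && (ckl q N l2 x y b c && ckl q N l3 x y c a)) &&
      ((ckl q N l4 y z a b && (ckl q N l5 y z b c && ckl q N l6 y z c a)) &&
      (ckl q N l7 z x a b && (ckl q N l8 z x b c && ckl q N l9 z x c a)))) &&
      (par [l1, l2, l3, l4, l5, l6, l7, l8, l9] &&
        Nat.beq m (orm [l1, l2, l3, l4, l5, l6, l7, l8, l9])))) = true := h
    unfold ck6 at h'
    simp only [Bool.and_eq_true, Nat.blt_eq, Bool.not_eq_true'] at h'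
    obtain ⟨⟨⟨ab, bc, xy, yz, cn, zn⟩, ⟨ax, ay, az⟩, ⟨bx, by_, bz⟩, ⟨cx, cy, cz⟩⟩, ⟨⟨k1, k2, k3⟩,
      ⟨k4, k5, k6⟩, ⟨k7, k8, k9⟩⟩, hpar, hm⟩ := h'
    rw [Nat.eq_of_beq_eq_true hm]
    by_contra hno
    have hf : ∀ l ∈ [l1, l2, l3, l4, l5, l6, l7, l8, l9], lit (val T p q N gs) l = false := by
      intro l hl
      cases h1 : lit (val T p q N gs) l with
      | false => rfl
      | true => exact absurd (orm_sat _ l hl h1) hno
    have h1 := xl_par _ hf
    rw [hpar] at h1
    have ne : ∀ i j, i < n → j < n → Nat.beq i j = false → p i ≠ p j := fun i j h1 h2 h3 h4 => by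
      rw [hp i h1 j h2 h4, Nat.beq_refl] at h3
      cases h3
    have nlt : ∀ i j, i < j → j < n → p i ≠ p j := fun i j h1 h2 h3 =>
      absurd (hp i (by omega) j h2 h3) (by omega)
    have an : a < n := by omega
    have bn : b < n := by omega
    have xn : x < n := by omega
    have yn : y < n := by omega
    have h2 := T.tri (p a) (p b) (p c) (nlt a b ab bn) (nlt b c bc cn) (nlt a c (by omega) cn).symm
      (p x) (p y) (p z) (ne a x an xn ax).symm (ne b x bn xn bx).symm (ne c x cn xn cx).symm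
      (ne a y an yn ay).symm (ne b y bn yn by_).symm (ne c y cn yn cy).symm
      (ne a z an zn az).symm (ne b z bn zn bz).symm (ne c z cn zn cz).symm
    unfold crTX at h2
    unfold xl xl xl xl xl xl xl xl xl xl at h1
    rw [ckl_sound k1 (by omega) (by omega) (by omega) (by omega), ckl_sound k2 (by omega) (by omega) (by omega) (by omega),
      ckl_sound k3 (by omega) (by omega) (by omega) (by omega), ckl_sound k4 (by omega) (by omega) (by omega) (by omega),
      ckl_sound k5 (by omega) (by omega) (by omega) (by omega), ckl_sound k6 (by omega) (by omega) (by omega) (by omega),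
      ckl_sound k7 (by omega) (by omega) (by omega) (by omega), ckl_sound k8 (by omega) (by omega) (by omega) (by omega),
      ckl_sound k9 (by omega) (by omega) (by omega) (by omega)] at h1
    generalize T.X (p x) (p y) (p a) (p b) = z1 at *
    generalize T.X (p x) (p y) (p b) (p c) = z2 at *
    generalize T.X (p x) (p y) (p c) (p a) = z3 at *
    generalize T.X (p y) (p z) (p a) (p b) = z4 at *
    generalize T.X (p y) (p z) (p b) (p c) = z5 at *
    generalize T.X (p y) (p z) (p c) (p a) = z6 at *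
    generalize T.X (p z) (p x) (p a) (p b) = z7 at *
    generalize T.X (p z) (p x) (p b) (p c) = z8 at *
    generalize T.X (p z) (p x) (p c) (p a) = z9 at *
    clear hno hf
    revert h1 h2
    cases z1 <;> cases z2 <;> cases z3 <;> cases z4 <;> cases z5 <;> cases z6 <;> cases z7 <;> cases z8 <;>
      cases z9 <;> simp

theorem ckaxs_cons (q : Tr) (N n : ℕ) (gs : List (ℕ × ℕ × ℕ)) (hl : List ℕ) (t : Tr) (A : Ax) (As : List Ax)
    (i : ℕ) : ckaxs q N n gs hl t (A :: As) i =
      (ckax q N n gs hl A (t.get i) && ckaxs q N n gs hl t As (i + 1)) := by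
  have e : ckaxs q N n gs hl t (A :: As) i = Bool.rec false (fo (i + 1) (ckaxs q N n gs hl t As))
    (fo (t.get i) fun m => ckax q N n gs hl A m) := rfl
  rw [e, fo_eq, fo_eq]
  cases ckax q N n gs hl A (t.get i) <;> rfl

theorem ckaxs_sound {q : Tr} {N n : ℕ} {gs : List (ℕ × ℕ × ℕ)} {hl : List ℕ} {T : PT V} {p : ℕ → V}
    (hn : n ≤ 16) (hp : ∀ i < n, ∀ j < n, p i = p j → i = j)
    (hh : ∀ l ∈ hl, lit (val T p q N gs) l = true) {t : Tr} : ∀ (As : List Ax) (i : ℕ),
    (∀ j < i, Sat (val T p q N gs) (t.get j)) → ckaxs q N n gs hl t As i = true →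
    ∀ j < i + As.length, Sat (val T p q N gs) (t.get j) := by
  intro As
  induction As with
  | nil => intro i h _; exact h
  | cons A As ih =>
    intro i h hr
    rw [ckaxs_cons, Bool.and_eq_true] at hr
    have h1 : ∀ j < i + 1, Sat (val T p q N gs) (t.get j) := by
      intro j hj
      rcases Nat.lt_succ_iff_lt_or_eq.1 hj with hj | hj
      · exact h j hj
      · rw [hj]
        exact ckax_sound hn hp hh hr.1
    have h2 := ih (i + 1) h1 hr.2
    intro j hj
    apply h2
    rw [List.length_cons] at hj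
    omega

/-- SOUNDNESS: a successful check refutes the hypotheses -/
theorem check_pt {q : Tr} {N n : ℕ} {gs : List (ℕ × ℕ × ℕ)} {hl : List ℕ} {t : Tr} {As : List Ax}
    {pf : List (List ℕ)} {last : List ℕ} (h : check q N n gs hl t As pf last = true) {T : PT V}
    {p : ℕ → V} (hp : ∀ i < n, ∀ j < n, p i = p j → i = j)
    (hh : ∀ l ∈ hl, lit (val T p q N gs) l = true) : False := by
  unfold check at h
  rw [Bool.and_eq_true, Bool.and_eq_true, Bool.and_eq_true] at h
  obtain ⟨h0, h1, h2, h3⟩ := h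
  have hn : n ≤ 16 := Nat.le_of_ble_eq_true h0
  have a1 := ckaxs_sound hn hp hh As 0 (fun j hj => absurd hj (Nat.not_lt_zero j)) h1
  rw [Nat.zero_add] at a1
  have a2 := run_sound pf As.length a1 h2
  refine rup_sound a2 last 0 ?_ h3
  intro l hl
  rw [Nat.zero_testBit] at hl
  cases hl

/-- SOUNDNESS for tables -/
theorem check_sound {q : Tr} {N n : ℕ} {gs : List (ℕ × ℕ × ℕ)} {hl : List ℕ} {t : Tr} {As : List Ax}
    {pf : List (List ℕ)} {last : List ℕ} (h : check q N n gs hl t As pf last = true) {T : Table V}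
    {p : ℕ → V} (hp : ∀ i < n, ∀ j < n, p i = p j → i = j)
    (hh : ∀ l ∈ hl, lit (val (toPT T) p q N gs) l = true) : False :=
  check_pt h hp hh

/-- the points of a list without repetitions -/
theorem pts_inj {l : List V} (h : l.Nodup) (x : V) :
    ∀ i < l.length, ∀ j < l.length, l.getD i x = l.getD j x → i = j := by
  intro i hi j hj hij
  rw [List.getD_eq_getElem _ _ hi, List.getD_eq_getElem _ _ hj] at hij
  exact (List.Nodup.getElem_inj_iff h).1 hij

theorem hneg {b : Bool} (h : b = false) : (!b) = true := by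
  rw [h]
  rfl

end H30P
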