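import Pool.Agent.Lib.H30P.Cor
import Pool.Agent.Lib.H63L.V3

/-!
# H30P, file Tab: (V2) holds for every table
-/

set_option autoImplicit false

namespace H30P

open H53P

/-- (V2) for tables -/
theorem sees_table {V : Type} [Fintype V] [DecidableEq V] (T : Table V) : Sees T (crossT T) :=
  ⟨fun a b c d => crossT_mk T a b c d, fun _ hW _ hp => v2_table T hW hp⟩

end H30P
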