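import Pool.Agent.Lib.H30P.E

/-!
# H30P, file Two: two plane cycles through `v`, the positions of the bridging edges

`Two T a p b m`: cycles `v = a 0, a 1, .., a p` and `v = b 0, b 1, .., b m`, plane, only `v` in common.
`Brd T a b x y`: the edge `xy` crosses no edge of the two cycles. `rv c n`: the reverse cycle.
`jn a b i j`: the closed walk `a 0, .., a i, b j, .., b 1`.
`Crn`: `a 1` and `b 1` are at the same corner of `v`. `cr_iff`: two bridging edges cross if and only if
their positions are incomparable.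
-/

set_option autoImplicit false

namespace H30P

open H53P Finset

variable {V : Type*} [DecidableEq V] {T : Table V} {a b : ℕ → V} {p m : ℕ}

/-- two plane cycles with only `v = a 0 = b 0` in common -/
structure Two (T : Table V) (a : ℕ → V) (p : ℕ) (b : ℕ → V) (m : ℕ) : Prop where
  pa : Pg T a (p + 1)
  pb : Pg T b (m + 1)
  v0 : b 0 = a 0
  dis : ∀ i j, 1 ≤ i → i ≤ p → a i ≠ b j
  un : ∀ i j, T.X (a i) (a (i + 1)) (b j) (b (j + 1)) = false

/-- `xy` crosses no edge of the two cycles -/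
def Brd (T : Table V) (a b : ℕ → V) (x y : V) : Prop := Unc T a x y ∧ Unc T b x y

/-- the reverse cycle -/
def rv (c : ℕ → V) (n : ℕ) : ℕ → V := fun k => c (n - k % n)

theorem Per.top {c : ℕ → V} {n : ℕ} (h : Per c n) : c n = c 0 := by
  have := h.per 0
  rwa [Nat.zero_add] at this

theorem rv_zero {c : ℕ → V} {n : ℕ} (h : Per c n) : rv c n 0 = c 0 := by
  unfold rv
  rw [Nat.zero_mod, Nat.sub_zero, h.top]

theorem rv_of {c : ℕ → V} {n : ℕ} {k : ℕ} (h2 : k < n) : rv c n k = c (n - k) := by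
  unfold rv
  rw [Nat.mod_eq_of_lt h2]

theorem rv_top {c : ℕ → V} {n : ℕ} (h : Per c n) : rv c n n = c 0 := by
  unfold rv
  rw [Nat.mod_self, Nat.sub_zero, h.top]

/-- the step of the reverse cycle -/
theorem rv_step {c : ℕ → V} {n : ℕ} (h : Per c n) (k : ℕ) :
    ∃ t, t < n ∧ rv c n k = c (t + 1) ∧ rv c n (k + 1) = c t ∧ t + 1 + k % n = n := by
  have h3 := h.three
  have h4 : k % n < n := Nat.mod_lt _ (by omega)
  refine ⟨n - 1 - k % n, by omega, ?_, ?_, by omega⟩
  · unfold rv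
    rw [show n - 1 - k % n + 1 = n - k % n by omega]
  · unfold rv
    rcases Nat.lt_or_ge (k % n + 1) n with h5 | h5
    · have h6 : (k + 1) % n = k % n + 1 := by
        rw [Nat.add_mod, Nat.mod_eq_of_lt (show 1 < n by omega), Nat.mod_eq_of_lt h5]
      rw [h6, show n - (k % n + 1) = n - 1 - k % n by omega]
    · have h6 : (k + 1) % n = 0 := by
        rw [Nat.add_mod, Nat.mod_eq_of_lt (show 1 < n by omega), show k % n + 1 = n by omega, Nat.mod_self]
      rw [h6, Nat.sub_zero, h.top, show n - 1 - k % n = 0 by omega]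

theorem rv_per {c : ℕ → V} {n : ℕ} (h : Per c n) : Per (rv c n) n where
  three := h.three
  per k := by
    unfold rv
    rw [Nat.add_mod_right]
  inj i hi j hj hij := by
    rw [rv_of hi, rv_of hj, h.eq_iff] at hij
    rcases Nat.eq_zero_or_pos i with h1 | h1 <;> rcases Nat.eq_zero_or_pos j with h2 | h2
    · omega
    · rw [h1, Nat.sub_zero, Nat.mod_self, Nat.mod_eq_of_lt (show n - j < n by omega)] at hij
      omega
    · rw [h2, Nat.sub_zero, Nat.mod_self, Nat.mod_eq_of_lt (show n - i < n by omega)] at hij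
      omega
    · rw [Nat.mod_eq_of_lt (show n - i < n by omega), Nat.mod_eq_of_lt (show n - j < n by omega)] at hij
      omega

theorem rv_pg {c : ℕ → V} {n : ℕ} (h : Pg T c n) : Pg T (rv c n) n where
  toPer := rv_per h.toPer
  plane i j := by
    obtain ⟨s, _, e1, e2, _⟩ := rv_step h.toPer i
    obtain ⟨t, _, e3, e4, _⟩ := rv_step h.toPer j
    rw [e1, e2, e3, e4, T.xs1, T.xs2]
    exact h.plane s t

theorem unc_rv {c : ℕ → V} {n : ℕ} (h : Per c n) {x y : V} (hu : Unc T c x y) : Unc T (rv c n) x y := by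
  intro k
  obtain ⟨s, _, e1, e2, _⟩ := rv_step h k
  rw [e1, e2, T.xs2]
  exact hu s

theorem rv_rv {c : ℕ → V} {n : ℕ} (h : Per c n) : rv (rv c n) n = c := by
  funext k
  have h3 := h.three
  have h4 : k % n < n := Nat.mod_lt _ (by omega)
  show rv c n (n - k % n) = c k
  rcases Nat.eq_zero_or_pos (k % n) with h1 | h1
  · rw [h1, Nat.sub_zero, rv_top h, ← h.mod k, h1]
  · rw [rv_of (by omega), show n - (n - k % n) = k % n by omega, h.mod]

theorem Two.symm (h : Two T a p b m) : Two T b m a p where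
  pa := h.pb
  pb := h.pa
  v0 := h.v0.symm
  dis i j h1 h2 := by
    intro h3
    by_cases h4 : j % (p + 1) = 0
    · rw [← h.pa.toPer.mod j, h4, ← h.v0, h.pb.toPer.eq_iff, Nat.zero_mod,
        Nat.mod_eq_of_lt (by omega)] at h3
      omega
    · have h5 : j % (p + 1) < p + 1 := Nat.mod_lt _ (by omega)
      refine h.dis (j % (p + 1)) i (by omega) (by omega) ?_
      rw [h.pa.toPer.mod j, h3]
  un i j := by rw [T.xs4]; exact h.un j i

theorem Two.rvb (h : Two T a p b m) : Two T a p (rv b (m + 1)) m where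
  pa := h.pa
  pb := rv_pg h.pb
  v0 := by rw [rv_zero h.pb.toPer, h.v0]
  dis i j h1 h2 := h.dis i _ h1 h2
  un i j := by
    obtain ⟨s, _, e1, e2, _⟩ := rv_step h.pb.toPer j
    rw [e1, e2, T.xs2]
    exact h.un i s

theorem Two.rva (h : Two T a p b m) : Two T (rv a (p + 1)) p b m := h.symm.rvb.symm

theorem Brd.rvb (h : Two T a p b m) {x y : V} (hb : Brd T a b x y) : Brd T a (rv b (m + 1)) x y :=
  ⟨hb.1, unc_rv h.pb.toPer hb.2⟩

theorem Brd.rva (h : Two T a p b m) {x y : V} (hb : Brd T a b x y) : Brd T (rv a (p + 1)) b x y :=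
  ⟨unc_rv h.pa.toPer hb.1, hb.2⟩

theorem unc_symm {c : ℕ → V} {x y : V} (h : Unc T c x y) : Unc T c y x := fun k => by
  rw [T.xs1]
  exact h k

theorem Brd.symm {x y : V} (hb : Brd T a b x y) : Brd T a b y x := ⟨unc_symm hb.1, unc_symm hb.2⟩

theorem Brd.swap {x y : V} (hb : Brd T a b x y) : Brd T b a x y := ⟨hb.2, hb.1⟩

theorem Two.dis0 (h : Two T a p b m) {i j : ℕ} (h1 : i ≤ p) (h2 : 1 ≤ j) (h3 : j ≤ m) : a i ≠ b j :=
  fun h4 => h.symm.dis j i h2 h3 h4.symm

/-- the closed walk `a 0, .., a i, b j, .., b 1` -/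
def jn (a b : ℕ → V) (i j : ℕ) : ℕ → V := fun k =>
  if k % (i + j + 1) ≤ i then a (k % (i + j + 1)) else b (i + j + 1 - k % (i + j + 1))

theorem jn_a {i j k : ℕ} (h : k ≤ i) : jn a b i j k = a k := by
  unfold jn
  rw [Nat.mod_eq_of_lt (by omega), if_pos h]

theorem jn_b {i j k : ℕ} (h1 : 1 ≤ k) (h2 : k ≤ j) : jn a b i j (i + j + 1 - k) = b k := by
  unfold jn
  rw [Nat.mod_eq_of_lt (by omega), if_neg (by omega), show i + j + 1 - (i + j + 1 - k) = k by omega]

/-- the edges of `jn` -/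
theorem jn_step (h0 : b 0 = a 0) (i j k : ℕ) :
    (∃ t, t < i ∧ jn a b i j k = a t ∧ jn a b i j (k + 1) = a (t + 1)) ∨
    (jn a b i j k = a i ∧ jn a b i j (k + 1) = b j) ∨
    (∃ t, t < j ∧ jn a b i j k = b (t + 1) ∧ jn a b i j (k + 1) = b t) := by
  obtain ⟨r, hr⟩ : ∃ r, r = k % (i + j + 1) := ⟨_, rfl⟩
  have h4 : r < i + j + 1 := hr ▸ Nat.mod_lt _ (by omega)
  rcases Nat.lt_or_ge (r + 1) (i + j + 1) with h5 | h5
  · have h6 : (k + 1) % (i + j + 1) = r + 1 := by
      rw [Nat.add_mod, ← hr, Nat.mod_eq_of_lt (show 1 < i + j + 1 by omega), Nat.mod_eq_of_lt h5]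
    have e1 : jn a b i j k = if r ≤ i then a r else b (i + j + 1 - r) := by unfold jn; rw [← hr]
    have e2 : jn a b i j (k + 1) = if r + 1 ≤ i then a (r + 1) else b (i + j + 1 - (r + 1)) := by
      unfold jn; rw [h6]
    rcases Nat.lt_trichotomy r i with h7 | h7 | h7
    · left
      exact ⟨r, h7, by rw [e1, if_pos (by omega)], by rw [e2, if_pos (by omega)]⟩
    · right; left
      refine ⟨by rw [e1, if_pos (by omega), h7], ?_⟩
      rw [e2, if_neg (by omega), h7, show i + j + 1 - (i + 1) = j by omega]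
    · right; right
      refine ⟨i + j - r, by omega, ?_, ?_⟩
      · rw [e1, if_neg (by omega), show i + j + 1 - r = i + j - r + 1 by omega]
      · rw [e2, if_neg (by omega), show i + j + 1 - (r + 1) = i + j - r by omega]
  · have h6 : (k + 1) % (i + j + 1) = 0 := by
      rcases Nat.eq_zero_or_pos (i + j) with h7 | h7
      · rw [h7, Nat.mod_one]
      rw [Nat.add_mod, ← hr, Nat.mod_eq_of_lt (show 1 < i + j + 1 by omega), show r + 1 = i + j + 1 by omega,
        Nat.mod_self]
    have e1 : jn a b i j k = if r ≤ i then a r else b (i + j + 1 - r) := by unfold jn; rw [← hr]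
    have e2 : jn a b i j (k + 1) = a 0 := by
      unfold jn; rw [h6, if_pos (by omega)]
    rcases Nat.eq_zero_or_pos j with h8 | h8
    · right; left
      subst h8
      refine ⟨by rw [e1, if_pos (by omega), show r = i by omega], by rw [e2, h0]⟩
    · right; right
      refine ⟨0, h8, ?_, by rw [e2, h0]⟩
      rw [e1, if_neg (by omega), show i + j + 1 - r = 0 + 1 by omega]

theorem jn_per (h : Two T a p b m) {i j : ℕ} (i1 : 1 ≤ i) (ip : i ≤ p) (j1 : 1 ≤ j) (jm : j ≤ m) :
    Per (jn a b i j) (i + j + 1) where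
  three := by omega
  per k := by
    unfold jn
    rw [Nat.add_mod_right]
  inj k hk l hl hkl := by
    have h1 := h.pa.toPer.inj
    have h2 := h.pb.toPer.inj
    rcases Nat.lt_or_ge i k with h3 | h3 <;> rcases Nat.lt_or_ge i l with h4 | h4
    · rw [show k = i + j + 1 - (i + j + 1 - k) by omega, show l = i + j + 1 - (i + j + 1 - l) by omega,
        jn_b (by omega) (by omega), jn_b (by omega) (by omega)] at hkl
      have := h2 _ (by omega) _ (by omega) hkl
      omega
    · rw [show k = i + j + 1 - (i + j + 1 - k) by omega, jn_b (by omega) (by omega), jn_a h4] at hkl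
      exact absurd hkl.symm (h.dis0 (by omega) (by omega) (by omega))
    · rw [show l = i + j + 1 - (i + j + 1 - l) by omega, jn_b (by omega) (by omega), jn_a h3] at hkl
      exact absurd hkl (h.dis0 (by omega) (by omega) (by omega))
    · rw [jn_a h3, jn_a h4] at hkl
      exact h1 _ (by omega) _ (by omega) hkl

theorem X_selfd (T : Table V) (x y : V) : T.X x y x y = false := by
  cases h : T.X x y x y with
  | false => rfl
  | true => exact absurd rfl (T.ne _ _ _ _ h).2.2.1

/-- edges which miss the two cycles and `a i b j` miss `jn` -/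
theorem jn_unc (h : Two T a p b m) {i j : ℕ} {x y : V} (h1 : Brd T a b x y)
    (h2 : T.X x y (a i) (b j) = false) : Unc T (jn a b i j) x y := by
  intro k
  rcases jn_step h.v0 i j k with ⟨t, _, e1, e2⟩ | ⟨e1, e2⟩ | ⟨t, _, e1, e2⟩
  · rw [e1, e2]; exact h1.1 t
  · rw [e1, e2]; exact h2
  · rw [e1, e2, T.xs2]; exact h1.2 t

theorem Two.brd_a (h : Two T a p b m) (k : ℕ) : Brd T a b (a k) (a (k + 1)) :=
  ⟨fun t => h.pa.plane k t, fun t => h.un k t⟩

theorem Two.brd_b (h : Two T a p b m) (k : ℕ) : Brd T a b (b k) (b (k + 1)) :=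
  ⟨fun t => by rw [T.xs4]; exact h.un t k, fun t => h.pb.plane k t⟩

theorem jn_pg (h : Two T a p b m) {i j : ℕ} (i1 : 1 ≤ i) (ip : i ≤ p) (j1 : 1 ≤ j) (jm : j ≤ m)
    (hb : Brd T a b (a i) (b j)) : Pg T (jn a b i j) (i + j + 1) where
  toPer := jn_per h i1 ip j1 jm
  plane k := by
    show Unc T (jn a b i j) _ _
    rcases jn_step h.v0 i j k with ⟨t, _, e1, e2⟩ | ⟨e1, e2⟩ | ⟨t, _, e1, e2⟩
    · rw [e1, e2]
      exact jn_unc h (h.brd_a t) (by rw [T.xs4]; exact hb.1 t)
    · rw [e1, e2]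
      exact jn_unc h hb (X_selfd T _ _)
    · rw [e1, e2]
      exact unc_symm (jn_unc h (h.brd_b t) (by rw [T.xs4]; exact hb.2 t))

theorem jn_off_a (h : Two T a p b m) {i j k : ℕ} (i1 : 1 ≤ i) (j1 : 1 ≤ j) (jm : j ≤ m) (hk : i < k)
    (hk2 : k ≤ p) : Off (pe (jn a b i j) (i + j + 1)) (a k) := by
  apply (jn_per h i1 (by omega) j1 jm).off
  intro t ht
  unfold jn at ht
  have h1 : t % (i + j + 1) < i + j + 1 := Nat.mod_lt _ (by omega)
  split_ifs at ht with h2
  · have := h.pa.toPer.inj _ (by omega) _ (by omega) ht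
    omega
  · exact h.dis k _ (by omega) (by omega) ht.symm

theorem jn_off_b (h : Two T a p b m) {i j k : ℕ} (i1 : 1 ≤ i) (ip : i ≤ p) (j1 : 1 ≤ j) (hk : j < k)
    (hk2 : k ≤ m) : Off (pe (jn a b i j) (i + j + 1)) (b k) := by
  apply (jn_per h i1 ip j1 (by omega)).off
  intro t ht
  unfold jn at ht
  have h1 : t % (i + j + 1) < i + j + 1 := Nat.mod_lt _ (by omega)
  split_ifs at ht with h2
  · exact h.dis0 (i := t % (i + j + 1)) (j := k) (by omega) (by omega) (by omega) ht
  · have := h.pb.toPer.inj _ (by omega) _ (by omega) ht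
    omega

theorem jn_nb (h : Two T a p b m) {i j : ℕ} (i1 : 1 ≤ i) (ip : i ≤ p) (j1 : 1 ≤ j) (jm : j ≤ m) :
    Nb (pe (jn a b i j) (i + j + 1)) (a 0) (a 1) (b 1) := by
  have h1 := (jn_per h i1 ip j1 jm).nb 0
  rw [jn_a (by omega), show 0 + 1 = 1 by rfl, jn_a (by omega), show 0 + (i + j + 1) - 1 = i + j + 1 - 1 by omega,
    jn_b (by omega) (by omega)] at h1
  exact h1

/-- positions comparable: no crossing; incomparable: crossing; in one statement -/
theorem jn_cross (h : Two T a p b m) {i j i' j' : ℕ} (i1 : 1 ≤ i) (ii : i < i') (ip : i' ≤ p)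
    (j1 : 1 ≤ j) (jj : j < j') (jm : j' ≤ m) (hb : Brd T a b (a i) (b j))
    (hb' : Brd T a b (a i') (b j')) :
    T.X (a i') (b j') (a i) (b j) = T.alt (a 0) (a 1) (b 1) (a p) (b m) := by
  have hP := jn_pg h i1 (by omega) j1 (by omega) hb
  have hC := hP.toPer.clo
  have oa : ∀ k, i < k → k ≤ p → Off (pe (jn a b i j) (i + j + 1)) (a k) := fun k h1 h2 =>
    jn_off_a h i1 j1 (by omega) h1 h2
  have ob : ∀ k, j < k → k ≤ m → Off (pe (jn a b i j) (i + j + 1)) (b k) := fun k h1 h2 =>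
    jn_off_b h i1 (by omega) j1 h1 h2
  have ea : ∀ k, pc T (pe (jn a b i j) (i + j + 1)) (a k) (a (k + 1)) = 0 := fun k =>
    pc_unc hP.toPer (jn_unc h (h.brd_a k) (by rw [T.xs4]; exact hb.1 k))
  have eb : ∀ k, pc T (pe (jn a b i j) (i + j + 1)) (b k) (b (k + 1)) = 0 := fun k =>
    pc_unc hP.toPer (jn_unc h (h.brd_b k) (by rw [T.xs4]; exact hb.2 k))
  -- the crossing number
  have hX : pc T (pe (jn a b i j) (i + j + 1)) (a i') (b j') = x4 T (a i') (b j') (a i) (b j) := by
    rw [pc_pe hP.toPer]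
    unfold asum
    rw [Finset.sum_eq_single i]
    · rw [jn_a (le_refl i), show i + 1 = i + j + 1 - j by omega, jn_b j1 (le_refl j)]
    · intro t ht hti
      rw [mem_Ico] at ht
      rcases jn_step h.v0 i j t with ⟨s, _, e1, e2⟩ | ⟨e1, _⟩ | ⟨s, _, e1, e2⟩
      · rw [e1, e2]
        unfold x4
        rw [hb'.1]
        rfl
      · rw [← jn_a (a := a) (b := b) (j := j) (le_refl i)] at e1
        exact absurd (hP.inj _ (by omega) _ (by omega) e1) hti
      · rw [e1, e2]
        unfold x4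
        rw [T.xs2, hb'.2]
        rfl
    · intro h3
      exact absurd (mem_Ico.2 ⟨by omega, by omega⟩) h3
  have s1 : pc T (pe (jn a b i j) (i + j + 1)) (a i') (b j') =
      pc T (pe (jn a b i j) (i + j + 1)) (a p) (b j') :=
    arc_side hC (ob j' jj jm) ip (fun k h1 h2 => oa k (by omega) h2) (fun k _ _ => ea k)
  have s2 : pc T (pe (jn a b i j) (i + j + 1)) (b j') (a p) =
      pc T (pe (jn a b i j) (i + j + 1)) (b m) (a p) :=
    arc_side hC (oa p (by omega) le_rfl) jm (fun k h1 h2 => ob k (by omega) h2) (fun k _ _ => eb k)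
  have hv := pc_one (T := T) (y := a p) (z := b m) hC (jn_nb h i1 (by omega) j1 (by omega))
    (h.pa.toPer.ne_of (by omega) (by omega)) (h.dis0 (by omega) (by omega) le_rfl) (h.dis0 le_rfl (by omega) le_rfl)
    (oa p (by omega) le_rfl) (ob m (by omega) le_rfl) hP.toPer.lpl
  have e1 := ea p
  rw [h.pa.toPer.top] at e1
  have e2 := eb m
  rw [h.pb.toPer.top, h.v0] at e2
  rw [pc_symm T _ (a 0) (a p), e1, e2, zero_add, add_zero] at hv
  apply z2_inj
  change x4 T _ _ _ _ = al T _ _ _ _ _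
  rw [← hX, s1, pc_symm, s2, pc_symm, hv]

end H30P
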