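import Pool.Agent.Lib.H30P.Asm

/-!
# H30P, file TwoU: gluing, one level

`BU cross a b p m i k l j`: the bridging edges above `c = a i b l` and `d = a k b j` (`i < k`, `j < l`).
`two_of_u`: if the complex of `BU` is acyclic for all crossing `c`, `d` with no bridging edge below both,
then the complex of all bridging edges is acyclic.
-/

set_option autoImplicit false
set_option linter.unusedSectionVars false

namespace H30P

open H53P Finset

variable {V : Type*} [Fintype V] [DecidableEq V] {T : Table V} {a b : ℕ → V} {p m : ℕ}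
  {cross : Sym2 V → Sym2 V → Prop}

/-- the bridging edges above `a i b l` and `a k b j` -/
noncomputable def BU (cross : Sym2 V → Sym2 V → Prop) (a b : ℕ → V) (p m i k l j : ℕ) : Finset (Sym2 V) :=
  H98L.U (pos a p) (pos b m) (BE cross a b p m) s(a i, b l) s(a k, b j)

theorem mem_bu (h : Two T a p b m) (hS : Sees T cross) {i k l j : ℕ} (hik : i < k) (hjl : j < l)
    (hb : Br T a b p m i l) (hb' : Br T a b p m k j) {e : Sym2 V} :
    e ∈ BU cross a b p m i k l j ↔ ∃ x y, Br T a b p m x y ∧ k ≤ x ∧ l ≤ y ∧ e = s(a x, b y) := by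
  unfold BU
  rw [H98L.mem_U]
  have e1 := be_pos h hb
  have e2 := be_pos h hb'
  constructor
  · rintro ⟨h1, ⟨h2, h3⟩, ⟨h4, h5⟩⟩
    obtain ⟨x, y, hxy, rfl⟩ := (mem_be h hS).1 h1
    have e3 := be_pos h hxy
    rw [e1.2, e3.2] at h3
    rw [e2.1, e3.1] at h4
    exact ⟨x, y, hxy, h4, h3, rfl⟩
  · rintro ⟨x, y, hxy, hx, hy, rfl⟩
    have e3 := be_pos h hxy
    refine ⟨(mem_be h hS).2 ⟨x, y, hxy, rfl⟩, ⟨?_, ?_⟩, ⟨?_, ?_⟩⟩
    · rw [e1.1, e3.1]; omega
    · rw [e1.2, e3.2]; omega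
    · rw [e2.1, e3.1]; omega
    · rw [e2.2, e3.2]; omega

/-- GLUING, one level -/
theorem two_of_u (h : Two T a p b m) (hc : Crn T a b p m) (hS : Sees T cross)
    (h0 : ∃ i j, Br T a b p m i j)
    (hU : ∀ i k l j, i < k → j < l → Br T a b p m i l → Br T a b p m k j →
      (∀ x y, Br T a b p m x y → x ≤ i → y ≤ j → False) →
      H98Z.Acy cross (BU cross a b p m i k l j)) : H98Z.Acy cross (BE cross a b p m) := by
  refine H98L.glue hS.symm _ _ rfl ?_ (be_grid h hc hS) ?_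
  · obtain ⟨i, j, hb⟩ := h0
    exact ⟨_, (mem_be h hS).2 ⟨i, j, hb, rfl⟩⟩
  · intro e f hcd
    obtain ⟨m1, m2, lt, _⟩ := hcd
    obtain ⟨i, l, hb, rfl⟩ := (mem_be h hS).1 m1.1
    obtain ⟨k, j, hb', rfl⟩ := (mem_be h hS).1 m2.1
    have e1 := be_pos h hb
    have e2 := be_pos h hb'
    rw [e1.1, e2.1] at lt
    have hjl : j < l := by
      have h5 := H98L.mn_y m1 m2 (by rw [e1.1, e2.1]; omega)
      rw [e1.2, e2.2] at h5
      rcases Nat.lt_or_ge j l with h6 | h6
      · exact h6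
      · have h7 := m2.2 _ m1.1 ⟨by rw [e1.1, e2.1]; omega, by rw [e1.2, e2.2]; omega⟩
        rw [← e1.1, h7, e2.1] at lt
        exact absurd lt (lt_irrefl _)
    refine hU i k l j lt hjl hb hb' fun x y hxy hx hy => ?_
    have e3 := be_pos h hxy
    have h7 := m1.2 _ ((mem_be h hS).2 ⟨x, y, hxy, rfl⟩) ⟨by rw [e3.1, e1.1]; exact hx, by rw [e3.2, e1.2]; omega⟩
    have h8 : pos b m s(a x, b y) = pos b m s(a i, b l) := by rw [h7]
    rw [e3.2, e1.2] at h8
    omega

end H30P
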