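import Pool.Agent.Lib.H30P.UpN

/-!
# H30P, file UpB: bridging edges are chords of the upper room

`pol_hi`, `pol_lo`: the start side of a chord at its ends. `up_bwd`: a bridging edge above `c` and `d` is a chord
of the upper room.
-/

set_option autoImplicit false
set_option linter.unusedSectionVars false
set_option linter.unusedVariables false

namespace H30P

open H53P H36L H10S Finset

section

variable {V : Type*} [DecidableEq V] {T : Table V} {w : ℕ → V} {p : ℕ} {A B : V}

theorem al3 {u a b c d : V} (au : a ≠ u) (bu : b ≠ u) (cu : c ≠ u) (du : d ≠ u) (ab : a ≠ b) (ac : a ≠ c)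
    (ad : a ≠ d) (bc : b ≠ c) (bd : b ≠ d) (cd : c ≠ d) :
    al T u a b c d + al T u a c b d + al T u a d b c = 1 := by
  have h1 := (T.rot3 au bu cu du ab ac ad bc bd cd).1
  change ((T.alt u a b c d ^^ T.alt u a c b d) ^^ T.alt u a d b c) = true at h1
  unfold al
  rw [← z2_xor, ← z2_xor, h1, z2_true]

/-- the upper end of a chord -/
theorem pol_hi {x m : ℕ} (h : Pol T w p A B x m) (hz : x + m < p) :
    rf T w p A B (x + m) (w x) = DD T w p A B (E2 w x m) (x + m - 1) + 1 + pc T (E2 w x m) (w (x + m + 1)) B := by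
  have h2 := h.m2
  have hE := h.toExt
  have e1 := h.i1 (by omega)
  have e2 := pc_one' h.clo h.nbm (y := w (x + m + 1)) (z := B) (hE.ne (by omega) (by omega) (by omega))
    (hE.neB (by omega)) (h.off2 (by omega) (by omega)) h.offB2 h.lpl (T := T)
  have e3 := h.pcz (t := x + m) (by omega)
  have e4 := al3 (T := T) (u := w (x + m)) (a := w (x + m + 1)) (b := w x) (c := w (x + m - 1)) (d := B)
    (hE.ne (by omega) (by omega) (by omega)) (hE.ne (by omega) (by omega) (by omega))
    (hE.ne (by omega) (by omega) (by omega)) (hE.neB (by omega)).symm (hE.ne (by omega) (by omega) (by omega))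
    (hE.ne (by omega) (by omega) (by omega)) (hE.neB (by omega)) (hE.ne (by omega) (by omega) (by omega))
    (hE.neB (by omega)) (hE.neB (by omega))
  rw [e3, zero_add, al4] at e2
  unfold rf
  have e5 : DD T w p A B (E2 w x m) (x + m) = rs T w p A B (w (x + m)) + pc T (E2 w x m) (w (x + m)) B := rfl
  rw [e5] at e1
  linear_combination (norm := (ring_nf <;> reduce_mod_char)) e1 + e2 + e4

/-- the lower end of a chord -/
theorem pol_lo {x m : ℕ} (h : Pol T w p A B x m) (hx : 0 < x) :
    rf T w p A B x (w (x + m)) = DD T w p A B (E2 w x m) (x + 1) + 1 + pc T (E2 w x m) (w (x - 1)) B := by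
  have h2 := h.m2
  have h3 := h.le
  have hE := h.toExt
  have e1 := h.i2 hx
  have e2 := pc_one' h.clo h.nb0 (y := w (x - 1)) (z := B) (hE.ne (by omega) (by omega) (by omega))
    (hE.neB (by omega)) (h.off2 (by omega) (by omega)) h.offB2 h.lpl (T := T)
  have e3 := h.pcz (t := x - 1) (by omega)
  rw [show x - 1 + 1 = x by omega, pc_symm] at e3
  have e4 := al3 (T := T) (u := w x) (a := w (x - 1)) (b := w (x + m)) (c := w (x + 1)) (d := B)
    (hE.ne (by omega) (by omega) (by omega)) (hE.ne (by omega) (by omega) (by omega))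
    (hE.ne (by omega) (by omega) (by omega)) (hE.neB (by omega)).symm (hE.ne (by omega) (by omega) (by omega))
    (hE.ne (by omega) (by omega) (by omega)) (hE.neB (by omega)) (hE.ne (by omega) (by omega) (by omega))
    (hE.neB (by omega)) (hE.neB (by omega))
  rw [e3, zero_add, al4, al2] at e2
  unfold rf
  rw [al1 T (w x) (w (x + 1)) (w (x - 1))]
  have e5 : DD T w p A B (E2 w x m) x = rs T w p A B (w x) + pc T (E2 w x m) (w x) B := rfl
  rw [e5] at e1
  linear_combination (norm := (ring_nf <;> reduce_mod_char)) e1 + e2 + e4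

end

variable {V : Type*} [DecidableEq V] {T : Table V} {a b : ℕ → V} {p m i k l j : ℕ}

section

variable (h : Cd T a b p m i k l j) {s t : ℕ} (hb : Br T a b p m (k + s) (m + 1 - (t - (p + 1 - k))))
  (hs : s < p + 1 - k) (ht : p + 1 - k < t) (tq : t ≤ p + 1 - k + (m + 1 - l))

include h hb hs ht tq

theorem up_s : wU a b p m i k l s = a (k + s) := wU_a (by omega)

theorem up_t : wU a b p m i k l t = b (m + 1 - (t - (p + 1 - k))) := by
  have := wU_b h (t := t - (p + 1 - k)) (by omega)
  rwa [show p + 1 - k + (t - (p + 1 - k)) = t by omega] at this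

/-- it misses `d = a k b j` -/
theorem up_mc : T.X (wU a b p m i k l 0) (b j) (wU a b p m i k l s) (wU a b p m i k l t) = false := by
  have har := h.ar
  rw [up_s h hb hs ht tq, up_t h hb hs ht tq, wU_0]
  cases e : T.X (a k) (b j) (a (k + s)) (b (m + 1 - (t - (p + 1 - k)))) with
  | false => rfl
  | true =>
    rw [cr_iff h.two h.crn h.d hb] at e
    omega

/-- it misses `c = b l a i` -/
theorem up_md : T.X (wU a b p m i k l (p + 1 - k + (m + 1 - l))) (a i) (wU a b p m i k l s)
    (wU a b p m i k l t) = false := by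
  have har := h.ar
  rw [up_s h hb hs ht tq, up_t h hb hs ht tq, wU_q h, T.xs1]
  cases e : T.X (a i) (b l) (a (k + s)) (b (m + 1 - (t - (p + 1 - k)))) with
  | false => rfl
  | true =>
    rw [cr_iff h.two h.crn h.c hb] at e
    omega

theorem up_brd : Brd T a b (wU a b p m i k l s) (wU a b p m i k l t) := by
  rw [up_s h hb hs ht tq, up_t h hb hs ht tq]
  exact hb.2.2.2.2

theorem up_pol : Pol T (wU a b p m i k l) (p + 1 - k + (m + 1 - l)) (a i) (b j) s (t - s) where
  toExt := up_ext h
  m2 := by omega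
  le := by omega
  mis r hr := by
    rw [show s + (t - s) = t by omega]
    rcases Nat.lt_or_ge r (p + 1 - k + (m + 1 - l)) with h1 | h1
    · exact (up_brd h hb hs ht tq).mis h r h1
    · have e : r = p + 1 - k + (m + 1 - l) := by omega
      subst e
      rw [wU_A, T.xs4]
      exact up_md h hb hs ht tq

/-- an edge which misses the path and the chord -/
theorem up_fe {x u : V} (h1 : Mis T (wU a b p m i k l) (p + 1 - k + (m + 1 - l)) x u)
    (h2 : T.X (wU a b p m i k l s) (wU a b p m i k l t) x u = false) :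
    pc T (E2 (wU a b p m i k l) s (t - s)) x u = 0 := by
  refine pc_unc (up_pol h hb hs ht tq).per' (unc_of (fun r r1 r2 => h1 r (by omega)) ?_)
  rw [show s + (t - s) = t by omega, T.xs4, T.xs1]
  exact h2

theorem up_fa (r : ℕ) : pc T (E2 (wU a b p m i k l) s (t - s)) (a r) (a (r + 1)) = 0 :=
  up_fe h hb hs ht tq ((h.two.brd_a r).mis h) ((up_brd h hb hs ht tq).1 r)

theorem up_fb (r : ℕ) : pc T (E2 (wU a b p m i k l) s (t - s)) (b r) (b (r + 1)) = 0 :=
  up_fe h hb hs ht tq ((h.two.brd_b r).mis h) ((up_brd h hb hs ht tq).2 r)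

theorem up_off {x : V} (hx : ∀ r ≤ p + 1 - k + (m + 1 - l), wU a b p m i k l r ≠ x) :
    Off (E2 (wU a b p m i k l) s (t - s)) x := by
  apply (up_pol h hb hs ht tq).per'.off
  intro r
  unfold sub
  have := Nat.mod_lt r (by omega : 0 < t - s + 1)
  exact hx _ (by omega)

theorem up_off_w {r : ℕ} (h1 : r < s ∨ t < r) (h2 : r ≤ p + 1 - k + (m + 1 - l) + 1) :
    Off (E2 (wU a b p m i k l) s (t - s)) (wU a b p m i k l r) := by
  apply (up_pol h hb hs ht tq).off2 h2
  omega

/-- from `b l` to `b j` -/
theorem up_bl (h1 : t < p + 1 - k + (m + 1 - l)) :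
    pc T (E2 (wU a b p m i k l) s (t - s)) (b l) (b j) = 0 := by
  have har := h.ar
  have hP := up_pol h hb hs ht tq
  rw [← arc_side hP.clo hP.offB2 (c := b) (i := j) (j := l) (by omega) ?_ fun r _ _ => up_fb h hb hs ht tq r,
    pc_self]
  intro r r1 r2
  rcases Nat.lt_or_ge r l with r3 | r3
  · exact up_off h hb hs ht tq (wU_off_b h (by omega) r3)
  · have e : r = l := by omega
    rw [e, ← wU_q h]
    exact up_off_w h hb hs ht tq (Or.inr h1) (by omega)

/-- the edge `d` -/
theorem up_ak : pc T (E2 (wU a b p m i k l) s (t - s)) (a k) (b j) = 0 := by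
  refine up_fe h hb hs ht tq (h.d.2.2.2.2.mis h) ?_
  rw [T.xs4]
  have := up_mc h hb hs ht tq
  rwa [wU_0] at this

/-- the edge `c` -/
theorem up_ai : pc T (E2 (wU a b p m i k l) s (t - s)) (a i) (b l) = 0 := by
  refine up_fe h hb hs ht tq (h.c.2.2.2.2.mis h) ?_
  rw [T.xs4, T.xs1]
  have := up_md h hb hs ht tq
  rwa [wU_q h] at this

/-- `a 1` and `B` are on the same side of the polygon -/
theorem up_a1 (h1 : 0 < s ∨ t < p + 1 - k + (m + 1 - l)) :
    pc T (E2 (wU a b p m i k l) s (t - s)) (a 1) (b j) = 0 := by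
  have har := h.ar
  have hP := up_pol h hb hs ht tq
  rcases h1 with h1 | h1
  · rw [arc_side hP.clo hP.offB2 (c := a) (i := 1) (j := k) (by omega) ?_ fun r _ _ => up_fa h hb hs ht tq r,
      up_ak h hb hs ht tq]
    intro r r1 r2
    rcases Nat.lt_or_ge r k with r3 | r3
    · exact up_off h hb hs ht tq (wU_off_a h (by omega) r3)
    · have e : r = k := by omega
      rw [e, ← wU_0 (a := a) (b := b) (p := p) (m := m) (i := i) (l := l)]
      exact up_off_w h hb hs ht tq (Or.inl h1) (by omega)
  · have o1 : ∀ r, 1 ≤ r → r ≤ i → Off (E2 (wU a b p m i k l) s (t - s)) (a r) := fun r r1 r2 =>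
      up_off h hb hs ht tq (wU_off_a h (by omega) (by omega))
    rw [arc_side hP.clo hP.offB2 (c := a) (i := 1) (j := i) (by omega) o1 fun r _ _ => up_fa h hb hs ht tq r]
    have o2 : Off (E2 (wU a b p m i k l) s (t - s)) (b l) := by
      rw [← wU_q h]
      exact up_off_w h hb hs ht tq (Or.inr h1) (by omega)
    have e := pc_co hP.clo (o1 i h.c.1 le_rfl) o2 hP.offB2 (T := T)
    rw [up_bl h hb hs ht tq h1, up_ai h hb hs ht tq, add_zero] at e
    exact e

/-- the constant of the polygon -/
theorem up_dd (h1 : 0 < s ∨ t < p + 1 - k + (m + 1 - l)) :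
    DD T (wU a b p m i k l) (p + 1 - k + (m + 1 - l)) (a i) (b j) (E2 (wU a b p m i k l) s (t - s)) (p + 1 - k) =
      0 := by
  have har := h.ar
  have hP := up_pol h hb hs ht tq
  have hR := up_room h
  have ho := wU_off_a h (r := 1) (by omega) (by omega)
  have e1 := hR.rf_ray (i := p + 1 - k) (z := a 1) (by omega) (by omega) ho
    (by rw [wU_v h]; exact (brd_c h 0).1) (by rw [wU_v h]; exact (brd_c h 0).2)
  rw [rs_a h (by omega) (by omega), wU_v h, asum_unc (c := wU a b p m i k l) (i := 0)
    (j := p + 1 - k + (m + 1 - l)) (fun r _ hr => (h.two.brd_a 0).mis h r hr), add_zero] at e1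
  have e2 := pc_one' hP.clo (hP.nb1 (t := p + 1 - k) (by omega) (by omega)) (y := a 1) (z := b j)
    (ho _ (by omega)) (hR.offB _ (by omega)) (up_off h hb hs ht tq ho) hP.offB2 hP.lpl (T := T)
  rw [up_a1 h hb hs ht tq h1, add_zero, wU_v h, up_fa h hb hs ht tq 0, zero_add] at e2
  unfold rf at e1
  unfold DD
  rw [wU_v h] at e1 ⊢
  rw [e2, e1]

/-- (I5), second half -/
theorem up_bwd : NCh T (wU a b p m i k l) (p + 1 - k + (m + 1 - l)) (a i) (b j) s t where
  lt := by omega
  le := tq
  mis := (up_brd h hb hs ht tq).mis h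
  mc := up_mc h hb hs ht tq
  md := up_md h hb hs ht tq
  l h1 := by
    have hP := up_pol h hb hs ht tq
    have e1 := pol_lo hP h1
    rw [show s + (t - s) = t by omega, hP.c1' (s := s + 1) (t := p + 1 - k) (by omega) (by omega) (by omega),
      up_dd h hb hs ht tq (Or.inl h1)] at e1
    have e2 := arc_side hP.clo hP.offB2 (c := wU a b p m i k l) (i := 0) (j := s - 1) (by omega)
      (fun r _ r2 => up_off_w h hb hs ht tq (Or.inl (by omega)) (by omega))
      (fun r _ _ => hP.pcz (by omega))
    rw [wU_0, up_ak h hb hs ht tq] at e2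
    rw [e1, ← e2]
    rfl
  r h1 := by
    have hP := up_pol h hb hs ht tq
    have e1 := pol_hi hP (by omega)
    rw [show s + (t - s) = t by omega, ← hP.c1' (s := p + 1 - k) (t := t - 1) (by omega) (by omega) (by omega),
      up_dd h hb hs ht tq (Or.inr h1)] at e1
    have e2 := arc_side hP.clo hP.offB2 (c := wU a b p m i k l) (i := t + 1) (j := p + 1 - k + (m + 1 - l))
      (by omega) (fun r r1 r2 => up_off_w h hb hs ht tq (Or.inr (by omega)) (by omega))
      (fun r _ _ => hP.pcz (by omega))
    rw [wU_q h, up_bl h hb hs ht tq h1] at e2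
    rw [e1, e2]
    rfl
  g s0 tq' := by
    have har := h.ar
    have hR := up_room h
    have hmis := (up_brd h hb hs ht tq).mis h
    have hbr := up_brd h hb hs ht tq
    rw [s0, tq'] at hbr
    have key : ∀ r, a r ≠ wU a b p m i k l 0 → a r ≠ wU a b p m i k l (p + 1 - k + (m + 1 - l)) →
        a (r + 1) ≠ wU a b p m i k l 0 → a (r + 1) ≠ wU a b p m i k l (p + 1 - k + (m + 1 - l)) →
        inn T (wU a b p m i k l 0) (b j) (wU a b p m i k l (p + 1 - k + (m + 1 - l))) (a i) (a r) =
          inn T (wU a b p m i k l 0) (b j) (wU a b p m i k l (p + 1 - k + (m + 1 - l))) (a i) (a (r + 1)) := by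
      intro r r1 r2 r3 r4
      have h5 := hR.rcl (x := a r) (y := a (r + 1)) (h.two.pa.toPer.ne_of (by omega) (by have := h.two.pa.toPer.three; omega)) r1 r2 r3 r4 (brd_c h r).1 (brd_c h r).2
      have h6 : x4 T (a r) (a (r + 1)) (wU a b p m i k l (p + 1 - k + (m + 1 - l))) (wU a b p m i k l 0) = 0 := by
        rw [x4_4, x4_1]
        unfold x4
        rw [hbr.1 r]
        rfl
      rw [h6] at h5
      apply z2_inj
      have h7 := two_z (z2 (inn T (wU a b p m i k l 0) (b j) (wU a b p m i k l (p + 1 - k + (m + 1 - l))) (a i)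
        (a (r + 1))))
      linear_combination -h7 - h5
    have na : ∀ r, 1 ≤ r → r < k → a r ≠ wU a b p m i k l 0 ∧
        a r ≠ wU a b p m i k l (p + 1 - k + (m + 1 - l)) := fun r r1 r2 =>
      ⟨(wU_off_a h r1 r2 _ (by omega)).symm, (wU_off_a h r1 r2 _ (by omega)).symm⟩
    have nv : ∀ r, r ≤ p + 1 - k → 0 < r → a (k + r) ≠ wU a b p m i k l 0 ∧
        a (k + r) ≠ wU a b p m i k l (p + 1 - k + (m + 1 - l)) := by
      intro r r1 r0
      rw [← wU_a (a := a) (b := b) (p := p) (m := m) (i := i) (l := l) r1]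
      exact ⟨hR.ne_w (by omega) (by omega) (by omega), hR.ne_w (by omega) (by omega) (by omega)⟩
    -- the lower part of the cycle
    have low : ∀ r, r ≤ i → inn T (wU a b p m i k l 0) (b j) (wU a b p m i k l (p + 1 - k + (m + 1 - l))) (a i)
        (a 0) = inn T (wU a b p m i k l 0) (b j) (wU a b p m i k l (p + 1 - k + (m + 1 - l))) (a i) (a r) := by
      intro r
      induction r with
      | zero => intro _; rfl
      | succ r ih =>
        intro hr
        rw [ih (by omega)]
        have n0 : a r ≠ wU a b p m i k l 0 ∧ a r ≠ wU a b p m i k l (p + 1 - k + (m + 1 - l)) := by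
          by_cases r0 : r = 0
          · rw [r0, ← wU_v h]
            exact ⟨hR.ne_w (by omega) (by omega) (by omega), hR.ne_w (by omega) (by omega) (by omega)⟩
          · exact na r (by omega) (by omega)
        have n1 := na (r + 1) (by omega) (by omega)
        exact key r n0.1 n0.2 n1.1 n1.2
    have upp : ∀ r, 0 < r → r ≤ p + 1 - k →
        inn T (wU a b p m i k l 0) (b j) (wU a b p m i k l (p + 1 - k + (m + 1 - l))) (a i) (a (k + 1)) =
          inn T (wU a b p m i k l 0) (b j) (wU a b p m i k l (p + 1 - k + (m + 1 - l))) (a i) (a (k + r)) := by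
      intro r
      induction r with
      | zero => intro h1; omega
      | succ r ih =>
        intro _ hr
        by_cases r0 : r = 0
        · rw [r0]
        rw [ih (by omega) (by omega)]
        have n0 := nv r (by omega) (by omega)
        have n1 := nv (r + 1) hr (by omega)
        exact key (k + r) n0.1 n0.2 n1.1 n1.2
    have e1 := upp (p + 1 - k) (by omega) le_rfl
    rw [show k + (p + 1 - k) = p + 1 by omega, h.two.pa.toPer.top, low i le_rfl, inn_v] at e1
    have e2 : wU a b p m i k l 1 = a (k + 1) := wU_a (by omega)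
    rw [e2, e1]

end

/-- (I5) for the upper room -/
theorem up_nch (h : Cd T a b p m i k l j) {s t : ℕ} (hs : s < p + 1 - k) (ht : p + 1 - k < t)
    (tq : t ≤ p + 1 - k + (m + 1 - l)) :
    NCh T (wU a b p m i k l) (p + 1 - k + (m + 1 - l)) (a i) (b j) s t ↔
      Br T a b p m (k + s) (m + 1 - (t - (p + 1 - k))) :=
  ⟨fun hN => up_fwd h hN hs ht, fun hb => up_bwd h hb hs ht tq⟩

end H30P
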