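import Pool.Agent.Lib.H30P.UpR

/-!
# H30P, file UpN: the chords of the upper room

`up_fwd`: a chord of the upper room which straddles `v` is a bridging edge.
-/

set_option autoImplicit false
set_option linter.unusedSectionVars false
set_option linter.unusedVariables false

namespace H30P

open H53P H36L H10S Finset

variable {V : Type*} [DecidableEq V] {T : Table V} {a b : ℕ → V} {p m i k l j : ℕ}

theorem x4_zero {x y z u : V} (h : x4 T x y z u = 0) : T.X x y z u = false := z2_inj h

/-- an edge misses a cycle if it misses the edges with index `< n` -/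
theorem unc_lt {c : ℕ → V} {n : ℕ} (h : Per c n) {x y : V} (hu : ∀ r < n, T.X x y (c r) (c (r + 1)) = false) :
    Unc T c x y := by
  intro r
  have h3 := h.three
  have h4 := hu (r % n) (Nat.mod_lt _ (by omega))
  have e1 : c (r % n + 1) = c (r + 1) := by
    rw [h.eq_iff, Nat.mod_add_mod]
  rwa [h.mod, e1] at h4

section

variable (h : Cd T a b p m i k l j)

include h

/-- an edge of the cycles misses `c`, `d` and the path -/
theorem brd_c (r : ℕ) : T.X (wU a b p m i k l 0) (b j) (a r) (a (r + 1)) = false ∧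
    T.X (wU a b p m i k l (p + 1 - k + (m + 1 - l))) (a i) (a r) (a (r + 1)) = false := by
  rw [wU_0, wU_q h, T.xs1 (b l)]
  exact ⟨h.d.2.2.2.2.1 r, h.c.2.2.2.2.1 r⟩

theorem brd_d (r : ℕ) : T.X (wU a b p m i k l 0) (b j) (b r) (b (r + 1)) = false ∧
    T.X (wU a b p m i k l (p + 1 - k + (m + 1 - l))) (a i) (b r) (b (r + 1)) = false := by
  rw [wU_0, wU_q h, T.xs1 (b l)]
  exact ⟨h.d.2.2.2.2.2 r, h.c.2.2.2.2.2 r⟩

/-- the lower vertices are outside -/
theorem rs_low_a {r s : ℕ} (r1 : 1 ≤ r) (rs' : r ≤ s) (sk : s < k) :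
    rs T (wU a b p m i k l) (p + 1 - k + (m + 1 - l)) (a i) (b j) (a r) =
      rs T (wU a b p m i k l) (p + 1 - k + (m + 1 - l)) (a i) (b j) (a s) := by
  induction s, rs' using Nat.le_induction with
  | base => rfl
  | succ s hs ih =>
    rw [ih (by omega)]
    exact (up_room h).rs_eq (wU_off_a h (by omega) (by omega)) (wU_off_a h (by omega) sk) (brd_c h s).1
      (brd_c h s).2 ((h.two.brd_a s).mis h)

theorem rs_low_b {r s : ℕ} (r1 : 1 ≤ r) (rs' : r ≤ s) (sl : s < l) :
    rs T (wU a b p m i k l) (p + 1 - k + (m + 1 - l)) (a i) (b j) (b r) =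
      rs T (wU a b p m i k l) (p + 1 - k + (m + 1 - l)) (a i) (b j) (b s) := by
  induction s, rs' using Nat.le_induction with
  | base => rfl
  | succ s hs ih =>
    rw [ih (by omega)]
    exact (up_room h).rs_eq (wU_off_b h (by omega) (by omega)) (wU_off_b h (by omega) sl) (brd_d h s).1
      (brd_d h s).2 ((h.two.brd_b s).mis h)

theorem rs_a {r : ℕ} (r1 : 1 ≤ r) (rk : r < k) :
    rs T (wU a b p m i k l) (p + 1 - k + (m + 1 - l)) (a i) (b j) (a r) = 0 := by
  have h1 := (up_room h).rs_A
  rcases Nat.le_total r i with h2 | h2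
  · rw [rs_low_a h r1 h2 h.ik, h1]
  · rw [← rs_low_a h h.c.1 h2 rk, h1]

theorem rs_b {r : ℕ} (r1 : 1 ≤ r) (rl : r < l) :
    rs T (wU a b p m i k l) (p + 1 - k + (m + 1 - l)) (a i) (b j) (b r) = 0 := by
  have h1 := (up_room h).rs_B
  rcases Nat.le_total r j with h2 | h2
  · rw [rs_low_b h r1 h2 h.jl, h1]
  · rw [← rs_low_b h h.ar.2.2.2.1 h2 rl, h1]

/-- the path is not in the small triangle -/
theorem inn_path' {s t : ℕ} (hN : NCh T (wU a b p m i k l) (p + 1 - k + (m + 1 - l)) (a i) (b j) s t)
    (hs : s = 0) (ht : t = p + 1 - k + (m + 1 - l)) {r : ℕ} (r0 : 0 < r) (rp : r < p + 1 - k + (m + 1 - l)) :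
    inn T (wU a b p m i k l 0) (b j) (wU a b p m i k l (p + 1 - k + (m + 1 - l))) (a i)
      (wU a b p m i k l r) = false := by
  have hR := up_room h
  have h1 := hN.g hs ht
  have hg := hN.mis
  rw [hs, ht] at hg
  induction r with
  | zero => omega
  | succ r ih =>
    by_cases r0' : r = 0
    · subst r0'; exact h1
    have h4 := ih (by omega) (by omega)
    have h5 := hR.rcl (hR.ne_w (by omega) (by omega) (by omega)) (hR.ne_w (by omega) (by omega) (by omega))
      (hR.ne_w (by omega) (by omega) (by omega)) (hR.ne_w (by omega) (by omega) (by omega))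
      (hR.ne_w (by omega) (by omega) (by omega)) (hR.unc r (by omega)) (hR.und r (by omega))
    have h6 : x4 T (wU a b p m i k l r) (wU a b p m i k l (r + 1)) (wU a b p m i k l (p + 1 - k + (m + 1 - l)))
        (wU a b p m i k l 0) = 0 := by
      rw [x4_4, x4_1]
      unfold x4
      rw [hg r (by omega)]
      rfl
    rw [h6, h4, z2_false, zero_add] at h5
    apply z2_inj
    rw [← h5, z2_false]

/-- an edge from a vertex off the path which misses the path, `c` and `d` misses the chord -/
theorem fwd_edge {s t : ℕ} (hN : NCh T (wU a b p m i k l) (p + 1 - k + (m + 1 - l)) (a i) (b j) s t) {x u : V}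
    (hx : ∀ r ≤ p + 1 - k + (m + 1 - l), wU a b p m i k l r ≠ x)
    (h0 : rs T (wU a b p m i k l) (p + 1 - k + (m + 1 - l)) (a i) (b j) x = 0)
    (hu : (∃ r, r ≤ p + 1 - k + (m + 1 - l) ∧ u = wU a b p m i k l r) ∨
      ((∀ r ≤ p + 1 - k + (m + 1 - l), wU a b p m i k l r ≠ u) ∧
        rs T (wU a b p m i k l) (p + 1 - k + (m + 1 - l)) (a i) (b j) u = 0))
    (mx : Mis T (wU a b p m i k l) (p + 1 - k + (m + 1 - l)) x u)
    (hc : T.X (wU a b p m i k l 0) (b j) x u = false)
    (hd : T.X (wU a b p m i k l (p + 1 - k + (m + 1 - l))) (a i) x u = false) :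
    T.X x u (wU a b p m i k l s) (wU a b p m i k l t) = false := by
  have hR := up_room h
  have h1 := hN.lt
  have h2 := hN.le
  cases hX : T.X x u (wU a b p m i k l s) (wU a b p m i k l t) with
  | false => rfl
  | true =>
    exfalso
    have hc' : T.X x u (wU a b p m i k l 0) (b j) = false := by rw [T.xs4]; exact hc
    have hd' : T.X x u (wU a b p m i k l (p + 1 - k + (m + 1 - l))) (a i) = false := by rw [T.xs4]; exact hd
    have nc : T.X (wU a b p m i k l s) (wU a b p m i k l t) (wU a b p m i k l 0) (b j) = false := by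
      rw [T.xs4]; exact hN.mc
    have nd : T.X (wU a b p m i k l s) (wU a b p m i k l t) (wU a b p m i k l (p + 1 - k + (m + 1 - l))) (a i) =
        false := by
      rw [T.xs4]; exact hN.md
    by_cases s0 : 0 < s
    · have e := rsep_one hR s0 (by omega) hx hX mx hc' hd' hN.mis nc nd
        (hR.ne_w (by omega) (by omega) (by omega)) (hR.ne_w (by omega) (by omega) (by omega))
      rw [h0, hN.l s0] at e
      exact absurd e (by decide)
    by_cases tq : t < p + 1 - k + (m + 1 - l)
    · have e := rsep_one hR (i := t) (v := wU a b p m i k l s) (by omega) tq hx (by rw [T.xs2]; exact hX) mx hc' hd'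
        (fun r hr => by rw [T.xs1]; exact hN.mis r hr) (by rw [T.xs1]; exact nc) (by rw [T.xs1]; exact nd)
        (hR.ne_w (by omega) (by omega) (by omega)) (hR.ne_w (by omega) (by omega) (by omega))
      rw [h0, hN.r tq] at e
      exact absurd e (by decide)
    have es : s = 0 := by omega
    have et : t = p + 1 - k + (m + 1 - l) := by omega
    have hg := hN.mis
    rw [es, et] at hX hg
    have hn := T.ne _ _ _ _ hX
    have ix : inn T (wU a b p m i k l 0) (b j) (wU a b p m i k l (p + 1 - k + (m + 1 - l))) (a i) x = false := by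
      cases e : inn T (wU a b p m i k l 0) (b j) (wU a b p m i k l (p + 1 - k + (m + 1 - l))) (a i) x with
      | false => rfl
      | true =>
        have e2 := sep_g hR hg (hN.g es et) hx e
        rw [h0] at e2
        exact absurd e2 (by decide)
    have iu : inn T (wU a b p m i k l 0) (b j) (wU a b p m i k l (p + 1 - k + (m + 1 - l))) (a i) u = false := by
      rcases hu with ⟨r, hr, rfl⟩ | ⟨hu, hu0⟩
      · refine inn_path' h hN es et ?_ ?_
        · rcases Nat.eq_zero_or_pos r with r0 | r0
          · subst r0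
            exact absurd rfl hn.2.2.2.2.1
          · exact r0
        · rcases Nat.lt_or_ge r (p + 1 - k + (m + 1 - l)) with r0 | r0
          · exact r0
          · have : r = p + 1 - k + (m + 1 - l) := by omega
            rw [this] at hn
            exact absurd rfl hn.2.2.2.2.2
      · cases e : inn T (wU a b p m i k l 0) (b j) (wU a b p m i k l (p + 1 - k + (m + 1 - l))) (a i) u with
        | false => rfl
        | true =>
          have e2 := sep_g hR hg (hN.g es et) hu e
          rw [hu0] at e2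
          exact absurd e2 (by decide)
    have e := hR.rcl hn.1 hn.2.2.1 hn.2.2.2.1 hn.2.2.2.2.1 hn.2.2.2.2.2 hc hd
    rw [ix, iu, z2_false, add_zero, x4_2] at e
    rw [x4_zero e] at hX
    cases hX

/-- lower vertices -/
theorem low_cases {u : V} (hu : (∃ r, u = a r ∧ r ≤ k) ∨ (∃ r, u = b r ∧ r ≤ l)) :
    (∃ r, r ≤ p + 1 - k + (m + 1 - l) ∧ u = wU a b p m i k l r) ∨
      ((∀ r ≤ p + 1 - k + (m + 1 - l), wU a b p m i k l r ≠ u) ∧
        rs T (wU a b p m i k l) (p + 1 - k + (m + 1 - l)) (a i) (b j) u = 0) := by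
  have har := h.ar
  rcases hu with ⟨r, rfl, hr⟩ | ⟨r, rfl, hr⟩
  · by_cases r0 : r = 0
    · exact Or.inl ⟨p + 1 - k, by omega, by rw [wU_v h, r0]⟩
    by_cases rk : r = k
    · exact Or.inl ⟨0, by omega, by rw [wU_0, rk]⟩
    exact Or.inr ⟨wU_off_a h (by omega) (by omega), rs_a h (by omega) (by omega)⟩
  · by_cases r0 : r = 0
    · exact Or.inl ⟨p + 1 - k, by omega, by rw [wU_v h, r0, h.two.v0]⟩
    by_cases rl : r = l
    · exact Or.inl ⟨p + 1 - k + (m + 1 - l), le_rfl, by rw [wU_q h, rl]⟩
    exact Or.inr ⟨wU_off_b h (by omega) (by omega), rs_b h (by omega) (by omega)⟩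

/-- a chord of the upper room misses the lower edges -/
theorem fwd_a {s t : ℕ} (hN : NCh T (wU a b p m i k l) (p + 1 - k + (m + 1 - l)) (a i) (b j) s t) {r : ℕ}
    (hr : r < k) : T.X (wU a b p m i k l s) (wU a b p m i k l t) (a r) (a (r + 1)) = false := by
  have har := h.ar
  rw [T.xs4]
  by_cases r0 : r = 0
  · subst r0
    rw [T.xs1]
    exact fwd_edge h hN (wU_off_a h (by omega) (by omega)) (rs_a h (by omega) (by omega))
      (low_cases h (Or.inl ⟨0, rfl, by omega⟩)) (fun t ht => by rw [T.xs1]; exact (h.two.brd_a 0).mis h t ht)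
      (by rw [T.xs2]; exact (brd_c h 0).1) (by rw [T.xs2]; exact (brd_c h 0).2)
  · exact fwd_edge h hN (wU_off_a h (by omega) hr) (rs_a h (by omega) hr)
      (low_cases h (Or.inl ⟨r + 1, rfl, by omega⟩)) ((h.two.brd_a r).mis h) (brd_c h r).1 (brd_c h r).2

theorem fwd_b {s t : ℕ} (hN : NCh T (wU a b p m i k l) (p + 1 - k + (m + 1 - l)) (a i) (b j) s t) {r : ℕ}
    (hr : r < l) : T.X (wU a b p m i k l s) (wU a b p m i k l t) (b r) (b (r + 1)) = false := by
  have har := h.ar
  rw [T.xs4]
  by_cases r0 : r = 0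
  · subst r0
    rw [T.xs1]
    exact fwd_edge h hN (wU_off_b h (by omega) (by omega)) (rs_b h (by omega) (by omega))
      (low_cases h (Or.inr ⟨0, rfl, by omega⟩)) (fun t ht => by rw [T.xs1]; exact (h.two.brd_b 0).mis h t ht)
      (by rw [T.xs2]; exact (brd_d h 0).1) (by rw [T.xs2]; exact (brd_d h 0).2)
  · exact fwd_edge h hN (wU_off_b h (by omega) hr) (rs_b h (by omega) hr)
      (low_cases h (Or.inr ⟨r + 1, rfl, by omega⟩)) ((h.two.brd_b r).mis h) (brd_d h r).1 (brd_d h r).2

/-- (I5), first half: a chord of the upper room which straddles `v` is bridging -/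
theorem up_fwd {s t : ℕ} (hN : NCh T (wU a b p m i k l) (p + 1 - k + (m + 1 - l)) (a i) (b j) s t)
    (h1 : s < p + 1 - k) (h2 : p + 1 - k < t) : Br T a b p m (k + s) (m + 1 - (t - (p + 1 - k))) := by
  have har := h.ar
  have h3 := hN.le
  have e1 : wU a b p m i k l s = a (k + s) := wU_a (by omega)
  have e2 : wU a b p m i k l t = b (m + 1 - (t - (p + 1 - k))) := by
    have := wU_b h (t := t - (p + 1 - k)) (by omega)
    rwa [show p + 1 - k + (t - (p + 1 - k)) = t by omega] at this
  refine ⟨by omega, by omega, by omega, by omega, ?_, ?_⟩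
  · apply unc_lt h.two.pa.toPer
    intro r hr
    rw [← e1, ← e2]
    rcases Nat.lt_or_ge r k with hk | hk
    · exact fwd_a h hN hk
    · have := hN.mis (r - k) (by omega)
      rwa [wU_a (t := r - k) (by omega), wU_a (t := r - k + 1) (by omega), show k + (r - k) = r by omega,
        show k + (r - k + 1) = r + 1 by omega] at this
  · apply unc_lt h.two.pb.toPer
    intro r hr
    rw [← e1, ← e2]
    rcases Nat.lt_or_ge r l with hk | hk
    · exact fwd_b h hN hk
    · have := hN.mis (p + 1 - k + (m - r)) (by omega)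
      have e3 := wU_b h (t := m - r) (by omega)
      have e4 := wU_b h (t := m - r + 1) (by omega)
      rw [e3, show p + 1 - k + (m - r) + 1 = p + 1 - k + (m - r + 1) by omega, e4,
        show m + 1 - (m - r) = r + 1 by omega, show m + 1 - (m - r + 1) = r by omega, T.xs2] at this
      exact this

end

end H30P
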