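import Pool.Agent.Lib.H30P.Asm
import Pool.Agent.Lib.H36L.NK2
import Pool.Agent.Lib.H36L.NS

/-!
# H30P, file UpR: the upper room of two crossing bridging edges (I5)

`c = a i b l`, `d = a k b j`, `i < k`, `j < l`, both bridging. `wU a b p m i k`: the path
`a k, .., a p, v, b m, ..` (its vertex after `b l` is `a i`), `qU = (p + 1 - k) + (m + 1 - l)`.
* `up_room`: it is the path of a room with `A = a i`, `B = b j`;
* `up_nch`: the chords of the room which straddle `v` are the bridging edges above `c` and `d`.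
-/

set_option autoImplicit false
set_option linter.unusedSectionVars false
set_option linter.unusedVariables false

namespace H30P

open H53P H36L H10S Finset

variable {V : Type*} [DecidableEq V] {T : Table V} {a b : ℕ → V} {p m i k l j : ℕ}

/-- the upper path; its vertex after `b l` is `a i` -/
def wU (a b : ℕ → V) (p m i k l : ℕ) (t : ℕ) : V :=
  if t ≤ p + 1 - k then a (k + t) else if t ≤ (p + 1 - k) + (m + 1 - l) then b (m + 1 - (t - (p + 1 - k))) else a i

/-- two crossing bridging edges -/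
structure Cd (T : Table V) (a b : ℕ → V) (p m i k l j : ℕ) : Prop where
  two : Two T a p b m
  crn : Crn T a b p m
  ik : i < k
  jl : j < l
  c : Br T a b p m i l
  d : Br T a b p m k j

theorem Cd.ar (h : Cd T a b p m i k l j) : 1 ≤ i ∧ i < k ∧ k ≤ p ∧ 1 ≤ j ∧ j < l ∧ l ≤ m :=
  ⟨h.c.1, h.ik, h.d.2.1, h.d.2.2.1, h.jl, h.c.2.2.2.1⟩

theorem wU_a {t : ℕ} (ht : t ≤ p + 1 - k) : wU a b p m i k l t = a (k + t) := if_pos ht

theorem wU_b (h : Cd T a b p m i k l j) {t : ℕ} (ht : t ≤ m + 1 - l) :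
    wU a b p m i k l (p + 1 - k + t) = b (m + 1 - t) := by
  have har := h.ar
  unfold wU
  by_cases h0 : t = 0
  · subst h0
    rw [if_pos (by omega), Nat.sub_zero, show k + (p + 1 - k + 0) = p + 1 by omega, h.two.pa.toPer.top,
      h.two.pb.toPer.top, h.two.v0]
  · rw [if_neg (by omega), if_pos (by omega), show p + 1 - k + t - (p + 1 - k) = t by omega]

theorem wU_A : wU a b p m i k l ((p + 1 - k) + (m + 1 - l) + 1) = a i := by
  unfold wU
  rw [if_neg (by omega), if_neg (by omega)]

theorem wU_v (h : Cd T a b p m i k l j) : wU a b p m i k l (p + 1 - k) = a 0 := by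
  have := h.ar
  rw [wU_a le_rfl, show k + (p + 1 - k) = p + 1 by omega, h.two.pa.toPer.top]

theorem wU_q (h : Cd T a b p m i k l j) : wU a b p m i k l (p + 1 - k + (m + 1 - l)) = b l := by
  have := h.ar
  rw [wU_b h le_rfl, show m + 1 - (m + 1 - l) = l by omega]

theorem wU_0 : wU a b p m i k l 0 = a k := by
  rw [wU_a (Nat.zero_le _), Nat.add_zero]

/-- the vertices of the upper path -/
theorem wU_cases (h : Cd T a b p m i k l j) {t : ℕ} (ht : t ≤ p + 1 - k + (m + 1 - l)) :
    (t < p + 1 - k ∧ wU a b p m i k l t = a (k + t)) ∨ (t = p + 1 - k ∧ wU a b p m i k l t = a 0) ∨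
      (p + 1 - k < t ∧ wU a b p m i k l t = b (m + 1 - (t - (p + 1 - k)))) := by
  rcases Nat.lt_trichotomy t (p + 1 - k) with h1 | h1 | h1
  · exact Or.inl ⟨h1, wU_a (by omega)⟩
  · exact Or.inr (Or.inl ⟨h1, by rw [h1, wU_v h]⟩)
  · refine Or.inr (Or.inr ⟨h1, ?_⟩)
    have := wU_b h (t := t - (p + 1 - k)) (by omega)
    rwa [show p + 1 - k + (t - (p + 1 - k)) = t by omega] at this

/-- the edges of the upper path are edges of the two cycles -/
theorem wU_step (h : Cd T a b p m i k l j) {t : ℕ} (ht : t < p + 1 - k + (m + 1 - l)) :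
    (∃ s, wU a b p m i k l t = a s ∧ wU a b p m i k l (t + 1) = a (s + 1)) ∨
      (∃ s, wU a b p m i k l t = b (s + 1) ∧ wU a b p m i k l (t + 1) = b s) := by
  rcases Nat.lt_or_ge t (p + 1 - k) with h1 | h1
  · exact Or.inl ⟨k + t, wU_a (by omega), by rw [wU_a (by omega)]; rfl⟩
  · refine Or.inr ⟨m + 1 - (t - (p + 1 - k)) - 1, ?_, ?_⟩
    · have := wU_b h (t := t - (p + 1 - k)) (by omega)
      rw [show p + 1 - k + (t - (p + 1 - k)) = t by omega] at this
      rw [this]
      congr 1
      omega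
    · have := wU_b h (t := t + 1 - (p + 1 - k)) (by omega)
      rw [show p + 1 - k + (t + 1 - (p + 1 - k)) = t + 1 by omega] at this
      rw [this]
      congr 1
      omega

/-- an edge which misses the two cycles misses the upper path -/
theorem Brd.mis (h : Cd T a b p m i k l j) {x y : V} (hb : Brd T a b x y) :
    Mis T (wU a b p m i k l) (p + 1 - k + (m + 1 - l)) x y := by
  intro t ht
  rcases wU_step h ht with ⟨s, e1, e2⟩ | ⟨s, e1, e2⟩
  · rw [e1, e2]; exact hb.1 s
  · rw [e1, e2, T.xs2]; exact hb.2 s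

theorem wU_brd (h : Cd T a b p m i k l j) {t : ℕ} (ht : t < p + 1 - k + (m + 1 - l)) :
    Brd T a b (wU a b p m i k l t) (wU a b p m i k l (t + 1)) := by
  rcases wU_step h ht with ⟨s, e1, e2⟩ | ⟨s, e1, e2⟩
  · rw [e1, e2]; exact h.two.brd_a s
  · rw [e1, e2]; exact (h.two.brd_b s).symm

/-- the lower vertices are off the upper path -/
theorem wU_off_a (h : Cd T a b p m i k l j) {r : ℕ} (h1 : 1 ≤ r) (h2 : r < k) :
    ∀ t ≤ p + 1 - k + (m + 1 - l), wU a b p m i k l t ≠ a r := by
  intro t ht he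
  have har := h.ar
  rcases wU_cases h ht with ⟨h3, e⟩ | ⟨h3, e⟩ | ⟨h3, e⟩
  · rw [e] at he
    exact h.two.pa.toPer.ne_of (i := r) (j := k + t) (by omega) (by omega) he.symm
  · rw [e] at he
    exact h.two.pa.toPer.ne_of (i := 0) (j := r) (by omega) (by omega) he
  · rw [e] at he
    exact h.two.dis r _ h1 (by omega) he.symm

theorem wU_off_b (h : Cd T a b p m i k l j) {r : ℕ} (h1 : 1 ≤ r) (h2 : r < l) :
    ∀ t ≤ p + 1 - k + (m + 1 - l), wU a b p m i k l t ≠ b r := by
  intro t ht he
  have har := h.ar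
  rcases wU_cases h ht with ⟨h3, e⟩ | ⟨h3, e⟩ | ⟨h3, e⟩
  · rw [e] at he
    exact h.two.dis (k + t) _ (by omega) (by omega) he
  · rw [e] at he
    exact h.two.dis0 (Nat.zero_le p) h1 (by omega) he
  · rw [e] at he
    exact h.two.pb.toPer.ne_of (i := r) (j := m + 1 - (t - (p + 1 - k))) (by omega) (by omega) he.symm

theorem wU_inj (h : Cd T a b p m i k l j) : ∀ s ≤ p + 1 - k + (m + 1 - l), ∀ t ≤ p + 1 - k + (m + 1 - l),
    wU a b p m i k l s = wU a b p m i k l t → s = t := by
  intro s hs t ht he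
  have har := h.ar
  have hA := h.two.pa.toPer
  have hB := h.two.pb.toPer
  rcases wU_cases h hs with ⟨h3, e⟩ | ⟨h3, e⟩ | ⟨h3, e⟩ <;>
    rcases wU_cases h ht with ⟨h4, f⟩ | ⟨h4, f⟩ | ⟨h4, f⟩ <;> rw [e, f] at he
  · have := hA.inj _ (by omega) _ (by omega) he
    omega
  · exact absurd he.symm (hA.ne_of (by omega) (by omega))
  · exact absurd he (h.two.dis _ _ (by omega) (by omega))
  · exact absurd he (hA.ne_of (by omega) (by omega))
  · omega
  · exact absurd he (h.two.dis0 (Nat.zero_le p) (by omega) (by omega))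
  · exact absurd he.symm (h.two.dis _ _ (by omega) (by omega))
  · exact absurd he.symm (h.two.dis0 (Nat.zero_le p) (by omega) (by omega))
  · have := hB.inj _ (by omega) _ (by omega) he
    omega

/-- the upper room -/
theorem up_room (h : Cd T a b p m i k l j) :
    Room T (wU a b p m i k l) (p + 1 - k + (m + 1 - l)) (a i) (b j) where
  two := by have := h.ar; omega
  inj := wU_inj h
  offA := wU_off_a h h.ar.1 h.ik
  offB := wU_off_b h h.ar.2.2.2.1 h.jl
  plane s hs t ht := by
    have h1 := wU_brd h hs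
    exact h1.mis h t ht
  crs := by
    rw [wU_0, wU_q h, T.xs2]
    exact (cr_iff h.two h.crn h.d h.c).2 (Or.inr ⟨h.ik, h.jl⟩)
  unc t ht := by
    rw [wU_0]
    exact h.d.2.2.2.2.mis h t ht
  und t ht := by
    rw [wU_q h, T.xs1]
    exact h.c.2.2.2.2.mis h t ht

theorem up_ext (h : Cd T a b p m i k l j) :
    Ext T (wU a b p m i k l) (p + 1 - k + (m + 1 - l)) (a i) (b j) := ⟨up_room h, wU_A⟩

end H30P
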